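import Pool.Agent.Lib.MP_bb8a0f_gt.Defs

namespace Pool.Agent.Lib.MP_bb8a0f_gt

open LaurentPolynomial

/-- Oriented tangle diagrams with `n` upper and `n` lower ends, numbered from the left. -/
inductive Dg : ℕ → Type
  /-- One crossing. The over strand joins SW and NE if `s`, else SE and NW; `o` and `u` say
  whether the over and the under strand run upwards. -/
  | cross (s o u : Bool) : Dg 2
  /-- Anticlockwise quarter turn. -/
  | rot (A : Dg 2) : Dg 2
  /-- `A` on top of `B`. -/
  | comp (A B : Dg 2) : Dg 2
  /-- Three vertical arcs; arc `i` runs upwards if `d i`. -/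
  | nil (s : Bool) (d : ℕ → Bool) : Dg 3
  /-- `A` attached below the lower ends `0, 1` of `W`. -/
  | left (A : Dg 2) (W : Dg 3) : Dg 3
  /-- `A` attached below the lower ends `1, 2` of `W`. -/
  | right (A : Dg 2) (W : Dg 3) : Dg 3
  /-- The upper and lower ends `2` of `W` joined by a new arc round the right. -/
  | close (W : Dg 3) : Dg 2

/-- An end: the name of its arc, whether it counts as an over end, whether it points out. -/
structure End where
  arc : List Bool
  ov : Bool
  out : Bool

/-- Renaming of the arc of an end. -/
def End.pre (b : Bool) (x : End) : End := ⟨b :: x.arc, x.ov, x.out⟩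

/-- Two ends can be joined: over meets under and out meets in. -/
def End.Match (x y : End) : Prop := x.ov ≠ y.ov ∧ x.out ≠ y.out

/-- The end number `i` on the upper (`t = true`) or lower side. -/
def Dg.ends : {n : ℕ} → Dg n → Bool → ℕ → End
  | _, .cross s o u, t, i =>
      ⟨[t, i == 1], (i == 1) == (t == s), t == if (i == 1) == (t == s) then o else u⟩
  | _, .rot A, t, i => A.ends (i == 0) (if t then 1 else 0)
  | _, .comp A B, t, i => if t then (A.ends t i).pre false else (B.ends t i).pre true
  | _, .nil s d, t, i => ⟨List.replicate i true, (i == 1) == (t == s), t == d i⟩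
  | _, .left A W, t, i => if t ∨ i = 2 then (W.ends t i).pre true else (A.ends t i).pre false
  | _, .right A W, t, i =>
      if t ∨ i = 0 then (W.ends t i).pre true else (A.ends t (i - 1)).pre false
  | _, .close W, t, i => (W.ends t i).pre true

/-- Some tangle is attached on the left (`c = false`) or on the right (`c = true`). -/
def Dg.Uses (c : Bool) : {n : ℕ} → Dg n → Prop
  | _, .left _ W => c = false ∨ W.Uses c
  | _, .right _ W => c = true ∨ W.Uses c
  | _, _ => False

/-- The diagram is alternating, consistently oriented and connected. -/
def Dg.Ok : {n : ℕ} → Dg n → Prop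
  | _, .cross _ _ _ => True
  | _, .rot A => A.Ok
  | _, .comp A B => A.Ok ∧ B.Ok ∧
      (A.ends false 0).Match (B.ends true 0) ∧ (A.ends false 1).Match (B.ends true 1)
  | _, .nil _ _ => True
  | _, .left A W => A.Ok ∧ W.Ok ∧
      (W.ends false 0).Match (A.ends true 0) ∧ (W.ends false 1).Match (A.ends true 1)
  | _, .right A W => A.Ok ∧ W.Ok ∧
      (W.ends false 1).Match (A.ends true 0) ∧ (W.ends false 2).Match (A.ends true 1)
  | _, .close W => W.Ok ∧ W.Uses false ∧ W.Uses true ∧ (W.ends true 2).Match (W.ends false 2)

/-- The arcs: four at each crossing, three in `nil`, one for each `close`. -/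
def Dg.arcs : {n : ℕ} → Dg n → List (List Bool)
  | _, .cross _ _ _ => [[true, false], [true, true], [false, false], [false, true]]
  | _, .rot A => A.arcs
  | _, .comp A B => A.arcs.map (false :: ·) ++ B.arcs.map (true :: ·)
  | _, .nil _ _ => [[], [true], [true, true]]
  | _, .left A W => A.arcs.map (false :: ·) ++ W.arcs.map (true :: ·)
  | _, .right A W => A.arcs.map (false :: ·) ++ W.arcs.map (true :: ·)
  | _, .close W => [] :: W.arcs.map (true :: ·)

/-- Renaming of the arcs in a list of relators. -/
def preRels (b : Bool) (l : List (List (List Bool × Bool))) : List (List (List Bool × Bool)) :=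
  l.map fun r => r.map fun p => (b :: p.1, p.2)

/-- The relator `x y⁻¹`. -/
def glue (x y : List Bool) : List (List Bool × Bool) := [(x, true), (y, false)]

/-- Wirtinger relators, as words in the arcs (`true` is exponent `1`, `false` is `-1`). -/
def Dg.rels : {n : ℕ} → Dg n → List (List (List Bool × Bool))
  | _, .cross s o _ => [glue [true, s] [false, !s],
      [([true, s], true), ([o != s, o], true), ([true, s], false), ([o == s, !o], false)]]
  | _, .rot A => A.rels
  | _, .comp A B => preRels false A.rels ++ preRels true B.rels ++
      [glue (false :: (A.ends false 0).arc) (true :: (B.ends true 0).arc),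
        glue (false :: (A.ends false 1).arc) (true :: (B.ends true 1).arc)]
  | _, .nil _ _ => []
  | _, .left A W => preRels false A.rels ++ preRels true W.rels ++
      [glue (true :: (W.ends false 0).arc) (false :: (A.ends true 0).arc),
        glue (true :: (W.ends false 1).arc) (false :: (A.ends true 1).arc)]
  | _, .right A W => preRels false A.rels ++ preRels true W.rels ++
      [glue (true :: (W.ends false 1).arc) (false :: (A.ends true 0).arc),
        glue (true :: (W.ends false 2).arc) (false :: (A.ends true 1).arc)]
  | _, .close W => preRels true W.rels ++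
      [glue (true :: (W.ends true 2).arc) [], glue (true :: (W.ends false 2).arc) []]

/-- Relators of the link obtained by joining each upper end to the lower end below it. -/
def Dg.linkRels (A : Dg 2) : List (List (List Bool × Bool)) :=
  A.rels ++ [glue (A.ends true 0).arc (A.ends false 0).arc,
    glue (A.ends true 1).arc (A.ends false 1).arc]

/-- Fox derivative `∂/∂x` of a word, with every generator sent to `t`. -/
noncomputable def foxAt (x : List Bool) : List (List Bool × Bool) → LaurentPolynomial ℤ
  | [] => 0
  | (y, true) :: l => (if y = x then 1 else 0) + T 1 * foxAt x l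
  | (y, false) :: l => T (-1) * (foxAt x l - if y = x then 1 else 0)

/-- First elementary ideal of the Wirtinger presentation: the ideal generated by the minors of
the Alexander matrix whose size is one less than the number of generators. -/
noncomputable def Dg.alexIdeal (A : Dg 2) : Ideal (LaurentPolynomial ℤ) :=
  Ideal.span {d | ∃ (r : Fin (A.arcs.length - 1) → List (List Bool × Bool))
    (c : Fin (A.arcs.length - 1) → List Bool), (∀ i, r i ∈ A.linkRels) ∧ (∀ j, c j ∈ A.arcs) ∧
      d = (Matrix.of fun i j => foxAt (c j) (r i)).det}

end Pool.Agent.Lib.MP_bb8a0f_gt
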