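import Pool.Agent.Lib.MP_bb8a0f_gt.Main
import Pool.Agent.Lib.MP_bb8a0f_gt.WDefs

-- part Pool.Agent.Lib.MP_bb8a0f_gt.Ext
section

/-! Laplace expansions in an exterior algebra. -/

namespace Pool.Agent.Lib.MP_bb8a0f_gt

/-- Arc names. -/
abbrev Lab := List Bool

/-- Coordinates on a vertical composition. -/
noncomputable def cg (h k : Lab → R) (b0 b1 t0 t1 : Lab) : Lab → R
  | false :: y => (h y - h b0) * (k t1 - k t0) + (h b1 - h b0) * k t0
  | true :: y => (h b1 - h b0) * k y
  | [] => 0

/-- Coordinates on a word with one more letter. -/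
noncomputable def lg (h : Lab → R) (g : Lab → Lab → R) (a0 a1 b0 b1 : Lab) : Lab → Lab → R
  | true :: x, true :: y => (h a1 - h a0) * g x y
  | false :: x, true :: y => (h x - h a0) * g b1 y - (h x - h a1) * g b0 y
  | true :: x, false :: y => (h y - h a0) * g x b1 - (h y - h a1) * g x b0
  | false :: x, false :: y => (h y - h x) * g b0 b1
  | _, _ => 0

/-- Coordinates on a closed word. -/
noncomputable def og (g : Lab → Lab → R) (t b : Lab) : Lab → R
  | [] => - g t b
  | _ :: y => g b y - g t y

theorem lg_anti {h : Lab → R} {g : Lab → Lab → R} (hg : ∀ x y, g x y = - g y x)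
    (a0 a1 b0 b1 x y : Lab) : lg h g a0 a1 b0 b1 x y = - lg h g a0 a1 b0 b1 y x := by
  rcases x with _ | ⟨_ | _, x⟩ <;> rcases y with _ | ⟨_ | _, y⟩ <;> simp only [lg, neg_zero]
  · ring
  · rw [hg y b1, hg y b0]; ring
  · rw [hg x b1, hg x b0]; ring
  · rw [hg x y]; ring

section

variable {A : Type} [Ring A] [Algebra R A]

/-- Rank two systems. -/
structure Sys2 (X : Lab → A) (S : List Lab) (P v : A) (h : Lab → R) : Prop where
  cen : ∀ y, y * P = P * y
  rep : ∀ i ∈ S, ∀ j ∈ S, P * X i * X j = (h j - h i) • v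
  vl : ∀ i ∈ S, v * X i = 0
  vr : ∀ i ∈ S, X i * v = 0

/-- Rank three systems. -/
structure Sys3 (X : Lab → A) (S : List Lab) (P v : A) (g : Lab → Lab → R) : Prop where
  cen : ∀ y, y * P = P * y
  rep : ∀ i ∈ S, ∀ j ∈ S, ∀ k ∈ S, P * X i * X j * X k = (g j k - g i k + g i j) • v
  vl : ∀ i ∈ S, v * X i = 0
  vr : ∀ i ∈ S, X i * v = 0
  anti : ∀ x y, g x y = - g y x

theorem glue22 {X : Lab → A} (hX : ∀ i j r, X i * (X j * r) = - (X j * (X i * r)))
    {S S' : List Lab} {P Q v w : A} {h k : Lab → R}
    (H : Sys2 (fun i => X (false :: i)) S P v h) (K : Sys2 (fun i => X (true :: i)) S' Q w k)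
    {b0 b1 t0 t1 : Lab} (m1 : b0 ∈ S) (m2 : b1 ∈ S) (m3 : t0 ∈ S') (m4 : t1 ∈ S') :
    ∀ i ∈ S.map (false :: ·) ++ S'.map (true :: ·),
      ∀ j ∈ S.map (false :: ·) ++ S'.map (true :: ·),
      P * Q * ((X (false :: b0) - X (true :: t0)) * (X (false :: b1) - X (true :: t1))) *
        X i * X j = (cg h k b0 b1 t0 t1 j - cg h k b0 b1 t0 t1 i) • (v * w) := by
  have sw : ∀ i j r, X (true :: i) * (X (false :: j) * r) =
      - (X (false :: j) * (X (true :: i) * r)) := fun i j r => hX _ _ _
  have hP : ∀ i j r, i ∈ S → j ∈ S → P * (X (false :: i) * (X (false :: j) * r)) =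
      (h j - h i) • (v * r) := fun i j r hi hj => by
    rw [← mul_assoc, ← mul_assoc, H.rep i hi j hj, smul_mul_assoc]
  have hv : ∀ i r, i ∈ S → v * (X (false :: i) * r) = 0 := fun i r hi => by
    rw [← mul_assoc, H.vl i hi, zero_mul]
  have hQ : ∀ i j, i ∈ S' → j ∈ S' → X (true :: i) * (X (true :: j) * Q) =
      (k j - k i) • w := fun i j hi hj => by
    rw [← mul_assoc, K.cen, ← mul_assoc, K.rep i hi j hj]
  have hw : ∀ i, i ∈ S' → X (true :: i) * w = 0 := K.vr
  intro i hi j hj
  have e : ∀ a b c : A, P * Q * a * b * c = P * (a * (b * (c * Q))) := fun a b c => by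
    simp only [mul_assoc]; rw [← K.cen (a * (b * c))]; simp only [mul_assoc]
  rw [e]
  simp only [List.mem_append, List.mem_map] at hi hj
  rcases hi with ⟨x, hx, rfl⟩ | ⟨x, hx, rfl⟩ <;> rcases hj with ⟨y, hy, rfl⟩ | ⟨y, hy, rfl⟩ <;>
    simp only [sub_mul, mul_sub, mul_assoc, sw, hP, hv, hQ, hw, hx, hy, m1, m2, m3, m4, mul_neg,
      neg_neg, mul_smul_comm, smul_zero, mul_zero, neg_zero, cg] <;> module

theorem glue23 {X : Lab → A} (hX : ∀ i j r, X i * (X j * r) = - (X j * (X i * r)))
    {S S' : List Lab} {P Q v w : A} {h : Lab → R} {g : Lab → Lab → R}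
    (H : Sys2 (fun i => X (false :: i)) S P v h) (K : Sys3 (fun i => X (true :: i)) S' Q w g)
    {a0 a1 b0 b1 : Lab} (m1 : a0 ∈ S) (m2 : a1 ∈ S) (m3 : b0 ∈ S') (m4 : b1 ∈ S') :
    ∀ i ∈ S.map (false :: ·) ++ S'.map (true :: ·),
      ∀ j ∈ S.map (false :: ·) ++ S'.map (true :: ·),
      ∀ k ∈ S.map (false :: ·) ++ S'.map (true :: ·),
      P * Q * ((X (true :: b0) - X (false :: a0)) * (X (true :: b1) - X (false :: a1))) *
        X i * X j * X k = (lg h g a0 a1 b0 b1 j k - lg h g a0 a1 b0 b1 i k +
          lg h g a0 a1 b0 b1 i j) • (v * w) := by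
  have sw : ∀ i j r, X (true :: i) * (X (false :: j) * r) =
      - (X (false :: j) * (X (true :: i) * r)) := fun i j r => hX _ _ _
  have hP : ∀ i j r, i ∈ S → j ∈ S → P * (X (false :: i) * (X (false :: j) * r)) =
      (h j - h i) • (v * r) := fun i j r hi hj => by
    rw [← mul_assoc, ← mul_assoc, H.rep i hi j hj, smul_mul_assoc]
  have hv : ∀ i r, i ∈ S → v * (X (false :: i) * r) = 0 := fun i r hi => by
    rw [← mul_assoc, H.vl i hi, zero_mul]
  have hQ : ∀ i j k, i ∈ S' → j ∈ S' → k ∈ S' →
      X (true :: i) * (X (true :: j) * (X (true :: k) * Q)) =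
      (g j k - g i k + g i j) • w := fun i j k hi hj hk => by
    rw [← mul_assoc, ← mul_assoc, K.cen, ← mul_assoc, ← mul_assoc, K.rep i hi j hj k hk]
  have hw : ∀ i, i ∈ S' → X (true :: i) * w = 0 := K.vr
  intro i hi j hj k hk
  have e : ∀ a b c d : A, P * Q * a * b * c * d = P * (a * (b * (c * (d * Q)))) :=
    fun a b c d => by
      simp only [mul_assoc]; rw [← K.cen (a * (b * (c * d)))]; simp only [mul_assoc]
  have a1 := K.anti
  rw [e]
  simp only [List.mem_append, List.mem_map] at hi hj hk
  rcases hi with ⟨x, hx, rfl⟩ | ⟨x, hx, rfl⟩ <;> rcases hj with ⟨y, hy, rfl⟩ | ⟨y, hy, rfl⟩ <;>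
    rcases hk with ⟨z, hz, rfl⟩ | ⟨z, hz, rfl⟩ <;>
    simp only [sub_mul, mul_sub, mul_assoc, sw, hP, hv, hQ, hw, hx, hy, hz, m1, m2, m3, m4,
      mul_neg, neg_neg, mul_smul_comm, smul_zero, mul_zero, neg_zero, lg] <;>
    (try rw [a1 x b0, a1 x b1]) <;> (try rw [a1 y b0, a1 y b1]) <;> module

theorem glue31 {X : Lab → A} (hX : ∀ i j r, X i * (X j * r) = - (X j * (X i * r)))
    (h0 : ∀ r, X [] * (X [] * r) = 0) {S : List Lab} {Q w : A} {g : Lab → Lab → R}
    (K : Sys3 (fun i => X (true :: i)) S Q w g) {t b : Lab} (m1 : t ∈ S) (m2 : b ∈ S) :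
    ∀ i ∈ [] :: S.map (true :: ·), ∀ j ∈ [] :: S.map (true :: ·),
      Q * ((X (true :: t) - X []) * (X (true :: b) - X [])) * X i * X j =
        (og g t b j - og g t b i) • (X [] * w) := by
  have sw : ∀ i r, X (true :: i) * (X [] * r) = - (X [] * (X (true :: i) * r)) :=
    fun i r => hX _ _ _
  have hQ : ∀ i j k, i ∈ S → j ∈ S → k ∈ S →
      X (true :: i) * (X (true :: j) * (X (true :: k) * Q)) =
      (g j k - g i k + g i j) • w := fun i j k hi hj hk => by
    rw [← mul_assoc, ← mul_assoc, K.cen, ← mul_assoc, ← mul_assoc, K.rep i hi j hj k hk]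
  have hw : ∀ i, i ∈ S → X (true :: i) * w = 0 := K.vr
  intro i hi j hj
  have e : ∀ a b c : A, Q * a * b * c = a * (b * (c * Q)) := fun a b c => by
    rw [← mul_assoc b, ← mul_assoc a, K.cen]; simp only [mul_assoc]
  rw [e]
  simp only [List.mem_cons, List.mem_map] at hi hj
  clear hX e
  rcases hi with rfl | ⟨x, hx, rfl⟩ <;> rcases hj with rfl | ⟨y, hy, rfl⟩ <;>
    simp only [sub_mul, mul_sub, mul_assoc, mul_neg, neg_neg, mul_smul_comm, smul_zero, mul_zero,
      neg_zero, og, *] <;> module

theorem glue_cross {o p r l : A} (t : R) (X : Fin 4 → A) (e : X = ![o, p, r, l])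
    (hX : ∀ i j z, X i * (X j * z) = - (X j * (X i * z))) (h0 : ∀ i z, X i * (X i * z) = 0)
    (i j : Fin 4) (z : A) :
    (o - p) * ((1 - t) • o + t • r - l) * X i * X j * z =
      ((![0, 0, -1, -t] : Fin 4 → R) j - (![0, 0, -1, -t] : Fin 4 → R) i) •
        (o * p * r * l * z) := by
  have a1 : ∀ z, p * (o * z) = - (o * (p * z)) := by simpa [e] using hX 1 0
  have a2 : ∀ z, r * (o * z) = - (o * (r * z)) := by simpa [e] using hX 2 0
  have a3 : ∀ z, l * (o * z) = - (o * (l * z)) := by simpa [e] using hX 3 0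
  have a4 : ∀ z, r * (p * z) = - (p * (r * z)) := by simpa [e] using hX 2 1
  have a5 : ∀ z, l * (p * z) = - (p * (l * z)) := by simpa [e] using hX 3 1
  have a6 : ∀ z, l * (r * z) = - (r * (l * z)) := by simpa [e] using hX 3 2
  have b1 : ∀ z, o * (o * z) = 0 := by simpa [e] using h0 0
  have b2 : ∀ z, p * (p * z) = 0 := by simpa [e] using h0 1
  have b3 : ∀ z, r * (r * z) = 0 := by simpa [e] using h0 2
  have b4 : ∀ z, l * (l * z) = 0 := by simpa [e] using h0 3
  subst e
  fin_cases i <;> fin_cases j <;>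
    simp only [Fin.zero_eta, Fin.mk_one, Fin.reduceFinMk, Matrix.cons_val, sub_mul, mul_sub,
      add_mul, mul_add, mul_assoc, smul_mul_assoc, mul_smul_comm, a1, a2, a3, a4, a5, a6, b1, b2,
      b3, b4, mul_neg, neg_neg, mul_zero, neg_zero, zero_mul, neg_mul] <;> module

end

open ExteriorAlgebra

variable {V : Type} [AddCommGroup V] [Module R V]

/-- Exterior product of a list. -/
noncomputable def wedge (l : List V) : ExteriorAlgebra R V := (l.map (ι R)).prod

theorem wedge_append (u v : List V) : wedge (u ++ v) = wedge u * wedge v := by simp [wedge]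

theorem wedge_cons (x : V) (v : List V) : wedge (x :: v) = ι R x * wedge v := by simp [wedge]

theorem wedge_nil : wedge ([] : List V) = 1 := rfl

theorem io_anti (x y : V) (r : ExteriorAlgebra R V) :
    ι R x * (ι R y * r) = - (ι R y * (ι R x * r)) := by
  rw [← mul_assoc, ← mul_assoc, eq_neg_iff_add_eq_zero, ← add_mul, ι_add_mul_swap, zero_mul]

theorem io_sq (x : V) (r : ExteriorAlgebra R V) : ι R x * (ι R x * r) = 0 := by
  rw [← mul_assoc, ι_sq_zero, zero_mul]

theorem io_wedge (x : V) (l : List V) :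
    ι R x * wedge l = ((-1 : R) ^ l.length) • (wedge l * ι R x) := by
  induction l with
  | nil => simp [wedge_nil]
  | cons y l ih =>
    rw [wedge_cons, io_anti, ih, List.length_cons, pow_succ, mul_smul_comm, mul_assoc]
    module

theorem wedge_cen {l : List V} (h : Even l.length) (y : ExteriorAlgebra R V) :
    y * wedge l = wedge l * y := by
  induction y using ExteriorAlgebra.induction with
  | algebraMap r => exact Algebra.commutes r _
  | ι x => rw [io_wedge, h.neg_one_pow, one_smul]
  | mul a b ha hb => rw [mul_assoc, hb, ← mul_assoc, ha, mul_assoc]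
  | add a b ha hb => rw [add_mul, mul_add, ha, hb]

theorem io_wedge_mem {x : V} {l : List V} (h : x ∈ l) : ι R x * wedge l = 0 := by
  induction l with
  | nil => cases h
  | cons y l ih =>
    rw [wedge_cons]
    rcases List.mem_cons.1 h with rfl | h
    · exact io_sq _ _
    · rw [io_anti, ih h, mul_zero, neg_zero]

theorem wedge_io_mem {x : V} {l : List V} (h : x ∈ l) : wedge l * ι R x = 0 := by
  have := io_wedge x l
  rw [io_wedge_mem h] at this
  have h2 := congrArg (fun z => ((-1 : R) ^ l.length) • z) this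
  simp only [smul_zero, smul_smul, ← mul_pow] at h2
  simpa using h2.symm

theorem wedge_io_span {x : V} {l : List V} (h : x ∈ Submodule.span R {y | y ∈ l}) :
    wedge l * ι R x = 0 := by
  induction h using Submodule.span_induction with
  | mem y hy => exact wedge_io_mem hy
  | zero => simp
  | add a b _ _ ha hb => rw [map_add, mul_add, ha, hb, add_zero]
  | smul a b _ hb => rw [map_smul, mul_smul_comm, hb, smul_zero]

/-- The determinant functional attached to a choice of columns. -/
noncomputable def detF {n : ℕ} (c : Fin n → Lab) : ExteriorAlgebra R (Lab → R) →ₗ[R] R :=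
  liftAlternating (Function.update 0 n ((Matrix.detRowAlternating (n := Fin n) (R := R)).compLinearMap
    (LinearMap.pi fun j => LinearMap.proj (c j))))

theorem detF_wedge {n : ℕ} (c : Fin n → Lab) (v : Fin n → Lab → R) :
    detF c (wedge (List.ofFn v)) = (Matrix.of fun i j => v i (c j)).det := by
  have : wedge (List.ofFn v) = ιMulti R n v := by rw [ιMulti_apply, wedge, List.map_ofFn]; rfl
  rw [this, detF, liftAlternating_apply_ιMulti, Function.update_self]
  rfl

theorem detF_vol {S : List Lab} (h : S.Nodup) :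
    detF (fun j : Fin S.length => S[j]) (wedge (S.map fun y => (Pi.single y 1 : Lab → R))) = 1 := by
  have e : (S.map fun y => (Pi.single y 1 : Lab → R)) =
      List.ofFn fun j : Fin S.length => (Pi.single S[j] 1 : Lab → R) := by
    apply List.ext_getElem <;> simp
  rw [e, detF_wedge]
  refine (congrArg Matrix.det ?_).trans Matrix.det_one
  ext1 i j
  rw [Matrix.of_apply, Matrix.one_apply, Pi.single_apply]
  simp only [Fin.getElem_fin, h.getElem_inj_iff, Fin.val_inj, eq_comm]

theorem vol_free {S : List Lab} (h : S.Nodup) {c : R}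
    (e : c • wedge (S.map fun y => (Pi.single y 1 : Lab → R)) = 0) : c = 0 := by
  have := congrArg (detF fun j : Fin S.length => S[j]) e
  rwa [map_smul, detF_vol h, map_zero, smul_eq_mul, mul_one] at this

end Pool.Agent.Lib.MP_bb8a0f_gt
end

-- part Pool.Agent.Lib.MP_bb8a0f_gt.Rep
section

/-! Plücker coordinates of the Alexander matrix of a tangle diagram. -/

namespace Pool.Agent.Lib.MP_bb8a0f_gt

open LaurentPolynomial ExteriorAlgebra

/-- Coordinates at a crossing. -/
noncomputable def xg (s o : Bool) : Lab → R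
  | [t, i] => if i = (t == s) then 0 else (if o = s then 1 else -1) * if t = (o == s) then T 1 else 1
  | _ => 0

/-- The coordinates; for two strands the first argument is ignored. -/
noncomputable def gg : {n : ℕ} → Dg n → Lab → Lab → R
  | _, .cross s o _ => fun _ => xg s o
  | _, .rot A => gg A
  | _, .comp A B => fun _ => cg (gg A []) (gg B []) (A.ends false 0).arc (A.ends false 1).arc
      (B.ends true 0).arc (B.ends true 1).arc
  | _, .nil _ _ => fun x y => (if x.length = 1 ∧ y.length = 2 then 1 else 0) -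
      if y.length = 1 ∧ x.length = 2 then 1 else 0
  | _, .left A W => lg (gg A []) (gg W) (A.ends true 0).arc (A.ends true 1).arc
      (W.ends false 0).arc (W.ends false 1).arc
  | _, .right A W => lg (gg A []) (gg W) (A.ends true 0).arc (A.ends true 1).arc
      (W.ends false 1).arc (W.ends false 2).arc
  | _, .close W => fun _ => og (gg W) (W.ends true 2).arc (W.ends false 2).arc

theorem ends_mem {n : ℕ} (D : Dg n) : ∀ t i, i < n → (D.ends t i).arc ∈ D.arcs := by
  induction D with
  | cross s o u => intro t i _; cases t <;> cases h : i == 1 <;> simp [Dg.ends, Dg.arcs, h]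
  | rot A ih => intro t i _; exact ih _ _ (by split_ifs <;> omega)
  | comp A B ihA ihB =>
    intro t i hi
    simp only [Dg.ends, Dg.arcs]
    split_ifs <;> simp [End.pre, ihA t i hi, ihB t i hi]
  | nil s d => intro t i hi; interval_cases i <;> simp [Dg.ends, Dg.arcs]
  | left A W ihA ihW =>
    intro t i hi
    simp only [Dg.ends, Dg.arcs]
    split_ifs with h
    · simp [End.pre, ihW t i hi]
    · simp [End.pre, ihA t i (by omega)]
  | right A W ihA ihW =>
    intro t i hi
    simp only [Dg.ends, Dg.arcs]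
    split_ifs with h
    · simp [End.pre, ihW t i hi]
    · simp [End.pre, ihA t (i - 1) (by omega)]
  | close W ih => intro t i hi; simp [Dg.ends, Dg.arcs, End.pre, ih t i (by omega)]

theorem arcs_nodup {n : ℕ} (D : Dg n) : D.arcs.Nodup := by
  have key : ∀ u v : List Lab, u.Nodup → v.Nodup →
      (u.map (false :: ·) ++ v.map (true :: ·)).Nodup := fun u v hu hv =>
    (hu.map List.cons_injective).append (hv.map List.cons_injective) (by
      simp [List.disjoint_left])
  induction D with
  | cross s o u => simp [Dg.arcs]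
  | rot A ih => exact ih
  | comp A B ihA ihB => exact key _ _ ihA ihB
  | nil s d => simp [Dg.arcs]
  | left A W ihA ihW => exact key _ _ ihA ihW
  | right A W ihA ihW => exact key _ _ ihA ihW
  | close W ih => exact List.nodup_cons.2 ⟨by simp, ih.map List.cons_injective⟩

theorem rels_length {n : ℕ} (D : Dg n) :
    D.rels.length + n = D.arcs.length ∧ 2 ∣ D.rels.length := by
  induction D <;> simp only [Dg.rels, Dg.arcs, preRels, List.length_append, List.length_map,
    List.length_cons, List.length_nil] <;> first | omega | simp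

variable {V : Type} [AddCommGroup V] [Module R V]

/-- Fox Jacobian of a word. -/
noncomputable def row (f : Lab → V) : List (Lab × Bool) → V
  | [] => 0
  | (y, true) :: l => f y + (T 1 : R) • row f l
  | (y, false) :: l => (T (-1) : R) • (row f l - f y)

theorem row_pre (f : Lab → V) (b : Bool) (r : List (Lab × Bool)) :
    row f (r.map fun p => (b :: p.1, p.2)) = row (fun y => f (b :: y)) r := by
  induction r with
  | nil => rfl
  | cons p r ih => obtain ⟨y, _ | _⟩ := p <;> simp only [List.map_cons, row, ih]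

theorem rows_pre (f : Lab → V) (b : Bool) (l : List (List (Lab × Bool))) :
    (preRels b l).map (row f) = l.map (row fun y => f (b :: y)) := by
  simp only [preRels, List.map_map]
  exact List.map_congr_left fun r _ => row_pre f b r

theorem row_glue (f : Lab → V) (x y : Lab) : row f (glue x y) = f x - f y := by
  simp only [glue, row, smul_smul, qp]; module

theorem wedge_glue (f : Lab → V) (x y z w : Lab) :
    wedge ([glue x y, glue z w].map (row f)) =
      (ι R (f x) - ι R (f y)) * (ι R (f z) - ι R (f w)) := by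
  simp [wedge, row_glue]

/-- Product of the rows. -/
noncomputable def Om (f : Lab → V) {n : ℕ} (D : Dg n) := wedge (D.rels.map (row f))

/-- Product of the generators. -/
noncomputable def Vol (f : Lab → V) {n : ℕ} (D : Dg n) := wedge (D.arcs.map f)

theorem om_cen (f : Lab → V) {n : ℕ} (D : Dg n) (y : ExteriorAlgebra R V) :
    y * Om f D = Om f D * y :=
  wedge_cen (by rw [List.length_map]; exact even_iff_two_dvd.2 (rels_length D).2) y

theorem sys2_of (f : Lab → V) {n : ℕ} (D : Dg n) {h : Lab → R}
    (H : ∀ i ∈ D.arcs, ∀ j ∈ D.arcs, Om f D * ι R (f i) * ι R (f j) = (h j - h i) • Vol f D) :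
    Sys2 (fun i => ι R (f i)) D.arcs (Om f D) (Vol f D) h :=
  ⟨om_cen f D, H, fun _ hi => wedge_io_mem (List.mem_map_of_mem hi),
    fun _ hi => io_wedge_mem (List.mem_map_of_mem hi)⟩

theorem sys3_of (f : Lab → V) {n : ℕ} (D : Dg n) {g : Lab → Lab → R}
    (H : ∀ i ∈ D.arcs, ∀ j ∈ D.arcs, ∀ k ∈ D.arcs,
      Om f D * ι R (f i) * ι R (f j) * ι R (f k) = (g j k - g i k + g i j) • Vol f D)
    (a : ∀ x y, g x y = - g y x) :
    Sys3 (fun i => ι R (f i)) D.arcs (Om f D) (Vol f D) g :=
  ⟨om_cen f D, H, fun _ hi => wedge_io_mem (List.mem_map_of_mem hi),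
    fun _ hi => io_wedge_mem (List.mem_map_of_mem hi), a⟩

theorem sys_cross (f : Lab → V) (s o u : Bool) :
    ∀ i ∈ (Dg.cross s o u).arcs, ∀ j ∈ (Dg.cross s o u).arcs,
      Om f (Dg.cross s o u) * ι R (f i) * ι R (f j) =
        (xg s o j - xg s o i) • Vol f (Dg.cross s o u) := by
  let k : Fin 4 → Lab := ![[true, s], [false, !s], [o != s, o], [o == s, !o]]
  have key := fun i j => glue_cross (T 1) (fun i => ι R (f (k i)))
    (o := ι R (f (k 0))) (p := ι R (f (k 1))) (r := ι R (f (k 2))) (l := ι R (f (k 3)))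
    (by ext1 i; fin_cases i <;> rfl) (fun _ _ _ => io_anti _ _ _) (fun _ _ => io_sq _ _) i j 1
  have e1 : Om f (Dg.cross s o u) = (ι R (f (k 0)) - ι R (f (k 1))) *
      ((1 - T 1 : R) • ι R (f (k 0)) + (T 1 : R) • ι R (f (k 2)) - ι R (f (k 3))) := by
    simp only [Om, Dg.rels, List.map_cons, List.map_nil, row_glue, wedge_cons, wedge_nil, mul_one,
      map_sub]
    congr 1
    simp only [row, ← map_smul, ← map_add, ← map_sub]
    congr 1
    have h1 : ∀ z : V, (T 1 : R) • (T (-1) : R) • z = z := fun z => by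
      rw [smul_smul, qp, one_smul]
    simp only [smul_sub, smul_add, smul_zero, h1, k, Matrix.cons_val]
    module
  have e2 : ∀ z : ExteriorAlgebra R V, ι R (f (k 0)) * ι R (f (k 1)) * ι R (f (k 2)) * ι R (f (k 3)) * z =
      (if o = s then -1 else 1 : R) • (Vol f (Dg.cross s o u) * z) := by
    intro z
    rw [mul_assoc, mul_assoc, mul_assoc]
    have a1 := fun r => io_anti (f [true, true]) (f [true, false]) r
    have a2 := fun r => io_anti (f [false, false]) (f [true, false]) r
    have a3 := fun r => io_anti (f [false, true]) (f [true, false]) r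
    have a4 := fun r => io_anti (f [false, false]) (f [true, true]) r
    have a5 := fun r => io_anti (f [false, true]) (f [true, true]) r
    have a6 := fun r => io_anti (f [false, true]) (f [false, false]) r
    cases s <;> cases o <;>
      simp only [Vol, Dg.arcs, List.map_cons, List.map_nil, wedge_cons, wedge_nil, k,
        Matrix.cons_val, mul_assoc, Bool.not_true, Bool.not_false, bne_self_eq_false,
        Bool.bne_true, Bool.bne_false, BEq.rfl, Bool.true_beq, Bool.false_beq, a1, a2, a3, a4, a5,
        a6, mul_neg, neg_neg, one_mul] <;> simp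
  have e3 : ∀ x ∈ (Dg.cross s o u).arcs, ∃ i, x = k i ∧ xg s o x =
      (if o = s then -1 else 1 : R) * (![0, 0, -1, - T 1] : Fin 4 → R) i := by
    intro x hx
    simp only [Dg.arcs, List.mem_cons, List.not_mem_nil, or_false] at hx
    cases s <;> cases o <;> rcases hx with rfl | rfl | rfl | rfl <;>
      first
      | exact ⟨0, rfl, by simp [xg]⟩
      | exact ⟨1, rfl, by simp [xg]⟩
      | exact ⟨2, rfl, by simp [xg]⟩
      | exact ⟨3, rfl, by simp [xg]⟩
  intro x hx y hy
  obtain ⟨i, rfl, a1⟩ := e3 x hx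
  obtain ⟨j, rfl, a2⟩ := e3 y hy
  have := key i j
  rw [mul_one, e2, smul_smul, mul_one] at this
  rw [e1, this, a1, a2]
  congr 1; ring

theorem sys_nil (f : Lab → V) (s : Bool) (d : ℕ → Bool) :
    ∀ i ∈ (Dg.nil s d).arcs, ∀ j ∈ (Dg.nil s d).arcs, ∀ k ∈ (Dg.nil s d).arcs,
      Om f (Dg.nil s d) * ι R (f i) * ι R (f j) * ι R (f k) =
        (gg (Dg.nil s d) j k - gg (Dg.nil s d) i k + gg (Dg.nil s d) i j) • Vol f (Dg.nil s d) := by
  intro i hi j hj k hk
  have a1 := fun r => io_anti (f [true]) (f []) r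
  have a2 := fun r => io_anti (f [true, true]) (f []) r
  have a3 := fun r => io_anti (f [true, true]) (f [true]) r
  rw [← mul_one (ι R (f k))]
  simp only [Dg.arcs, List.mem_cons, List.not_mem_nil, or_false] at hi hj hk
  rcases hi with rfl | rfl | rfl <;> rcases hj with rfl | rfl | rfl <;>
    rcases hk with rfl | rfl | rfl <;>
    simp only [Om, Vol, Dg.arcs, Dg.rels, List.map_cons, List.map_nil, wedge_cons, wedge_nil,
      one_mul, mul_assoc, a1, a2, a3, io_sq, mul_neg, neg_neg, mul_zero, neg_zero] <;>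
    simp [gg]

theorem sys {n : ℕ} (D : Dg n) : ∀ f : Lab → V,
    (n = 2 → Sys2 (fun i => ι R (f i)) D.arcs (Om f D) (Vol f D) (gg D [])) ∧
    (n = 3 → Sys3 (fun i => ι R (f i)) D.arcs (Om f D) (Vol f D) (gg D)) := by
  induction D with
  | cross s o u => exact fun f => ⟨fun _ => sys2_of f _ (sys_cross f s o u), by omega⟩
  | rot A ih => exact ih
  | comp A B ihA ihB =>
    refine fun f => ⟨fun _ => sys2_of f _ ?_, by omega⟩
    have := glue22 (X := fun i => ι R (f i)) (fun _ _ _ => io_anti _ _ _)
      ((ihA _).1 rfl) ((ihB _).1 rfl) (ends_mem A false 0 (by omega))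
      (ends_mem A false 1 (by omega)) (ends_mem B true 0 (by omega)) (ends_mem B true 1 (by omega))
    simpa only [Om, Vol, Dg.rels, Dg.arcs, List.map_append, wedge_append, rows_pre, wedge_glue,
      List.map_map, gg, Function.comp_def] using this
  | nil s d =>
    exact fun f => ⟨by omega, fun _ => sys3_of f _ (sys_nil f s d) fun x y => by simp [gg]⟩
  | left A W ihA ihW =>
    refine fun f => ⟨by omega, fun _ => sys3_of f _ ?_ (lg_anti ((ihW f).2 rfl).anti _ _ _ _)⟩
    have := glue23 (X := fun i => ι R (f i)) (fun _ _ _ => io_anti _ _ _)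
      ((ihA _).1 rfl) ((ihW _).2 rfl) (ends_mem A true 0 (by omega))
      (ends_mem A true 1 (by omega)) (ends_mem W false 0 (by omega))
      (ends_mem W false 1 (by omega))
    simpa only [Om, Vol, Dg.rels, Dg.arcs, List.map_append, wedge_append, rows_pre, wedge_glue,
      List.map_map, gg, Function.comp_def] using this
  | right A W ihA ihW =>
    refine fun f => ⟨by omega, fun _ => sys3_of f _ ?_ (lg_anti ((ihW f).2 rfl).anti _ _ _ _)⟩
    have := glue23 (X := fun i => ι R (f i)) (fun _ _ _ => io_anti _ _ _)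
      ((ihA _).1 rfl) ((ihW _).2 rfl) (ends_mem A true 0 (by omega))
      (ends_mem A true 1 (by omega)) (ends_mem W false 1 (by omega))
      (ends_mem W false 2 (by omega))
    simpa only [Om, Vol, Dg.rels, Dg.arcs, List.map_append, wedge_append, rows_pre, wedge_glue,
      List.map_map, gg, Function.comp_def] using this
  | close W ih =>
    refine fun f => ⟨fun _ => sys2_of f _ ?_, by omega⟩
    have := glue31 (X := fun i => ι R (f i)) (fun _ _ _ => io_anti _ _ _) (fun _ => io_sq _ _)
      ((ih _).2 rfl) (ends_mem W true 2 (by omega)) (ends_mem W false 2 (by omega))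
    simpa only [Om, Vol, Dg.rels, Dg.arcs, List.map_append, wedge_append, rows_pre, wedge_glue,
      List.map_map, gg, List.map_cons (f := f), wedge_cons, Function.comp_def] using this

end Pool.Agent.Lib.MP_bb8a0f_gt
end

-- part Pool.Agent.Lib.MP_bb8a0f_gt.Bnd
section

/-! The boundary relation. -/

namespace Pool.Agent.Lib.MP_bb8a0f_gt

open LaurentPolynomial ExteriorAlgebra

variable {V : Type} [AddCommGroup V] [Module R V]

/-- Exponent sum of a word. -/
def dW : List (Lab × Bool) → ℤ
  | [] => 0
  | (_, true) :: l => 1 + dW l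
  | (_, false) :: l => -1 + dW l

theorem dW_append (u v : List (Lab × Bool)) : dW (u ++ v) = dW u + dW v := by
  induction u with
  | nil => simp [dW]
  | cons x u ih => obtain ⟨i, b⟩ := x; cases b <;> simp [dW, ih, add_assoc]

theorem row_append (f : Lab → V) (u v : List (Lab × Bool)) :
    row f (u ++ v) = row f u + (T (dW u) : R) • row f v := by
  induction u with
  | nil => simp [row, dW]
  | cons x u ih =>
    obtain ⟨i, b⟩ := x
    cases b <;> simp only [List.cons_append, row, dW, ih, T_add, mul_smul] <;> module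

/-- Words with the same image modulo a submodule. -/
def Eqv (S : Submodule R V) (f : Lab → V) (u v : List (Lab × Bool)) : Prop :=
  dW u = dW v ∧ row f u - row f v ∈ S

section

variable {S : Submodule R V} {f : Lab → V}

theorem Eqv.rfl' (u : List (Lab × Bool)) : Eqv S f u u := ⟨rfl, by simp⟩

theorem Eqv.symm {u v : List (Lab × Bool)} (h : Eqv S f u v) : Eqv S f v u :=
  ⟨h.1.symm, by simpa using S.neg_mem h.2⟩

theorem Eqv.trans {u v w : List (Lab × Bool)} (h : Eqv S f u v) (h' : Eqv S f v w) :
    Eqv S f u w := ⟨h.1.trans h'.1, by simpa using S.add_mem h.2 h'.2⟩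

theorem Eqv.append {u v u' v' : List (Lab × Bool)} (h : Eqv S f u v) (h' : Eqv S f u' v') :
    Eqv S f (u ++ u') (v ++ v') := by
  refine ⟨by rw [dW_append, dW_append, h.1, h'.1], ?_⟩
  rw [row_append, row_append, h.1]
  convert S.add_mem h.2 (S.smul_mem (T (dW v)) h'.2) using 1
  module

theorem Eqv.single {x y : Lab × Bool} (h : f x.1 - f y.1 ∈ S) (e : x.2 = y.2) :
    Eqv S f [x] [y] := by
  obtain ⟨x, a⟩ := x
  obtain ⟨y, b⟩ := y
  cases e
  cases a
  · refine ⟨rfl, ?_⟩
    convert S.smul_mem (- T (-1)) h using 1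
    simp only [row]; module
  · exact ⟨rfl, by simpa [row] using h⟩

theorem Eqv.inv (x : Lab) (e : Bool) : Eqv S f [(x, e), (x, !e)] [] := by
  have h := qp
  cases e
  · exact ⟨rfl, by simp [row]⟩
  · exact ⟨rfl, by simp [row, smul_smul, h]⟩

theorem Eqv.turn {x y z w : Lab} {a b c d : Bool} (h : Eqv S f [(x, a), (y, b)] [(z, c), (w, d)]) :
    Eqv S f [(y, b), (w, !d)] [(x, !a), (z, c)] := by
  have h1 := (Eqv.inv (S := S) (f := f) x (!a)).append (Eqv.rfl' [(y, b), (w, !d)])
  have h2 := (Eqv.rfl' [(x, !a)]).append (h.append (Eqv.rfl' [(w, !d)]))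
  have h3 := (Eqv.rfl' [(x, !a), (z, c)]).append (Eqv.inv (S := S) (f := f) w d)
  rw [Bool.not_not] at h1
  exact h1.symm.trans (h2.trans h3)

theorem Eqv.cancel {u v : List (Lab × Bool)} {x y : Lab × Bool} (h : Eqv S f (u ++ [x]) (v ++ [y]))
    (h' : Eqv S f [x] [y]) : Eqv S f u v := by
  have e : dW u = dW v := by
    have := h.1
    rw [dW_append, dW_append, h'.1] at this; omega
  refine ⟨e, ?_⟩
  have := h.2
  rw [row_append, row_append, e] at this
  convert S.sub_mem this (S.smul_mem (T (dW v)) h'.2) using 1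
  module

theorem Eqv.pre {S' : Submodule R V} {b : Bool} {u v : List (Lab × Bool)}
    (h : Eqv S' (fun y => f (b :: y)) u v) (hS : S' ≤ S) :
    Eqv S f (u.map fun p => (b :: p.1, p.2)) (v.map fun p => (b :: p.1, p.2)) := by
  have e : ∀ u : List (Lab × Bool), dW (u.map fun p => (b :: p.1, p.2)) = dW u := fun u => by
    induction u with
    | nil => rfl
    | cons p u ih => obtain ⟨y, _ | _⟩ := p <;> simp only [List.map_cons, dW, ih]
  exact ⟨by rw [e, e, h.1], by rw [row_pre, row_pre]; exact hS h.2⟩

end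

/-- The span of the rows. -/
noncomputable def SP (f : Lab → V) {n : ℕ} (D : Dg n) : Submodule R V :=
  Submodule.span R {y | y ∈ D.rels.map (row f)}

/-- The meridian at an end, with its upward exponent. -/
def lw {n : ℕ} (D : Dg n) (t : Bool) (i : ℕ) : Lab × Bool :=
  ((D.ends t i).arc, (D.ends t i).out == t)

theorem End.Match.up {x y : End} (h : x.Match y) : (x.out == false) = (y.out == true) := by
  have := h.2; revert this; cases x.out <;> cases y.out <;> simp

theorem sp_le (f : Lab → V) (b : Bool) {n m : ℕ} (A : Dg n) (D : Dg m)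
    (h : preRels b A.rels ⊆ D.rels) : SP (fun y => f (b :: y)) A ≤ SP f D := by
  refine Submodule.span_mono fun y hy => ?_
  rw [Set.mem_ofPred, ← rows_pre] at hy
  exact List.map_subset _ h hy

theorem sp_glue (f : Lab → V) {n : ℕ} (D : Dg n) {x y : Lab} (h : glue x y ∈ D.rels) :
    f x - f y ∈ SP f D := by
  rw [← row_glue]; exact Submodule.subset_span (List.mem_map_of_mem h)

theorem bnd {n : ℕ} (D : Dg n) (h : D.Ok) : ∀ f : Lab → V,
    (n = 2 → Eqv (SP f D) f [lw D true 0, lw D true 1] [lw D false 0, lw D false 1]) ∧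
    (n = 3 → Eqv (SP f D) f [lw D true 0, lw D true 1, lw D true 2]
      [lw D false 0, lw D false 1, lw D false 2]) := by
  induction D with
  | cross s o u =>
    refine fun f => ⟨fun _ => ?_, by omega⟩
    have a1 := sp_glue f (Dg.cross s o u) (x := [true, s]) (y := [false, !s]) (by simp [Dg.rels])
    have a2 : (1 - T 1 : R) • f [true, s] + (T 1 : R) • f [o != s, o] - f [o == s, !o] ∈
        SP f (Dg.cross s o u) := by
      have : row f [([true, s], true), ([o != s, o], true), ([true, s], false),
        ([o == s, !o], false)] ∈ SP f (Dg.cross s o u) :=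
        Submodule.subset_span (List.mem_map_of_mem (by simp [Dg.rels]))
      convert this using 1
      have h1 : ∀ z : V, (T 1 : R) • (T (-1) : R) • z = z := fun z => by
        rw [smul_smul, qp, one_smul]
      simp only [row, smul_sub, smul_add, smul_zero, h1]
      module
    have key : ∀ (z : V) (a b : R), z = a • (f [true, s] - f [false, !s]) +
        b • ((1 - T 1 : R) • f [true, s] + (T 1 : R) • f [o != s, o] - f [o == s, !o]) →
        z ∈ SP f (Dg.cross s o u) := fun z a b e =>
      e ▸ Submodule.add_mem _ (Submodule.smul_mem _ _ a1) (Submodule.smul_mem _ _ a2)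
    have hq := qp
    cases s <;> cases o <;> cases u <;> refine ⟨rfl, ?_⟩
    · refine key _ (- T (-1) * T (-1)) (T (-1) * T (-1)) ?_
      clear key a1 a2
      simp [lw, Dg.ends, row]; match_scalars <;> grind
    · refine key _ (-1) (- T (-1)) ?_
      clear key a1 a2
      simp [lw, Dg.ends, row]; match_scalars <;> grind
    · refine key _ (T (-1)) (- T (-1)) ?_
      clear key a1 a2
      simp [lw, Dg.ends, row]; match_scalars <;> grind
    · refine key _ (T 1) 1 ?_
      clear key a1 a2
      simp [lw, Dg.ends, row]; match_scalars <;> grind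
    · refine key _ (- T (-1)) (- T (-1) * T (-1)) ?_
      clear key a1 a2
      simp [lw, Dg.ends, row]; match_scalars <;> grind
    · refine key _ (- T (-1)) (T (-1)) ?_
      clear key a1 a2
      simp [lw, Dg.ends, row]; match_scalars <;> grind
    · refine key _ 1 (T (-1)) ?_
      clear key a1 a2
      simp [lw, Dg.ends, row]; match_scalars <;> grind
    · refine key _ 1 (-1) ?_
      clear key a1 a2
      simp [lw, Dg.ends, row]; match_scalars <;> grind
  | rot A ih =>
    refine fun f => ⟨fun _ => ?_, by omega⟩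
    have := ((ih h f).1 rfl).turn
    change Eqv (SP f A) f _ _
    simpa [lw, Dg.ends] using this
  | comp A B ihA ihB =>
    refine fun f => ⟨fun _ => ?_, by omega⟩
    obtain ⟨h1, h2, h3, h4⟩ := h
    have a1 := ((ihA h1 _).1 rfl).pre (sp_le f false A (A.comp B) (by simp [Dg.rels]))
    have a2 := ((ihB h2 _).1 rfl).pre (sp_le f true B (A.comp B) (by simp [Dg.rels]))
    refine a1.trans (Eqv.trans (Eqv.append (u := [_]) (v := [_]) ?_ ?_) a2)
    · exact Eqv.single (sp_glue f _ (by simp [Dg.rels, lw])) h3.up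
    · exact Eqv.single (sp_glue f _ (by simp [Dg.rels, lw])) h4.up
  | nil s d => exact fun f => ⟨by omega, fun _ => by simpa [lw, Dg.ends] using Eqv.rfl' _⟩
  | left A W ihA ihW =>
    refine fun f => ⟨by omega, fun _ => ?_⟩
    obtain ⟨h1, h2, h3, h4⟩ := h
    have a1 := ((ihA h1 _).1 rfl).pre (sp_le f false A (A.left W) (by simp [Dg.rels]))
    have a2 := ((ihW h2 _).2 rfl).pre (sp_le f true W (A.left W) (by simp [Dg.rels]))
    refine a2.trans (Eqv.append (u := [_, _]) (v := [_, _]) (Eqv.trans
      (Eqv.append (u := [_]) (v := [_]) ?_ ?_) a1) (Eqv.rfl' _))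
    · exact Eqv.single (sp_glue f _ (by simp [Dg.rels, lw])) h3.up
    · exact Eqv.single (sp_glue f _ (by simp [Dg.rels, lw])) h4.up
  | right A W ihA ihW =>
    refine fun f => ⟨by omega, fun _ => ?_⟩
    obtain ⟨h1, h2, h3, h4⟩ := h
    have a1 := ((ihA h1 _).1 rfl).pre (sp_le f false A (A.right W) (by simp [Dg.rels]))
    have a2 := ((ihW h2 _).2 rfl).pre (sp_le f true W (A.right W) (by simp [Dg.rels]))
    refine a2.trans (Eqv.append (u := [_]) (v := [_]) (Eqv.rfl' _) (Eqv.trans
      (Eqv.append (u := [_]) (v := [_]) ?_ ?_) a1))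
    · exact Eqv.single (sp_glue f _ (by simp [Dg.rels, lw])) h3.up
    · exact Eqv.single (sp_glue f _ (by simp [Dg.rels, lw])) h4.up
  | close W ih =>
    refine fun f => ⟨fun _ => ?_, by omega⟩
    obtain ⟨h1, -, -, h4⟩ := h
    have a2 := ((ih h1 _).2 rfl).pre (sp_le f true W W.close (by simp [Dg.rels]))
    refine Eqv.cancel (u := [_, _]) (v := [_, _]) a2 (Eqv.single ?_ ?_)
    · have b1 := sp_glue f W.close (x := true :: (W.ends true 2).arc) (y := []) (by simp [Dg.rels])
      have b2 := sp_glue f W.close (x := true :: (W.ends false 2).arc) (y := []) (by simp [Dg.rels])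
      simpa [lw] using Submodule.sub_mem _ b1 b2
    · have := h4.2
      revert this
      simp only [lw]
      cases (W.ends true 2).out <;> cases (W.ends false 2).out <;> simp

end Pool.Agent.Lib.MP_bb8a0f_gt
end
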