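import Pool.Agent.Lib.MP_bb8a0f_gt.Main

-- part Pool.Agent.Lib.MP_bb8a0f_gt.Cone2
section

/-! Trapezoidal Laurent polynomials and the cone of parallel tangle invariants. -/

namespace Pool.Agent.Lib.MP_bb8a0f_gt

open LaurentPolynomial

theorem Tr.add_same {N : ℤ} {D D' : ℤ → ℤ} (h : Tr N D) (h' : Tr N D') :
    Tr N (fun k => D k + D' k) where
  pos := h.pos
  odd k := by rw [h.odd, h'.odd]; ring
  nonneg k hk := add_nonneg (h.nonneg k hk) (h'.nonneg k hk)
  top := add_pos h.top h'.top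
  above k hk := by rw [h.above k hk, h'.above k hk]; rfl
  par k hk := by rw [h.par k hk, h'.par k hk]; rfl
  itv k hk h1 h2 := by
    have a1 := h.nonneg (k + 2) (by omega)
    have a2 := h'.nonneg (k + 2) (by omega)
    by_cases c : 0 < D k
    · have := h.itv k hk c h2; omega
    · have c' : 0 < D' k := by have := h.nonneg k hk; omega
      have := h'.itv k hk c' h2; omega

/-- `q + q⁻¹`. -/
noncomputable def tw : R := T 1 + T (-1)

theorem bar_tw : bar tw = tw := by simp [tw, add_comm]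

/-- Coefficients of `(q - q⁻¹) f`. -/
noncomputable def dz (f : R) (k : ℤ) : ℤ := (zz * f).coeff k

theorem dz_add (f g : R) : dz (f + g) = fun k => dz f k + dz g k := by
  ext k; simp only [dz, mul_add, AddMonoidAlgebra.coeff_add, Finsupp.coe_add, Pi.add_apply]

theorem dz_sub (f g : R) (k : ℤ) : dz (f - g) k = dz f k - dz g k := by
  simp only [dz, mul_sub, AddMonoidAlgebra.coeff_sub, Finsupp.coe_sub, Pi.sub_apply]

theorem dz_zero (k : ℤ) : dz 0 k = 0 := by simp [dz]

theorem dz_cast (m : ℤ) (f : R) (k : ℤ) : dz ((m : R) * f) k = m * dz f k := by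
  rw [dz, mul_left_comm, ← zsmul_eq_mul, AddMonoidAlgebra.coeff_smul]; rfl

theorem dz_eq_asym {f : R} (h : bar f = f) : dz f = asym (T 1 * f) := by
  ext k; rw [dz, asym, map_mul, h, bar_T, zz, sub_mul]

theorem dz_inj {f g : R} (h : ∀ k, dz f k = dz g k) : f = g := by
  apply mul_left_cancel₀ zz_ne
  ext k; exact h k

theorem zz_qn (l : ℕ) : zz * qn l = T l - T (-l) := by
  induction l with
  | zero => simp [qn]
  | succ l ih =>
    rw [qn_succ, mul_add, mul_left_comm, ih, zz]
    push_cast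
    rw [neg_add, T_add, T_add]
    ring

theorem dz_qn (l : ℕ) (k : ℤ) :
    dz (qn l) k = (if (l : ℤ) = k then 1 else 0) - if -(l : ℤ) = k then 1 else 0 := by
  rw [dz, zz_qn, AddMonoidAlgebra.coeff_sub, Finsupp.coe_sub, Pi.sub_apply, T_apply, T_apply]

theorem qn_zero : qn 0 = 0 := by simp [qn]

theorem qn_one : qn 1 = 1 := by simp [qn]

theorem qn_rec (l : ℕ) : qn (l + 2) = tw * qn (l + 1) - qn l := by
  apply mul_left_cancel₀ zz_ne
  rw [mul_sub, mul_left_comm, zz_qn, zz_qn, zz_qn, tw]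
  push_cast
  rw [show (l : ℤ) + 2 = l + 1 + 1 by ring]
  simp only [neg_add, T_add]
  linear_combination (- T (l : ℤ) + T (-l : ℤ)) * qp

/-- Symmetric Laurent polynomials with trapezoidal coefficients and top degree `n`. -/
def Trap (n : ℤ) (f : R) : Prop := bar f = f ∧ Tr (n + 1) (dz f)

theorem Trap.nonneg {n : ℤ} {f : R} (h : Trap n f) : 0 ≤ n := by have := h.2.pos; omega

theorem Trap.add {n m : ℤ} {f g : R} (h : Trap n f) (h' : Trap m g) (e : m = n ∨ m = n - 2) :
    Trap n (f + g) := by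
  refine ⟨by rw [map_add, h.1, h'.1], ?_⟩
  rw [dz_add]
  rcases e with rfl | rfl
  · exact h.2.add_same h'.2
  · exact h.2.add h'.2 (by ring)

theorem Trap.add' {n m : ℤ} {f g : R} (h : Trap m g) (h' : Trap n f) (e : m = n ∨ m = n - 2) :
    Trap n (g + f) := by rw [add_comm]; exact h'.add h e

theorem Trap.add0 {n : ℤ} {f g : R} (h : Trap n f)
    (h' : g = 0 ∨ Trap n g ∨ Trap (n - 2) g) : Trap n (f + g) := by
  rcases h' with rfl | h' | h'
  · simpa using h
  · exact h.add h' (Or.inl rfl)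
  · exact h.add h' (Or.inr rfl)

theorem Trap.cast {n m : ℤ} {f : R} (h : Trap n f) (e : n = m) : Trap m f := e ▸ h

theorem Trap.qn_mul {n : ℤ} {f : R} (h : Trap n f) {l : ℕ} (hl : 0 < l) :
    Trap (n + l - 1) (qn l * f) := by
  have hs : bar (qn l * f) = qn l * f := by rw [map_mul, bar_qn, h.1]
  refine ⟨hs, ?_⟩
  rw [dz_eq_asym hs, mul_left_comm, asym_qn, ← dz_eq_asym h.1]
  convert h.2.win hl using 1; ring

theorem trap_one : Trap 0 1 := by
  refine ⟨map_one _, ?_⟩
  rw [dz_eq_asym (map_one _), mul_one]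
  simpa using tr_T (p := 1) one_pos

theorem trap_qn {l : ℕ} (hl : 0 < l) : Trap (l - 1) (qn l) := by
  simpa using trap_one.qn_mul hl

theorem Trap.cast_mul {n : ℤ} {f : R} (h : Trap n f) {m : ℤ} (hm : 0 < m) :
    Trap n ((m : R) * f) := by
  refine ⟨by rw [map_mul, h.1, map_intCast], ?_⟩
  have e : dz ((m : R) * f) = fun k => m * dz f k := funext (dz_cast m f)
  rw [e]
  have t := h.2
  exact ⟨t.pos, fun k => by rw [t.odd]; ring, fun k hk => mul_nonneg hm.le (t.nonneg k hk),
    mul_pos hm t.top, fun k hk => by rw [t.above k hk, mul_zero],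
    fun k hk => by rw [t.par k hk, mul_zero],
    fun k hk h1 h2 => mul_pos hm (t.itv k hk ((mul_pos_iff_of_pos_left hm).1 h1) h2)⟩

theorem Tr.up {N : ℤ} {D : ℤ → ℤ} (t : Tr N D) (j : ℕ) :
    ∀ k, 0 < k → 0 < D k → k + 2 * j ≤ N → 0 < D (k + 2 * j) := by
  induction j with
  | zero => intro k _ h _; simpa using h
  | succ j ih =>
    intro k hk h1 h2
    have := t.itv _ (by omega) (ih k hk h1 (by push_cast at h2; omega)) (by push_cast at h2; omega)
    convert this using 2; push_cast; ring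

theorem Trap.peel {n : ℕ} {f : R} (h : Trap n f) :
    ∃ m : ℤ, 0 < m ∧ (f = m * qn (n + 1) ∨ Trap (n - 2) (f - m * qn (n + 1))) := by
  have t := h.2
  refine ⟨dz f (n + 1), t.top, ?_⟩
  have e : ∀ k, dz (f - (dz f (n + 1) : ℤ) * qn (n + 1)) k =
      if (n : ℤ) + 1 = k ∨ -((n : ℤ) + 1) = k then 0 else dz f k := by
    intro k
    rw [dz_sub, dz_cast, dz_qn]
    push_cast
    by_cases h1 : (n : ℤ) + 1 = k
    · subst h1; rw [if_pos rfl, if_neg (by omega), if_pos (Or.inl rfl)]; ring
    · by_cases h2 : -((n : ℤ) + 1) = k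
      · subst h2; rw [if_neg h1, if_pos rfl, if_pos (Or.inr rfl), t.odd]; ring
      · rw [if_neg h1, if_neg h2, if_neg (by tauto)]; ring
  by_cases c : 0 < (n : ℤ) - 1 ∧ 0 < dz f (n - 1)
  · right
    refine ⟨by rw [map_sub, map_mul, h.1, bar_qn, map_intCast], ?_⟩
    rw [funext e]
    refine ⟨by omega, fun k => ?_, fun k hk => ?_, ?_, fun k hk => ?_, fun k hk => ?_,
      fun k hk h1 h2 => ?_⟩
    · rw [t.odd]; split_ifs <;> omega
    · have := t.nonneg k hk; split_ifs <;> omega
    · rw [if_neg (by omega)]; convert c.2 using 2; ring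
    · split_ifs with h1
      · rfl
      · by_cases h3 : (n : ℤ) + 1 < k
        · exact t.above k h3
        · exact t.par k (by omega)
    · split_ifs with h1
      · rfl
      · exact t.par k (by omega)
    · rw [if_neg (by omega)] at h1 ⊢
      exact t.itv k hk h1 (by omega)
  · left
    rw [← sub_eq_zero]
    have key : ∀ k : ℤ, 0 < k → k ≠ n + 1 → dz f k = 0 := by
      intro k hk hne
      by_contra h0
      have h1 : 0 < dz f k := lt_of_le_of_ne (t.nonneg k hk) (Ne.symm h0)
      have h2 : ¬ (n : ℤ) + 1 < k := fun hh => h0 (t.above k hh)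
      have h3 : 2 ∣ k - (n + 1) := by by_contra hh; exact h0 (t.par k hh)
      have := t.up ((n - 1 - k) / 2).toNat k hk h1 (by omega)
      rw [show k + 2 * (((n - 1 - k) / 2).toNat : ℤ) = n - 1 by omega] at this
      exact c ⟨by omega, this⟩
    apply dz_inj
    intro k
    rw [e, dz_zero]
    split_ifs with h1
    · rfl
    · rcases lt_trichotomy k 0 with h2 | h2 | h2
      · have := key (-k) (by omega) (by omega)
        rw [t.odd] at this; omega
      · have := t.odd 0; subst h2; simp only [neg_zero] at this; omega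
      · exact key k h2 (by omega)

theorem Trap.mul {n m : ℤ} {f g : R} (h : Trap n f) (h' : Trap m g) : Trap (n + m) (f * g) := by
  obtain ⟨n, rfl⟩ := Int.eq_ofNat_of_zero_le h.nonneg
  induction n using Nat.strong_induction_on generalizing f with
  | _ n ih =>
  obtain ⟨c, hc, e⟩ := h.peel
  have a : Trap (n + m) ((c : R) * (qn (n + 1) * g)) :=
    ((h'.qn_mul (l := n + 1) (by omega)).cast_mul hc).cast (by push_cast; ring)
  rcases e with e | e
  · rw [e, mul_assoc]; exact a
  · have h0 := e.nonneg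
    have := ih (n - 2) (by omega) (e.cast (by omega))
    have := a.add this (Or.inr (by omega))
    convert this using 1; ring

theorem trap_sum (d : ℤ) (D : ℤ → ℤ) (X : ℕ → R) (N : ℕ) (h1 : 0 < D N) (hN : 0 < N)
    (h2 : ∀ j : ℕ, 0 < j → j ≤ N → ¬ 2 ∣ (j : ℤ) - N → D j = 0)
    (h3 : ∀ j : ℕ, 0 < j → 0 < D j → j + 2 ≤ N → 0 < D (j + 2))
    (h4 : ∀ j : ℕ, 0 < j → j ≤ N → (0 < D j → Trap (d + j) (X j)) ∧ (¬ 0 < D j → X j = 0)) :
    Trap (d + N) (∑ j ∈ Finset.range N, X (j + 1)) := by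
  induction N using Nat.strong_induction_on with
  | _ N ih =>
  obtain ⟨N, rfl⟩ : ∃ M, N = M + 1 := ⟨N - 1, by omega⟩
  have top := (h4 (N + 1) hN le_rfl).1 h1
  rw [Finset.sum_range_succ, add_comm _ (X (N + 1))]
  rcases Nat.eq_zero_or_pos N with rfl | hN0
  · simpa using top
  obtain ⟨N, rfl⟩ : ∃ M, N = M + 1 := ⟨N - 1, by omega⟩
  have z : X (N + 1) = 0 := (h4 (N + 1) (by omega) (by omega)).2 (by
    rw [h2 (N + 1) (by omega) (by omega) (by push_cast; omega)]; exact lt_irrefl _)
  rw [Finset.sum_range_succ, z, add_zero]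
  by_cases c : 0 < N ∧ 0 < D N
  · have := ih N (by omega) c.2 c.1 (fun j a b e => h2 j a (by omega) (by push_cast; omega))
      (fun j a b e => h3 j a b (by omega)) (fun j a b => h4 j a (by omega))
    exact top.add this (Or.inr (by push_cast; ring))
  · have key : ∀ i j : ℕ, 0 < j → j + i = N → ¬ 0 < D j := by
      intro i
      induction i using Nat.strong_induction_on with
      | _ i ih2 =>
      intro j hj e hp
      rcases i with _ | _ | i
      · exact c ⟨by omega, by rw [← e]; simpa using hp⟩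
      · rw [h2 j hj (by omega) (by push_cast; omega)] at hp; exact lt_irrefl _ hp
      · have := h3 j hj hp (by omega)
        exact ih2 i (by omega) (j + 2) (by omega) (by omega) (by exact_mod_cast this)
    rw [Finset.sum_eq_zero fun j hj => (h4 (j + 1) (by omega) (by
      rw [Finset.mem_range] at hj; omega)).2 (key (N - (j + 1)) (j + 1) (by omega) (by
      rw [Finset.mem_range] at hj; omega)), add_zero]
    exact top

theorem expandU {f : R} (h : bar f = f) (N : ℕ) (hN : ∀ k, (N : ℤ) < k → dz f k = 0) :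
    f = ∑ j ∈ Finset.range N, (dz f (j + 1 : ℕ) : R) * qn (j + 1) := by
  have odd : ∀ k, dz f (-k) = - dz f k := fun k => by
    rw [dz_eq_asym h, asym_eq, asym_eq, neg_neg]; ring
  apply dz_inj
  intro k
  have e : dz (∑ j ∈ Finset.range N, (dz f (j + 1 : ℕ) : R) * qn (j + 1)) k =
      ∑ j ∈ Finset.range N, dz f (j + 1 : ℕ) * dz (qn (j + 1)) k := by
    induction (Finset.range N) using Finset.induction_on with
    | empty => simp [dz_zero]
    | insert a s ha ih => rw [Finset.sum_insert ha, Finset.sum_insert ha, dz_add, ← ih, ← dz_cast]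
  rw [e]
  simp only [dz_qn]
  by_cases h1 : 0 < k ∧ k ≤ N
  · rw [Finset.sum_eq_single (k - 1).toNat (fun j _ hj => by
      rw [if_neg (by omega), if_neg (by omega)]; ring) (fun hc => (hc (by
      rw [Finset.mem_range]; omega)).elim), if_pos (by omega), if_neg (by omega),
      show (((k - 1).toNat + 1 : ℕ) : ℤ) = k by omega]
    ring
  · by_cases h2 : 0 < -k ∧ -k ≤ N
    · rw [Finset.sum_eq_single (-k - 1).toNat (fun j _ hj => by
        rw [if_neg (by omega), if_neg (by omega)]; ring) (fun hc => (hc (by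
        rw [Finset.mem_range]; omega)).elim), if_neg (by omega), if_pos (by omega),
        show (((-k - 1).toNat + 1 : ℕ) : ℤ) = -k by omega, odd]
      ring
    · rw [Finset.sum_eq_zero fun j hj => by
        rw [Finset.mem_range] at hj
        rw [if_neg (by omega), if_neg (by omega)]; ring]
      rcases lt_trichotomy k 0 with h3 | h3 | h3
      · have := hN (-k) (by omega); rw [odd] at this; omega
      · have := odd 0; subst h3; simp only [neg_zero] at this; omega
      · exact hN k (by omega)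

/-- The ring `ℤ[q + q⁻¹][ω]` with `ω² = (q + q⁻¹) ω - 1`, over all Laurent polynomials. -/
abbrev QA := QuadraticAlgebra R (-1) tw

/-- The generator. -/
noncomputable def om : QA := ⟨0, 1⟩

theorem om_re (x : QA) : (om * x).re = - x.im := by simp [om]

theorem om_im (x : QA) : (om * x).im = x.re + tw * x.im := by simp [om]

theorem om_pow (p : ℕ) : (om ^ (p + 1)).re = - qn p ∧ (om ^ (p + 1)).im = qn (p + 1) := by
  induction p with
  | zero => simp [om, qn_zero, qn_one]
  | succ p ih =>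
    rw [pow_succ' om (p + 1), om_re, om_im, ih.1, ih.2, qn_rec]
    exact ⟨rfl, by ring⟩

theorem om_pow_im (p : ℕ) : (om ^ p).im = qn p := by
  cases p with
  | zero => simp [qn_zero]; rfl
  | succ p => exact (om_pow p).2

/-- The linear functional with values `c₀`, `c₁` at `1`, `ω`. -/
noncomputable def ev (c₀ c₁ : R) (x : QA) : R := x.re * c₀ + x.im * c₁

theorem ev_mul (c₀ c₁ : R) (x y : QA) :
    ev c₀ c₁ (x * y) = ev (ev c₀ c₁ y) (ev c₀ c₁ (om * y)) x := by
  simp only [ev, om, QuadraticAlgebra.re_mul, QuadraticAlgebra.im_mul]; ring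

theorem ev_one (c₀ c₁ : R) : ev c₀ c₁ 1 = c₀ := by
  simp [ev, QuadraticAlgebra.re_one, QuadraticAlgebra.im_one]

theorem ev_om (c₀ c₁ : R) : ev c₀ c₁ om = c₁ := by simp [ev, om]

theorem ev_im (x : QA) : ev 0 1 x = x.im := by simp [ev]

/-- Admissible functionals. -/
def Adm (d : ℤ) (c₀ c₁ : R) : Prop :=
  (c₀ = 0 ∨ Trap d c₀) ∧ ∀ p : ℕ, Trap (d + p + 1) (ev c₀ c₁ (om ^ (p + 1)))

/-- The cone of parallel tangle invariants of top degree `n`. -/
def KK (n : ℤ) (x : QA) : Prop := ∀ d c₀ c₁, Adm d c₀ c₁ → Trap (d + n) (ev c₀ c₁ x)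

theorem kk_pow (p : ℕ) : KK (p + 1 : ℕ) (om ^ (p + 1)) :=
  fun _ _ _ h => (h.2 p).cast (by push_cast; ring)

theorem kk_om : KK 1 om := by simpa using kk_pow 0

theorem Adm.shift {d : ℤ} {c₀ c₁ : R} (h : Adm d c₀ c₁) (p : ℕ) :
    Adm (d + p + 1) (ev c₀ c₁ (om ^ (p + 1))) (ev c₀ c₁ (om * om ^ (p + 1))) := by
  refine ⟨Or.inr (h.2 p), fun r => ?_⟩
  rw [← ev_mul, ← pow_add]
  exact (h.2 (r + 1 + p)).cast (by push_cast; ring)

theorem KK.mul {n m : ℤ} {x y : QA} (h : KK n x) (h' : KK m y) : KK (n + m) (x * y) := by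
  intro d c₀ c₁ hA
  rw [ev_mul]
  refine (h (d + m) _ _ ⟨Or.inr (h' d _ _ hA), fun p => ?_⟩).cast (by ring)
  rw [← ev_mul, mul_comm, ev_mul]
  exact (h' _ _ _ (hA.shift p)).cast (by ring)

theorem KK.im {n : ℤ} {x : QA} (h : KK n x) : Trap (n - 1) x.im := by
  rw [← ev_im]
  refine (h (-1) 0 1 ⟨Or.inl rfl, fun p => ?_⟩).cast (by ring)
  rw [ev_im, om_pow_im]
  exact (trap_qn (l := p + 1) (by omega)).cast (by push_cast; ring)

theorem KK.cast {n m : ℤ} {x : QA} (h : KK n x) (e : n = m) : KK m x := e ▸ h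

theorem KK.smul_add {n t : ℤ} {x : QA} {a y : R} (h : KK n x) (ha : Trap t a)
    (hy : Trap (t + n) y ∨ Trap (t + n - 2) y) :
    KK (t + n) ⟨y + a * x.re, a * x.im⟩ := by
  intro d c₀ c₁ hA
  have e : ev c₀ c₁ ⟨y + a * x.re, a * x.im⟩ = a * ev c₀ c₁ x + y * c₀ := by
    simp only [ev]; ring
  rw [e]
  refine ((ha.mul (h d _ _ hA)).cast (by ring)).add0 ?_
  rcases hA.1 with h0 | h0
  · left; rw [h0, mul_zero]
  · right
    rcases hy with hy | hy
    · exact Or.inl ((hy.mul h0).cast (by ring))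
    · exact Or.inr ((hy.mul h0).cast (by ring))

theorem dz_qn_mul {u : R} (hu : bar u = u) (p : ℕ) : dz (u * qn p) 1 = dz u p := by
  have s : ∀ k, u.coeff (-k) = u.coeff k := fun k => by rw [← bar_coeff, hu]
  rw [dz, dz, mul_left_comm, zz_qn, zz, mul_comm u, sub_mul, sub_mul]
  simp only [AddMonoidAlgebra.coeff_sub, Finsupp.coe_sub, Pi.sub_apply, T_mul_coeff]
  rw [← s (1 - p), show (1 : ℤ) - -p = p - -1 by ring, neg_sub]

theorem KK.of_all {n : ℤ} {x : QA} (h : ∀ p : ℕ, Trap (n - 1 + p) (om ^ p * x).im) :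
    KK n x := by
  have h0 := h 0
  have h1 := h 1
  rw [pow_zero, one_mul, Nat.cast_zero, add_zero] at h0
  rw [pow_one, om_im] at h1
  obtain ⟨N, rfl⟩ : ∃ N : ℕ, n = N := ⟨n.toNat, by have := h0.nonneg; omega⟩
  have hN : 0 < N := by have := h0.nonneg; omega
  have t0 : Tr N (dz x.im) := by simpa using h0.2
  have t1 : Tr (N + 1) (dz (x.re + tw * x.im)) := by simpa using h1.2
  have sre : bar x.re = x.re := by
    have := h1.1
    rw [map_add, map_mul, bar_tw, h0.1] at this
    exact add_right_cancel this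
  set c : ℕ → ℤ := fun j => dz x.im (j + 1 : ℕ) with hc
  have eb := expandU h0.1 N t0.above
  set u : R := x.re + ∑ j ∈ Finset.range N, (c j : R) * qn j with hu
  have su : bar u = u := by
    rw [hu, map_add, sre, map_sum]
    simp only [map_mul, map_intCast, bar_qn]
  have ex : x = ⟨u, 0⟩ + ∑ j ∈ Finset.range N, (c j : QA) * om ^ (j + 1) := by
    have r1 : ∀ s : Finset ℕ, (∑ j ∈ s, (c j : QA) * om ^ (j + 1)).re =
        - ∑ j ∈ s, (c j : R) * qn j ∧ (∑ j ∈ s, (c j : QA) * om ^ (j + 1)).im =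
        ∑ j ∈ s, (c j : R) * qn (j + 1) := by
      intro s
      induction s using Finset.induction_on with
      | empty => simp
      | insert a s ha ih =>
        simp only [Finset.sum_insert ha, QuadraticAlgebra.re_add, QuadraticAlgebra.im_add, ih.1,
          ih.2, QuadraticAlgebra.re_mul, QuadraticAlgebra.im_mul, QuadraticAlgebra.re_intCast,
          QuadraticAlgebra.im_intCast, (om_pow a).1, (om_pow a).2]
        constructor <;> ring
    ext1
    · rw [QuadraticAlgebra.re_add, (r1 _).1, hu]; ring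
    · rw [QuadraticAlgebra.im_add, (r1 _).2, ← eb]; simp
  have evs : ∀ (c₀ c₁ : R), ev c₀ c₁ x =
      u * c₀ + ∑ j ∈ Finset.range N, (c j : R) * ev c₀ c₁ (om ^ (j + 1)) := by
    intro c₀ c₁
    have r1 : ∀ s : Finset ℕ, ev c₀ c₁ (∑ j ∈ s, (c j : QA) * om ^ (j + 1)) =
        ∑ j ∈ s, (c j : R) * ev c₀ c₁ (om ^ (j + 1)) := by
      intro s
      induction s using Finset.induction_on with
      | empty => simp [ev]
      | insert a s ha ih =>
        rw [Finset.sum_insert ha, Finset.sum_insert ha, ← ih]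
        simp only [ev, QuadraticAlgebra.re_add, QuadraticAlgebra.im_add, QuadraticAlgebra.re_mul,
          QuadraticAlgebra.im_mul, QuadraticAlgebra.re_intCast, QuadraticAlgebra.im_intCast]
        ring
    rw [← r1]
    conv_lhs => rw [ex]
    simp only [ev, QuadraticAlgebra.re_add, QuadraticAlgebra.im_add]
    ring
  have dzs : ∀ (p : ℕ) (k : ℤ), dz (om ^ p * x).im k =
      dz (u * qn p) k + ∑ j ∈ Finset.range N, c j * dz (qn (j + 1 + p)) k := by
    intro p k
    have r2 : ∀ s : Finset ℕ, dz (∑ j ∈ s, (c j : R) * qn (j + 1 + p)) k =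
        ∑ j ∈ s, c j * dz (qn (j + 1 + p)) k := by
      intro s
      induction s using Finset.induction_on with
      | empty => simp [dz_zero]
      | insert a s ha ih =>
        rw [Finset.sum_insert ha, Finset.sum_insert ha, dz_add, ← ih, ← dz_cast]
    rw [← ev_im, mul_comm, ev_mul, evs, ← r2]
    simp only [← ev_mul, ← pow_add]
    simp only [ev_im, om_pow_im, dz_add]
  have mpos : ∀ p : ℕ, 0 < p → 0 ≤ dz u p := by
    intro p hp
    have := (h p).2.nonneg 1 one_pos
    rw [dzs, dz_qn_mul su, Finset.sum_eq_zero fun j _ => by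
      rw [dz_qn, if_neg (by omega), if_neg (by omega)]; ring, add_zero] at this
    exact this
  have e1 : ∀ l : ℕ, dz (x.re + tw * x.im) (l + 1 : ℕ) =
      dz u (l + 1 : ℕ) + if l = 0 then 0 else dz x.im l := by
    intro l
    have := dzs 1 (l + 1 : ℕ)
    rw [pow_one, om_im, qn_one, mul_one] at this
    rw [this]
    congr 1
    simp only [dz_qn]
    split_ifs with hl
    · exact Finset.sum_eq_zero fun j _ => by rw [if_neg (by omega), if_neg (by omega)]; ring
    · by_cases h5 : l ≤ N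
      · rw [Finset.sum_eq_single (l - 1) (fun j _ hj => by
          rw [if_neg (by omega), if_neg (by omega)]; ring) (fun hh => (hh (by
          rw [Finset.mem_range]; omega)).elim), if_pos (by omega), if_neg (by omega), hc]
        simp only [show l - 1 + 1 = l by omega]; ring
      · rw [t0.above l (by omega)]
        exact Finset.sum_eq_zero fun j hj => by
          rw [Finset.mem_range] at hj
          rw [if_neg (by omega), if_neg (by omega)]; ring
  have cpos : ∀ l : ℕ, 0 ≤ if l = 0 then 0 else dz x.im l := fun l => by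
    split_ifs with hl
    · exact le_rfl
    · exact t0.nonneg l (by omega)
  intro d c₀ c₁ hA
  rw [evs]
  rcases hA.1 with z | z
  · rw [z, mul_zero, zero_add]
    refine trap_sum d (dz x.im) (fun j => (dz x.im j : R) * ev 0 c₁ (om ^ j)) N t0.top hN
      (fun j _ _ e => t0.par j e) (fun j a b e => t0.itv j (by omega) b (by omega))
      (fun j a b => ⟨fun e => ?_, fun e => ?_⟩)
    · obtain ⟨j, rfl⟩ : ∃ i, j = i + 1 := ⟨j - 1, by omega⟩
      have := hA.2 j
      rw [z] at this
      exact (this.cast_mul e).cast (by push_cast; ring)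
    · rw [le_antisymm (not_lt.1 e) (t0.nonneg j (by omega))]; simp
  · have eu := expandU su (N + 1) (fun k hk => by
      obtain ⟨l, rfl⟩ : ∃ l : ℕ, k = (l + 1 : ℕ) := ⟨(k - 1).toNat, by omega⟩
      have a1 := e1 l
      rw [t1.above _ (by omega), if_neg (by omega), t0.above _ (by omega)] at a1
      omega)
    have := trap_sum (d - 1) (dz (x.re + tw * x.im)) (fun j => (dz u j : R) * qn j * c₀ +
      ((if j - 1 = 0 then 0 else dz x.im (j - 1 : ℕ) : ℤ) : R) * ev c₀ c₁ (om ^ (j - 1))) (N + 1)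
      (by simpa using t1.top) (by omega)
      (fun j _ _ e => t1.par j (by simpa using e))
      (fun j a b e => t1.itv j (by omega) b (by omega))
      (fun j a b => by
        obtain ⟨l, rfl⟩ : ∃ i, j = i + 1 := ⟨j - 1, by omega⟩
        have a1 := e1 l
        have a2 := mpos (l + 1) (by omega)
        have a3 := cpos l
        simp only [Nat.add_sub_cancel]
        have b1 : 0 < dz u (l + 1 : ℕ) → Trap (d - 1 + (l + 1 : ℕ))
            ((dz u (l + 1 : ℕ) : R) * qn (l + 1) * c₀) := fun e => by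
          rw [mul_assoc]
          exact ((z.qn_mul (l := l + 1) (by omega)).cast_mul e).cast (by ring)
        have b2 : 0 < (if l = 0 then 0 else dz x.im l) → Trap (d - 1 + (l + 1 : ℕ))
            (((if l = 0 then 0 else dz x.im l : ℤ) : R) * ev c₀ c₁ (om ^ l)) := fun e => by
          obtain ⟨l, rfl⟩ : ∃ i, l = i + 1 := ⟨l - 1, by
            rcases Nat.eq_zero_or_pos l with h7 | h7
            · rw [if_pos h7] at e; omega
            · omega⟩
          exact ((hA.2 l).cast_mul e).cast (by push_cast; ring)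
        refine ⟨fun e => ?_, fun e => ?_⟩
        · by_cases g1 : 0 < dz u (l + 1 : ℕ)
          · by_cases g2 : 0 < (if l = 0 then 0 else dz x.im l)
            · exact (b1 g1).add (b2 g2) (Or.inl rfl)
            · rw [show (if l = 0 then 0 else dz x.im l) = 0 by omega]
              simpa using b1 g1
          · rw [show dz u (l + 1 : ℕ) = 0 by omega]
            simpa using b2 (by omega)
        · rw [show dz u (l + 1 : ℕ) = 0 by omega,
            show (if l = 0 then 0 else dz x.im l) = 0 by omega]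
          simp)
    rw [Finset.sum_add_distrib, ← Finset.sum_mul, ← eu, Finset.sum_range_succ'] at this
    simp only [Nat.add_sub_cancel, Nat.add_eq_zero_iff, one_ne_zero, and_false, if_false, if_true,
      Int.cast_zero, zero_mul, add_zero] at this
    exact this.cast (by push_cast; ring)

end Pool.Agent.Lib.MP_bb8a0f_gt
end

-- part Pool.Agent.Lib.MP_bb8a0f_gt.Tg
section

/-! Abstract invariants of oriented alternating two-string tangles. -/

namespace Pool.Agent.Lib.MP_bb8a0f_gt

open LaurentPolynomial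

/-- `q` or `q⁻¹`. -/
noncomputable def tq : Bool → R
  | true => T 1
  | false => T (-1)

theorem tq_mul (e : Bool) : tq e * tq (!e) = 1 := by
  cases e
  · exact (mul_comm _ _).trans qp
  · exact qp

theorem tq_add (e : Bool) : tq e + tq (!e) = tw := by
  cases e
  · exact add_comm _ _
  · rfl

theorem KK.smul {n t : ℤ} {x : QA} {a : R} (h : KK n x) (ha : Trap t a) :
    KK (t + n) ⟨a * x.re, a * x.im⟩ := by
  intro d c₀ c₁ hA
  have e : ev c₀ c₁ ⟨a * x.re, a * x.im⟩ = a * ev c₀ c₁ x := by simp only [ev]; ring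
  rw [e]
  exact (ha.mul (h d _ _ hA)).cast (by ring)

/-- The four kinds of tangle data. -/
inductive Tg where
  | pv (a : Bool) (x : QA) (n : ℤ)
  | ph (a : Bool) (x : QA) (n : ℤ)
  | dv (a : Bool) (x y : R) (n : ℤ)
  | dh (a : Bool) (x y : R) (n : ℤ)

namespace Tg

/-- Direction at the upper left end. -/
def a : Tg → Bool
  | pv a _ _ => a
  | ph a _ _ => a
  | dv a _ _ _ => a
  | dh a _ _ _ => a

/-- Direction at the upper right end. -/
def b : Tg → Bool
  | pv a _ _ => a
  | ph a _ _ => !a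
  | dv a _ _ _ => !a
  | dh a _ _ _ => !a

/-- Direction at the lower left end. -/
def c : Tg → Bool
  | pv a _ _ => a
  | ph a _ _ => !a
  | dv a _ _ _ => a
  | dh a _ _ _ => a

/-- Direction at the lower right end. -/
def d : Tg → Bool
  | pv a _ _ => a
  | ph a _ _ => a
  | dv a _ _ _ => !a
  | dh a _ _ _ => !a

/-- North amplitude. -/
noncomputable def N (s : Bool) : Tg → R
  | pv a x _ => x.re + x.im * tq (a == s)
  | ph _ x _ => x.im
  | dv _ x _ _ => x
  | dh _ x _ _ => x

/-- South amplitude. -/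
noncomputable def S (s : Bool) : Tg → R
  | pv a x _ => x.re + x.im * tq (!(a == s))
  | ph _ x _ => x.im
  | dv _ x _ _ => x
  | dh _ x _ _ => x

/-- West amplitude. -/
noncomputable def W (s : Bool) : Tg → R
  | pv _ x _ => x.im
  | ph a x _ => x.re + x.im * tq (!(a == s))
  | dv _ _ y _ => y
  | dh _ _ y _ => y

/-- East amplitude. -/
noncomputable def E (s : Bool) : Tg → R
  | pv _ x _ => x.im
  | ph a x _ => x.re + x.im * tq (a == s)
  | dv _ _ y _ => y
  | dh _ _ y _ => y

/-- The Seifert smoothing is vertical. -/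
def sm : Tg → Bool
  | pv _ _ _ => true
  | ph _ _ _ => false
  | dv _ _ _ _ => true
  | dh _ _ _ _ => false

/-- Crossings minus closed Seifert circles. -/
def n : Tg → ℤ
  | pv _ _ n => n
  | ph _ _ n => n
  | dv _ _ _ n => n
  | dh _ _ _ n => n

/-- Ends alternately in and out. -/
def dd : Tg → Bool
  | pv _ _ _ => false
  | ph _ _ _ => false
  | dv _ _ _ _ => true
  | dh _ _ _ _ => true

/-- The positivity condition. -/
def Good : Tg → Prop
  | pv _ x n => KK n x
  | ph _ x n => KK n x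
  | dv _ x y n => Trap n x ∧ Trap (n - 1) y
  | dh _ x y n => Trap (n - 1) x ∧ Trap n y

/-- Quarter turn. -/
def rot : Tg → Tg
  | pv a x n => ph a x n
  | ph a x n => pv (!a) x n
  | dv a x y n => dh (!a) y x n
  | dh a x y n => dv (!a) y x n

/-- Reflection together with reversal. -/
def flip : Tg → Tg
  | pv a x n => pv (!a) x n
  | t => t

/-- Connected sum with a link. -/
noncomputable def smul (k : ℤ) (z : R) : Tg → Tg
  | pv a x n => pv a ⟨z * x.re, z * x.im⟩ (k + n)
  | ph a x n => ph a ⟨z * x.re, z * x.im⟩ (k + n)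
  | dv a x y n => dv a (z * x) (z * y) (k + n)
  | dh a x y n => dh a (z * x) (z * y) (k + n)

theorem rot_spec (s : Bool) (t : Tg) :
    t.rot.a = t.b ∧ t.rot.b = !t.d ∧ t.rot.c = !t.a ∧ t.rot.d = t.c ∧
    t.rot.N (!s) = t.E s ∧ t.rot.S (!s) = t.W s ∧ t.rot.W (!s) = t.N s ∧ t.rot.E (!s) = t.S s ∧
    t.rot.sm = !t.sm ∧ t.rot.n = t.n := by
  cases t <;> cases s <;> simp [rot, a, b, c, d, N, S, W, E, sm, n]

theorem Good.rot {t : Tg} (h : t.Good) : t.rot.Good := by
  cases t
  · exact h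
  · exact h
  · exact ⟨h.2, h.1⟩
  · exact ⟨h.2, h.1⟩

theorem flip_spec (s : Bool) (t : Tg) :
    t.flip.a = !t.b ∧ t.flip.b = !t.a ∧ t.flip.c = !t.d ∧ t.flip.d = !t.c ∧
    t.flip.N (!s) = t.N s ∧ t.flip.S (!s) = t.S s ∧ t.flip.W (!s) = t.E s ∧
    t.flip.E (!s) = t.W s ∧ t.flip.sm = t.sm ∧ t.flip.n = t.n ∧ t.flip.dd = t.dd := by
  cases t <;> cases s <;> simp [flip, a, b, c, d, N, S, W, E, sm, n, dd]

theorem Good.flip {t : Tg} (h : t.Good) : t.flip.Good := by cases t <;> exact h

theorem smul_spec (s : Bool) (k : ℤ) (z : R) (t : Tg) :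
    (t.smul k z).a = t.a ∧ (t.smul k z).b = t.b ∧ (t.smul k z).c = t.c ∧ (t.smul k z).d = t.d ∧
    (t.smul k z).N s = z * t.N s ∧ (t.smul k z).S s = z * t.S s ∧ (t.smul k z).W s = z * t.W s ∧
    (t.smul k z).E s = z * t.E s ∧ (t.smul k z).sm = t.sm ∧ (t.smul k z).n = k + t.n := by
  cases t <;> simp [smul, a, b, c, d, N, S, W, E, sm, n, mul_add, mul_assoc]

theorem Good.smul {t : Tg} (h : t.Good) {k : ℤ} {z : R} (hz : Trap k z) : (t.smul k z).Good := by
  cases t
  · exact KK.smul h hz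
  · exact KK.smul h hz
  · exact ⟨hz.mul h.1, (hz.mul h.2).cast (by ring)⟩
  · exact ⟨(hz.mul h.1).cast (by ring), hz.mul h.2⟩

theorem Good.trapN {t : Tg} (h : t.Good) (s : Bool) (e : t.a ≠ t.b) :
    Trap (t.n - if t.sm then 0 else 1) (t.N s) ∧ t.S s = t.N s ∧ t.c ≠ t.d := by
  cases t
  · exact (e rfl).elim
  · exact ⟨KK.im h, rfl, by simp [c, d]⟩
  · exact ⟨h.1.cast (by simp [n, sm]), rfl, by simp [c, d]⟩
  · exact ⟨h.1, rfl, by simp [c, d]⟩

theorem Good.trapW {t : Tg} (h : t.Good) (s : Bool) (e : t.a = t.c) :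
    ∃ k, Trap k (t.W s) := by
  cases t
  · exact ⟨_, KK.im h⟩
  · simp [a, c] at e
  · exact ⟨_, h.2⟩
  · exact ⟨_, h.2⟩

theorem flux (t : Tg) : tq (!t.a) * tq (!t.b) = tq (!t.c) * tq (!t.d) := by
  cases t <;> simp [a, b, c, d, mul_comm]

theorem vsum (s : Bool) {A B : Tg} (hA : A.Good) (hB : B.Good) (e1 : A.c = B.a) (e2 : A.d = B.b) :
    ∃ C : Tg, C.Good ∧ C.a = A.a ∧ C.b = A.b ∧ C.c = B.c ∧ C.d = B.d ∧
      C.N s = A.N s * B.N s ∧ C.S s = A.S s * B.S s ∧ C.W s = A.W s * B.N s + A.S s * B.W s ∧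
      C.E s = A.E s * B.N s + A.S s * B.E s ∧ C.sm = (A.sm && B.sm) ∧
      C.n = A.n + B.n - if A.sm || B.sm then 0 else 1 := by
  have hq := qp
  rcases A with ⟨a, x, n⟩ | ⟨a, x, n⟩ | ⟨a, x, y, n⟩ | ⟨a, x, y, n⟩ <;>
    rcases B with ⟨a', x', n'⟩ | ⟨a', x', n'⟩ | ⟨a', x', y', n'⟩ | ⟨a', x', y', n'⟩ <;>
    simp only [Tg.a, b, c, d] at e1 e2 <;> subst e1 <;>
    (try (exfalso; revert e2; cases a <;> decide))
  · refine ⟨pv a (x * x') (n + n'), KK.mul hA hB, rfl, rfl, rfl, rfl, ?_, ?_, ?_, ?_, rfl,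
      by simp [Tg.n, sm]⟩ <;> cases a <;> cases s <;>
      simp [N, S, W, E, tq, tw, QuadraticAlgebra.re_mul, QuadraticAlgebra.im_mul] <;>
      first | ring1 | linear_combination (x.im * x'.im) * hq
  · refine ⟨dh a (x.im * x'.im) (x * x').im (n + n' - 1),
      ⟨((KK.im hA).mul (KK.im hB)).cast (by ring), (KK.mul hA hB).im⟩, rfl, rfl,
      by simp [c], by simp [d], rfl, rfl, ?_, ?_, rfl, by simp [Tg.n, sm]⟩ <;>
      cases a <;> cases s <;>
      simp [N, S, W, E, tq, tw, QuadraticAlgebra.im_mul] <;> ring1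
  · refine ⟨ph a ⟨x.im * y' + x' * x.re, x' * x.im⟩ (n' + n),
      KK.smul_add hA hB.1 (Or.inr (((KK.im hA).mul hB.2).cast (by ring))), rfl, rfl,
      by simp [c], by simp [d], ?_, ?_, ?_, ?_, rfl, by simp [Tg.n, sm, add_comm]⟩ <;>
      simp only [N, S, W, E] <;> ring1
  · refine ⟨ph a ⟨x.im * y' + x' * x.re, x' * x.im⟩ (n' - 1 + n),
      KK.smul_add hA hB.1 (Or.inl (((KK.im hA).mul hB.2).cast (by ring))), rfl, rfl,
      by simp [c], by simp [d], ?_, ?_, ?_, ?_, rfl, by simp [Tg.n, sm]; ring⟩ <;>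
      simp only [N, S, W, E] <;> ring1
  · refine ⟨ph a ⟨x'.im * y + x * x'.re, x * x'.im⟩ (n + n'),
      KK.smul_add hB hA.1 (Or.inr (((KK.im hB).mul hA.2).cast (by ring))), rfl, rfl,
      rfl, rfl, ?_, ?_, ?_, ?_, rfl, by simp [Tg.n, sm]⟩ <;>
      simp only [N, S, W, E] <;> ring1
  · exact ⟨dv a (x * x') (y * x' + x * y') (n + n'), ⟨hA.1.mul hB.1,
      ((hA.2.mul hB.1).add (hA.1.mul hB.2) (Or.inl (by ring))).cast (by ring)⟩, rfl, rfl, rfl, rfl,
      rfl, rfl, rfl, rfl, rfl, by simp [Tg.n, sm]⟩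
  · exact ⟨dh a (x * x') (y * x' + x * y') (n + n'), ⟨(hA.1.mul hB.1).cast (by ring),
      (hA.2.mul hB.1).add' (hA.1.mul hB.2) (Or.inr (by ring))⟩, rfl, rfl, rfl, rfl,
      rfl, rfl, rfl, rfl, rfl, by simp [Tg.n, sm]⟩
  · refine ⟨ph a ⟨x'.im * y + x * x'.re, x * x'.im⟩ (n - 1 + n'),
      KK.smul_add hB hA.1 (Or.inl (((KK.im hB).mul hA.2).cast (by ring))), rfl, rfl,
      rfl, rfl, ?_, ?_, ?_, ?_, rfl, by simp [Tg.n, sm]; ring⟩ <;>
      simp only [N, S, W, E] <;> ring1
  · exact ⟨dh a (x * x') (y * x' + x * y') (n + n'), ⟨(hA.1.mul hB.1).cast (by ring),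
      (hA.2.mul hB.1).add (hA.1.mul hB.2) (Or.inr (by ring))⟩, rfl, rfl, rfl, rfl,
      rfl, rfl, rfl, rfl, rfl, by simp [Tg.n, sm]⟩
  · exact ⟨dh a (x * x') (y * x' + x * y') (n + n' - 1), ⟨(hA.1.mul hB.1).cast (by ring),
      ((hA.2.mul hB.1).add (hA.1.mul hB.2) (Or.inl (by ring))).cast (by ring)⟩, rfl, rfl, rfl, rfl,
      rfl, rfl, rfl, rfl, rfl, by simp [Tg.n, sm]⟩

end Tg

end Pool.Agent.Lib.MP_bb8a0f_gt
end

-- part Pool.Agent.Lib.MP_bb8a0f_gt.Wd
section

/-! Transfer matrices of three-strand words of tangles. -/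

namespace Pool.Agent.Lib.MP_bb8a0f_gt

open LaurentPolynomial

/-- A two by two matrix together with two scalars. -/
@[ext] structure M6 where
  a : R
  b : R
  c : R
  d : R
  m0 : R
  m2 : R

namespace M6

/-- Unit. -/
noncomputable def one : M6 := ⟨1, 0, 0, 1, 1, 1⟩

/-- Product. -/
noncomputable def mul (X Y : M6) : M6 :=
  ⟨X.a * Y.a + X.b * Y.c, X.a * Y.b + X.b * Y.d, X.c * Y.a + X.d * Y.c, X.c * Y.b + X.d * Y.d,
    X.m0 * Y.m0, X.m2 * Y.m2⟩

/-- Reduced trace. -/
noncomputable def val (X : M6) : R := X.a + X.d - X.m0 - X.m2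

/-- Conjugation by the flip. -/
def swap (X : M6) : M6 := ⟨X.d, X.c, X.b, X.a, X.m0, X.m2⟩

theorem mul_assoc' (X Y Z : M6) : (X.mul Y).mul Z = X.mul (Y.mul Z) := by
  ext1 <;> simp only [mul] <;> ring

theorem one_mul' (X : M6) : one.mul X = X := by ext1 <;> simp [mul, one]

theorem mul_one' (X : M6) : X.mul one = X := by ext1 <;> simp [mul, one]

theorem val_comm (X Y : M6) : (X.mul Y).val = (Y.mul X).val := by simp only [mul, val]; ring

theorem swap_mul (X Y : M6) : (X.mul Y).swap = X.swap.mul Y.swap := by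
  ext1 <;> simp only [mul, swap] <;> ring

end M6

/-- A letter: a column (`false` is left) and a tangle. -/
abbrev Lt := Bool × Tg

/-- Directions of three strands. -/
abbrev Pat := Bool × Bool × Bool

/-- Transfer matrix of a letter. -/
noncomputable def mat (s : Bool) : Lt → M6
  | (false, t) => ⟨t.N s, t.E s, 0, t.S s, t.S s, t.N s⟩
  | (true, t) => ⟨t.S (!s), 0, t.W (!s), t.N (!s), t.S (!s), t.N (!s)⟩

/-- Transfer matrix of a word, lowest letter first. -/
noncomputable def PP (s : Bool) : List Lt → M6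
  | [] => M6.one
  | l :: L => (mat s l).mul (PP s L)

theorem PP_append (s : Bool) (u v : List Lt) : PP s (u ++ v) = (PP s u).mul (PP s v) := by
  induction u with
  | nil => exact (M6.one_mul' _).symm
  | cons l u ih => rw [List.cons_append, PP, PP, ih, M6.mul_assoc']

/-- The lower ends of a letter match the directions. -/
def Fits : Lt → Pat → Prop
  | (false, t), p => t.c = p.1 ∧ t.d = p.2.1
  | (true, t), p => t.c = p.2.1 ∧ t.d = p.2.2

/-- Directions above a letter. -/
def above : Lt → Pat → Pat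
  | (false, t), p => (t.a, t.b, p.2.2)
  | (true, t), p => (p.1, t.a, t.b)

/-- Consistently oriented words of good tangles. -/
def Path : Pat → List Lt → Pat → Prop
  | p, [], r => p = r
  | p, l :: L, r => l.2.Good ∧ Fits l p ∧ Path (above l p) L r

theorem path_append {p r : Pat} {u v : List Lt} :
    Path p (u ++ v) r ↔ ∃ m, Path p u m ∧ Path m v r := by
  induction u generalizing p with
  | nil => simp [Path]
  | cons l u ih => simp only [List.cons_append, Path, ih]; tauto

/-- Planar matchings on three strands. -/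
abbrev TL := Option (Bool × Bool)

/-- Product of matchings. -/
def tmul : TL → TL → TL
  | none, y => y
  | some x, none => some x
  | some x, some y => some (x.1, y.2)

/-- Closed loops in a product. -/
def loop : TL → TL → ℤ
  | some x, some y => if x.2 = y.1 then 1 else 0
  | _, _ => 0

/-- Circles in the closure. -/
def cl : TL → ℤ
  | none => 3
  | some x => if x.1 = x.2 then 2 else 1

/-- Matching of a letter. -/
def gen (l : Lt) : TL := if l.2.sm then none else some (l.1, l.1)

/-- Matching of a word. -/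
def tl : List Lt → TL
  | [] => none
  | l :: L => tmul (gen l) (tl L)

/-- Crossings minus closed circles. -/
def wt : List Lt → ℤ
  | [] => 0
  | l :: L => l.2.n + wt L - loop (gen l) (tl L)

/-- Degree of the closure. -/
def deg (L : List Lt) : ℤ := wt L - cl (tl L) + 1

theorem tmul_assoc : ∀ x y z : TL, tmul (tmul x y) z = tmul x (tmul y z) := by decide

theorem loop_coc : ∀ x y z : TL, loop x y + loop (tmul x y) z = loop y z + loop x (tmul y z) := by
  decide

theorem cl_comm : ∀ x y : TL, loop x y + cl (tmul x y) = loop y x + cl (tmul y x) := by decide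

theorem tl_append (u v : List Lt) : tl (u ++ v) = tmul (tl u) (tl v) := by
  induction u with
  | nil => rfl
  | cons l u ih => rw [List.cons_append, tl, tl, ih, tmul_assoc]

theorem wt_append (u v : List Lt) : wt (u ++ v) = wt u + wt v - loop (tl u) (tl v) := by
  induction u with
  | nil => simp [wt, tl, loop]
  | cons l u ih =>
    rw [List.cons_append, wt, wt, ih, tl_append, tl]
    have := loop_coc (gen l) (tl u) (tl v)
    omega

theorem deg_rot (u v : List Lt) : deg (u ++ v) = deg (v ++ u) := by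
  rw [deg, deg, wt_append, wt_append, tl_append, tl_append]
  have := cl_comm (tl u) (tl v)
  omega

theorem deg_vert {l : Lt} (h : l.2.sm = true) (L : List Lt) : deg (l :: L) = l.2.n + deg L := by
  simp only [deg, wt, tl, gen, h, if_true, tmul, loop]; ring

/-- A horizontal left letter of weight zero. -/
noncomputable def cap : Lt := (false, Tg.dh false 0 0 0)

theorem deg_hor {t : Tg} (h : t.sm = false) (L : List Lt) :
    deg ((false, t) :: L) = t.n + deg (cap :: L) := by
  have e : gen (false, t) = gen cap := by simp only [gen, h]; rfl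
  have e2 : cap.2.n = 0 := rfl
  simp only [deg, wt, tl, e, e2]; ring

theorem deg_cap (L : List Lt) : deg (cap :: L) = deg L + 1 ∨ deg (cap :: L) = deg L - 1 := by
  have : ∀ x : TL, loop (some (false, false)) x + cl (tmul (some (false, false)) x) = cl x - 1 ∨
      loop (some (false, false)) x + cl (tmul (some (false, false)) x) = cl x + 1 := by decide
  have := this (tl L)
  simp only [deg, wt, tl, gen, cap, Tg.sm, Tg.n, Bool.false_eq_true, if_false]
  omega

/-- Some letter lies in the given column. -/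
def Has (c : Bool) (L : List Lt) : Prop := ∃ l ∈ L, l.1 = c

theorem has_cons {c : Bool} {l : Lt} {L : List Lt} : Has c (l :: L) ↔ l.1 = c ∨ Has c L := by
  simp [Has]

theorem has_append {c : Bool} {u v : List Lt} : Has c (u ++ v) ↔ Has c u ∨ Has c v := by
  simp only [Has, List.mem_append, or_and_right, exists_or]

theorem not_has_nil (c : Bool) : ¬ Has c [] := by simp [Has]

theorem only_right (s : Bool) {L : List Lt} (h : ¬ Has false L) :
    (PP s L).b = 0 ∧ (PP s L).a = (PP s L).m0 ∧ (PP s L).d = (PP s L).m2 ∧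
      (tl L = none ∨ tl L = some (true, true)) := by
  induction L with
  | nil => simp [PP, M6.one, tl]
  | cons l L ih =>
    obtain ⟨c, t⟩ := l
    rw [has_cons, not_or] at h
    obtain ⟨h1, h2, h3, h4⟩ := ih h.2
    cases c
    · exact (h.1 rfl).elim
    · refine ⟨by simp [PP, mat, M6.mul, h1], by simp [PP, mat, M6.mul, h2],
        by simp [PP, mat, M6.mul, h1, h3], ?_⟩
      rcases h4 with h4 | h4 <;> cases h5 : t.sm <;> simp [tl, gen, h4, h5, tmul]

theorem val_right (s : Bool) {L : List Lt} (h : ¬ Has false L) :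
    (PP s L).val = 0 ∧ deg (cap :: L) = deg L + 1 := by
  obtain ⟨-, h2, h3, h4⟩ := only_right s h
  refine ⟨by rw [M6.val, h2, h3]; ring, ?_⟩
  rcases h4 with h4 | h4 <;> simp [deg, wt, tl, gen, cap, Tg.sm, Tg.n, h4, tmul, loop, cl] <;> ring

/-- Reflected and reversed word. -/
def flipL (L : List Lt) : List Lt := L.map fun l => (!l.1, l.2.flip)

/-- Reflected and reversed directions. -/
def flipP (p : Pat) : Pat := (!p.2.2, !p.2.1, !p.1)

theorem mat_flip (s : Bool) (l : Lt) : mat s (!l.1, l.2.flip) = (mat s l).swap := by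
  obtain ⟨c, t⟩ := l
  have h1 := Tg.flip_spec s t
  have h2 := Tg.flip_spec (!s) t
  rw [Bool.not_not] at h2
  cases c <;> simp [mat, M6.swap, h1, h2]

theorem PP_flip (s : Bool) (L : List Lt) : PP s (flipL L) = (PP s L).swap := by
  induction L with
  | nil => rfl
  | cons l L ih => rw [PP, M6.swap_mul, ← ih, ← mat_flip]; rfl

theorem val_flip (s : Bool) (L : List Lt) : (PP s (flipL L)).val = (PP s L).val := by
  rw [PP_flip]; simp only [M6.val, M6.swap]; ring

theorem path_flip {p r : Pat} {L : List Lt} (h : Path p L r) :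
    Path (flipP p) (flipL L) (flipP r) := by
  induction L generalizing p with
  | nil => exact congrArg flipP h
  | cons l L ih =>
    obtain ⟨c, t⟩ := l
    obtain ⟨h1, h2, h3⟩ := h
    have h4 := Tg.flip_spec true t
    have h5 := ih h3
    cases c <;> refine ⟨h1.flip, ?_, ?_⟩
    · simp only [Fits] at h2; simp [Fits, flipP, h4, h2]
    · simpa [above, flipP, h4, flipL] using h5
    · simp only [Fits] at h2; simp [Fits, flipP, h4, h2]
    · simpa [above, flipP, h4, flipL] using h5

theorem deg_flip (L : List Lt) : deg (flipL L) = deg L := by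
  let f : TL → TL := Option.map fun x => (!x.1, !x.2)
  have e1 : ∀ x y : TL, tmul (f x) (f y) = f (tmul x y) ∧ loop (f x) (f y) = loop x y := by decide
  have e2 : ∀ x : TL, cl (f x) = cl x := by decide
  have e3 : ∀ l : Lt, gen (!l.1, l.2.flip) = f (gen l) := fun l => by
    have := (Tg.flip_spec true l.2).2.2.2.2.2.2.2.2.1
    simp only [gen, this]; split_ifs <;> rfl
  have : tl (flipL L) = f (tl L) ∧ wt (flipL L) = wt L := by
    induction L with
    | nil => exact ⟨rfl, rfl⟩
    | cons l L ih =>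
      have e4 : flipL (l :: L) = (!l.1, l.2.flip) :: flipL L := rfl
      rw [e4, tl, wt, ih.1, ih.2, e3, (e1 _ _).1, (e1 _ _).2,
        (Tg.flip_spec true l.2).2.2.2.2.2.2.2.2.2.1]
      exact ⟨rfl, rfl⟩
  rw [deg, deg, this.1, this.2, e2]

theorem has_flip {c : Bool} {L : List Lt} : Has (!c) (flipL L) ↔ Has c L := by
  simp only [Has, flipL, List.mem_map]
  constructor
  · rintro ⟨_, ⟨l, h, rfl⟩, e⟩
    exact ⟨l, h, by simpa using e⟩
  · rintro ⟨l, h, rfl⟩
    exact ⟨_, ⟨l, h, rfl⟩, rfl⟩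

theorem val_single (s : Bool) {L : List Lt} (h : ¬ (Has false L ∧ Has true L)) :
    (PP s L).val = 0 := by
  by_cases h1 : Has false L
  · rw [← val_flip]
    exact (val_right s (fun h2 => h ⟨h1, (has_flip (c := true)).1 h2⟩)).1
  · exact (val_right s h1).1

theorem rk_aux (s : Bool) {p r : Pat} {L : List Lt} (h : Path p L r) (hr : r.1 ≠ r.2.1) :
    (¬ Has true L ∧ (PP s L).c = 0 ∧ Trap (wt (L ++ [cap])) (PP s L).a ∧ p.1 ≠ p.2.1 ∧
      tl (L ++ [cap]) = some (false, false)) ∨
    ∃ t : Tg, t.Good ∧ t.b = !p.2.2 ∧ t.c = p.1 ∧ t.d = p.2.1 ∧ t.S s = (PP s L).c ∧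
      t.E s = (PP s L).a ∧ tl (L ++ [cap]) = some (t.sm, false) ∧ t.n = wt (L ++ [cap]) := by
  induction L generalizing p with
  | nil =>
    left
    cases h
    exact ⟨not_has_nil _, rfl, trap_one, hr, rfl⟩
  | cons l L ih =>
    obtain ⟨c, t⟩ := l
    obtain ⟨h1, h2, h3⟩ := h
    rcases ih h3 with ⟨a1, a2, a3, a4, a5⟩ | ⟨u, a1, a2, a3, a4, a5, a6, a7, a8⟩ <;> cases c <;>
      simp only [Fits, above] at * <;> simp only [List.cons_append, tl, wt, PP, mat, M6.mul]
    · left
      obtain ⟨b1, b2, b3⟩ := h1.trapN s a4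
      refine ⟨by simpa [has_cons] using a1, by simp [a2], ?_, by rwa [← h2.1, ← h2.2], ?_⟩
      · rw [a2, mul_zero, add_zero, a5]
        refine (b1.mul a3).cast ?_
        cases h5 : t.sm <;> simp [gen, h5, loop]; ring
      · rw [a5]; cases h5 : t.sm <;> simp [gen, h5, tmul]
    · right
      have e1 := Tg.rot_spec (!s) t
      have e2 := Tg.smul_spec s (wt (L ++ [cap])) (PP s L).a t.rot
      rw [Bool.not_not] at e1
      refine ⟨t.rot.smul _ _, h1.rot.smul a3, by simp [e1, e2, h2], ?_, by simp [e1, e2, h2],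
        by simp [e1, e2, a2, mul_comm], by simp [e1, e2, mul_comm], ?_, ?_⟩
      · rw [e2.2.2.1, e1.2.2.1]
        revert a4; cases t.a <;> cases p.1 <;> simp
      · rw [a5]; cases h5 : t.sm <;> simp [e1, e2, gen, h5, tmul]
      · rw [a5]; cases h5 : t.sm <;> simp [e1, e2, gen, h5, loop, add_comm]
    · right
      obtain ⟨v, b1, -, b3, b4, b5, -, b7, -, b9, b10, b11⟩ := Tg.vsum s a1 h1 a3 a4
      refine ⟨v, b1, by rw [b3, a2], by rw [b4, h2.1], by rw [b5, h2.2], by rw [b7, a5]; ring,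
        by rw [b9, a5, a6]; ring, ?_, ?_⟩
      · rw [a7, b10]; cases h5 : t.sm <;> simp [gen, h5, tmul]
      · rw [a7, b11, a8]; cases h5 : t.sm <;> cases u.sm <;> simp [gen, h5, loop] <;> ring
    · right
      have e1 := Tg.rot_spec s u
      have e2 := Tg.rot_spec (!s) u.rot
      have e3 := Tg.rot_spec s u.rot.rot
      rw [Bool.not_not] at e2
      obtain ⟨v, b1, b2, -, b4, b5, -, b7, b8, -, b10, b11⟩ :=
        Tg.vsum (!s) a1.rot.rot.rot h1 (by simp [e1, e2, e3, a4]) (by simp [e1, e2, e3, a2])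
      have e4 := Tg.rot_spec (!s) v
      rw [Bool.not_not] at e4
      refine ⟨v.rot, b1.rot, by simp [e4, b5, h2], by simp [e4, b2, e1, e2, e3, a3],
        by simp [e4, b4, h2], ?_, ?_, ?_, ?_⟩
      · simp only [e4, b8, e1, e2, e3, a5, a6]; ring
      · simp only [e4, b7, e1, e2, e3, a6]; ring
      · rw [a7]; cases h5 : t.sm <;> simp [e4, b10, e1, e2, e3, gen, h5, tmul]
      · rw [a7]; cases h5 : t.sm <;> cases h6 : u.sm <;>
          simp [e4, b11, e1, e2, e3, gen, h5, h6, loop, a8] <;> ring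

theorem rk (s : Bool) {p r : Pat} {L : List Lt} (h : Path p L r) (hr : r.1 ≠ r.2.1)
    (hp : p.1 ≠ p.2.1) (h1 : Has true L) : Trap (deg (cap :: L)) (PP s L).c := by
  rcases rk_aux s h hr with a | ⟨t, a1, -, a3, a4, a5, -, a7, a8⟩
  · exact (a.1 h1).elim
  · have e : t.a ≠ t.b := by
      rw [← a3, ← a4] at hp
      cases t <;> simp_all [Tg.a, Tg.b, Tg.c, Tg.d]
    obtain ⟨b1, b2, -⟩ := a1.trapN s e
    rw [← a5, b2]
    refine b1.cast ?_
    rw [show cap :: L = [cap] ++ L from rfl, deg_rot, deg, a7, a8]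
    cases t.sm <;> simp [cl]; ring

end Pool.Agent.Lib.MP_bb8a0f_gt
end

-- part Pool.Agent.Lib.MP_bb8a0f_gt.Clos
section

/-! Trapezoidal closures of three-strand words. -/

namespace Pool.Agent.Lib.MP_bb8a0f_gt

open LaurentPolynomial

/-- The reduced trace is `κ` times a trapezoidal polynomial of the expected degree. -/
def Gk (s : Bool) (κ : R) (L : List Lt) : Prop := ∃ z, Trap (deg L) z ∧ κ * z = (PP s L).val

theorem Gk.rot {s : Bool} {κ : R} {u v : List Lt} (h : Gk s κ (v ++ u)) : Gk s κ (u ++ v) := by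
  rw [Gk, deg_rot, PP_append, M6.val_comm, ← PP_append]; exact h

theorem Gk.flip {s : Bool} {κ : R} {L : List Lt} (h : Gk s κ (flipL L)) : Gk s κ L := by
  rw [Gk, ← deg_flip, ← val_flip]; exact h

theorem val_pv (s c a : Bool) (x : QA) (n : ℤ) (X : M6) :
    ((mat s (c, Tg.pv a x n)).mul X).val =
      ev X.val ((mat s (c, Tg.pv a om 1)).mul X).val x := by
  cases c <;> simp [mat, M6.mul, M6.val, ev, Tg.N, Tg.S, Tg.W, Tg.E, om] <;> ring

theorem mat_pv_one (s c a : Bool) (n : ℤ) : mat s (c, Tg.pv a 1 n) = M6.one := by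
  cases c <;> simp [mat, M6.one, Tg.N, Tg.S, Tg.W, Tg.E, QuadraticAlgebra.re_one,
    QuadraticAlgebra.im_one]

theorem mat_pv_mul (s c a : Bool) (x y : QA) (n m k : ℤ) :
    mat s (c, Tg.pv a (x * y) k) = (mat s (c, Tg.pv a x n)).mul (mat s (c, Tg.pv a y m)) := by
  have hq := qp
  cases c <;> cases s <;> cases a <;> ext1 <;>
    simp [mat, M6.mul, Tg.N, Tg.S, Tg.W, Tg.E, tq, tw, QuadraticAlgebra.re_mul,
      QuadraticAlgebra.im_mul] <;>
    first | ring1 | linear_combination (x.im * y.im) * hq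

theorem sub_head {s : Bool} {κ : R} (hκ : κ ≠ 0) {c a : Bool} {x : QA} {n : ℤ} {L : List Lt}
    (hx : KK n x) (h0 : (PP s L).val = 0 ∨ Gk s κ L)
    (h : ∀ p : ℕ, Gk s κ ((c, Tg.pv a (om ^ (p + 1)) (p + 1)) :: L)) :
    Gk s κ ((c, Tg.pv a x n) :: L) := by
  obtain ⟨z1, -, e1⟩ := h 0
  rw [PP, val_pv, zero_add, pow_one, ev_om] at e1
  obtain ⟨z0, t0, e0⟩ : ∃ z0, (z0 = 0 ∨ Trap (deg L) z0) ∧ κ * z0 = (PP s L).val := by
    rcases h0 with h0 | ⟨z, a1, a2⟩
    · exact ⟨0, Or.inl rfl, by rw [h0, mul_zero]⟩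
    · exact ⟨z, Or.inr a1, a2⟩
  have key : ∀ (y : QA) (m : ℤ), κ * ev z0 z1 y = (PP s ((c, Tg.pv a y m) :: L)).val := by
    intro y m
    rw [PP, val_pv, ← e0, ← e1]
    simp only [ev]; ring
  refine ⟨ev z0 z1 x, ?_, key _ _⟩
  rw [deg_vert rfl, add_comm]
  refine hx _ _ _ ⟨t0, fun p => ?_⟩
  obtain ⟨z, a1, a2⟩ := h p
  rw [← key] at a2
  rw [← mul_left_cancel₀ hκ a2]
  rw [deg_vert rfl] at a1
  exact a1.cast (by simp only [Tg.n]; ring)

/-- Words of crossings. -/
noncomputable def cr (a : Bool) (w : List Bool) : List Lt := w.map fun c => (c, Tg.pv a om 1)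

theorem cr_spec (s : Bool) (w : List Bool) :
    PP s (cr s w) = ⟨MM w 0 0, MM w 0 1, MM w 1 0, MM w 1 1, T (- ex w), T (ex w)⟩ ∧
      deg (cr s w) = w.length - 2 := by
  induction w with
  | nil => exact ⟨by simp [cr, PP, M6.one, MM_nil, ex], rfl⟩
  | cons b w ih =>
    have e : cr s (b :: w) = (b, Tg.pv s om 1) :: cr s w := rfl
    rw [e, PP, ih.1, deg_vert rfl, ih.2]
    refine ⟨?_, by simp only [Tg.n, List.length_cons]; push_cast; ring⟩
    have e1 : (s == !s) = false := by cases s <;> rfl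
    cases b <;> ext1 <;>
      simp only [mat, M6.mul, Tg.N, Tg.S, Tg.W, Tg.E, e1, tq, om, t0, t1, f0, f1, ex, BEq.rfl,
        Bool.not_true, Bool.not_false, neg_add, T_add, sub_eq_add_neg, neg_neg] <;> ring

theorem has_cr {a c : Bool} {w : List Bool} : Has c (cr a w) ↔ c ∈ w := by
  simp only [Has, cr, List.mem_map]
  exact ⟨fun ⟨_, ⟨b, h, e⟩, e2⟩ => by subst e; exact e2 ▸ h, fun h => ⟨_, ⟨c, h, rfl⟩, rfl⟩⟩

theorem gk_cr (s : Bool) (w : List Bool) (h1 : true ∈ w) (h2 : false ∈ w) :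
    Gk s kk (cr s w) := by
  obtain ⟨g, e1, e2, -⟩ := exists_D w h1 h2
  obtain ⟨n, hn⟩ : ∃ n : ℕ, w.length = n + 2 := by
    have := List.count_pos_iff.2 h1
    have := List.count_pos_iff.2 h2
    have := List.count_true_add_count_false w
    exact ⟨w.length - 2, by omega⟩
  have e4 : Tr (n + 1 : ℕ) (asym g) := by
    convert e2 using 1; rw [hn]; push_cast; ring
  obtain ⟨z, hz⟩ : ∃ z, zz * z = g - bar g := ⟨_, expand e4⟩
  refine ⟨z, ⟨?_, ?_⟩, ?_⟩
  · apply mul_left_cancel₀ zz_ne
    have := congrArg bar hz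
    rw [map_mul, bar_zz, map_sub, bar_bar] at this
    linear_combination -this - hz
  · have : dz z = asym g := by ext k; rw [dz, hz, asym]
    rw [this, (cr_spec s w).2]
    convert e2 using 1; ring
  · apply mul_left_cancel₀ zz_ne
    rw [(cr_spec s w).1, M6.val]
    linear_combination e1 + kk * hz

theorem cr_rep (s c a : Bool) (p : ℕ) (L : List Lt) :
    PP s (cr a (List.replicate p c) ++ L) = PP s ((c, Tg.pv a (om ^ p) p) :: L) ∧
      deg (cr a (List.replicate p c) ++ L) = deg ((c, Tg.pv a (om ^ p) p) :: L) := by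
  induction p with
  | zero => exact ⟨by rw [PP, pow_zero, mat_pv_one, M6.one_mul']; rfl,
      by rw [deg_vert rfl]; simp [cr, Tg.n]⟩
  | succ p ih =>
    have e : cr a (List.replicate (p + 1) c) ++ L =
        (c, Tg.pv a om 1) :: (cr a (List.replicate p c) ++ L) := rfl
    rw [e, PP, ih.1, deg_vert rfl, ih.2, deg_vert rfl, deg_vert rfl, PP, PP, pow_succ',
      mat_pv_mul s c a _ _ 1 p, M6.mul_assoc']
    exact ⟨rfl, by simp only [Tg.n]; push_cast; ring⟩

theorem fits_pv {l : Lt} {a : Bool} (h : Fits l (a, a, a)) :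
    (∃ x n, l.2 = Tg.pv a x n) ∧ above l (a, a, a) = (a, a, a) := by
  obtain ⟨c, t⟩ := l
  cases c <;> cases t <;> cases a <;> simp_all [Fits, above, Tg.a, Tg.b, Tg.c, Tg.d]

theorem flux3_aux (s : Bool) (L : List Lt) : ∀ (w : List Bool) (r : Pat), Path (s, s, s) L r →
    Has false (L ++ cr s w) → Has true (L ++ cr s w) → Gk s kk (L ++ cr s w) := by
  induction L with
  | nil => intro w r _ h1 h2; exact gk_cr s w (has_cr.1 h2) (has_cr.1 h1)
  | cons l L ih =>
    intro w r h h1 h2
    obtain ⟨c, t⟩ := l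
    obtain ⟨a1, a2, a3⟩ := h
    obtain ⟨⟨x, n, e⟩, e2⟩ := fits_pv a2
    rw [e2] at a3
    simp only at e
    subst e
    refine sub_head kk_ne a1 ?_ fun p => ?_
    · by_cases b : Has false (L ++ cr s w) ∧ Has true (L ++ cr s w)
      · exact Or.inr (ih w r a3 b.1 b.2)
      · exact Or.inl (val_single s b)
    · have hh : ∀ c', Has c' ((c, Tg.pv s x n) :: L ++ cr s w) →
          Has c' (L ++ cr s (w ++ List.replicate (p + 1) c)) := fun c' => by
        simp only [List.cons_append, has_cons, has_append, has_cr, List.mem_append,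
          List.mem_replicate]
        tauto
      have := ih _ r a3 (hh _ h1) (hh _ h2)
      rw [cr, List.map_append, ← List.append_assoc] at this
      obtain ⟨z, b1, b2⟩ := this.rot
      have e3 := cr_rep s c s (p + 1) (L ++ cr s w)
      exact ⟨z, e3.2 ▸ b1, e3.1 ▸ b2⟩

theorem flux3 (s a : Bool) {L : List Lt} {r : Pat} (h : Path (a, a, a) L r)
    (h1 : Has false L) (h2 : Has true L) : Gk s kk L := by
  have key : ∀ {L : List Lt} {r : Pat}, Path (s, s, s) L r → Has false L → Has true L →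
      Gk s kk L := fun h h1 h2 => by
    simpa [cr] using flux3_aux s _ [] _ h (by simpa [cr] using h1) (by simpa [cr] using h2)
  by_cases e : a = s
  · subst e; exact key h h1 h2
  · obtain rfl : a = !s := by revert e; cases a <;> cases s <;> simp
    exact (key (by simpa [flipP] using path_flip h) ((has_flip (c := true)).2 h2)
      ((has_flip (c := false)).2 h1)).flip

/-- Closed words with both columns whose strands are not all parallel. -/
def Cy (p : Pat) (L : List Lt) : Prop :=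
  Path p L p ∧ ¬ (p.1 = p.2.1 ∧ p.2.1 = p.2.2) ∧ Has false L ∧ Has true L

theorem path_nq {p r : Pat} {L : List Lt} (h : Path p L r)
    (hp : ¬ (p.1 = p.2.1 ∧ p.2.1 = p.2.2)) : ¬ (r.1 = r.2.1 ∧ r.2.1 = r.2.2) := by
  induction L generalizing p with
  | nil => cases h; exact hp
  | cons l L ih =>
    refine ih h.2.2 ?_
    obtain ⟨c, t⟩ := l
    obtain ⟨p0, p1, p2⟩ := p
    have := h.2.1
    cases c <;> cases t <;> cases p0 <;> cases p1 <;> cases p2 <;>
      simp_all [Fits, above, Tg.a, Tg.b, Tg.c, Tg.d]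

theorem Cy.rot {p : Pat} {u v : List Lt} (h : Cy p (u ++ v)) : ∃ r, Cy r (v ++ u) := by
  obtain ⟨h1, h2, h3, h4⟩ := h
  obtain ⟨m, a1, a2⟩ := path_append.1 h1
  exact ⟨m, path_append.2 ⟨p, a2, a1⟩, path_nq a1 h2, by rw [has_append] at *; tauto,
    by rw [has_append] at *; tauto⟩

theorem Cy.flip {p : Pat} {L : List Lt} (h : Cy p L) : Cy (flipP p) (flipL L) :=
  ⟨path_flip h.1, fun e => h.2.1 (by simp only [flipP] at e; simpa [eq_comm, and_comm] using e),
    (has_flip (c := true)).2 h.2.2.2, (has_flip (c := false)).2 h.2.2.1⟩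

/-- The induction hypothesis. -/
def IH (s : Bool) (k : ℕ) : Prop := ∀ p L, L.length < k → Cy p L → Gk s 1 L

theorem step_d_left {s : Bool} {p : Pat} {t : Tg} {L : List Lt} (ih : IH s (L.length + 1))
    (h : Cy p ((false, t) :: L)) (hd : t.dd = true) : Gk s 1 ((false, t) :: L) := by
  obtain ⟨⟨a1, a2, a3⟩, h2, -, h4⟩ := h
  have h5 : Has true L := by simpa [has_cons] using h4
  have e : above (false, t) p = p ∧ p.1 ≠ p.2.1 := by
    obtain ⟨p0, p1, p2⟩ := p
    cases t <;> cases p0 <;> cases p1 <;>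
      simp_all [Fits, above, Tg.a, Tg.b, Tg.c, Tg.d, Tg.dd]
  rw [e.1] at a3
  have r1 := rk s a3 e.2 e.2 h5
  have r2 : ((PP s L).val = 0 ∧ deg (cap :: L) = deg L + 1) ∨ Trap (deg L) (PP s L).val := by
    by_cases b : Has false L
    · obtain ⟨z, b1, b2⟩ := ih p L (by omega) ⟨a3, h2, b, h5⟩
      rw [one_mul] at b2
      exact Or.inr (b2 ▸ b1)
    · exact Or.inl (val_right s b)
  have r3 := deg_cap L
  refine ⟨_, ?_, one_mul _⟩
  rcases t with _ | _ | ⟨a, x, y, n⟩ | ⟨a, x, y, n⟩
  · cases hd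
  · cases hd
  · have e2 : (PP s ((false, Tg.dv a x y n) :: L)).val = y * (PP s L).c + x * (PP s L).val := by
      simp only [PP, mat, M6.mul, M6.val, Tg.N, Tg.S, Tg.E]; ring
    rw [e2, deg_vert rfl]
    rcases r2 with r2 | r2
    · rw [r2.1, mul_zero, add_zero]
      exact (a1.2.mul r1).cast (by simp only [Tg.n]; omega)
    · exact (a1.2.mul r1).add' (a1.1.mul r2) (by simp only [Tg.n]; omega)
  · have e2 : (PP s ((false, Tg.dh a x y n) :: L)).val = y * (PP s L).c + x * (PP s L).val := by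
      simp only [PP, mat, M6.mul, M6.val, Tg.N, Tg.S, Tg.E]; ring
    rw [e2, deg_hor rfl]
    rcases r2 with r2 | r2
    · rw [r2.1, mul_zero, add_zero]
      exact a1.2.mul r1
    · exact (a1.2.mul r1).add (a1.1.mul r2) (by omega)

theorem step_d {s : Bool} {p : Pat} {l : Lt} {L : List Lt} (ih : IH s (L.length + 1))
    (h : Cy p (l :: L)) (hd : l.2.dd = true) : Gk s 1 (l :: L) := by
  obtain ⟨c, t⟩ := l
  cases c
  · exact step_d_left ih h hd
  · refine Gk.flip (step_d_left (p := flipP p) (t := t.flip) (L := flipL L)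
      (by simpa [flipL] using ih) h.flip ?_)
    rw [(Tg.flip_spec s t).2.2.2.2.2.2.2.2.2.2]; exact hd

theorem step_m_left {s : Bool} {p : Pat} {t t' : Tg} {L : List Lt} (ih : IH s (L.length + 2))
    (h : Cy p ((false, t) :: (false, t') :: L)) : Gk s 1 ((false, t) :: (false, t') :: L) := by
  obtain ⟨⟨a1, a2, a3, a4, a5⟩, h2, -, h4⟩ := h
  obtain ⟨v, b1, b2, b3, b4, b5, b6, b7, -, b9, b10, b11⟩ := Tg.vsum s a3 a1 a4.1 a4.2
  obtain ⟨z, c1, c2⟩ := ih p ((false, v) :: L) (by simp)
    ⟨⟨b1, ⟨b4.trans a2.1, b5.trans a2.2⟩, by simpa [above, b2, b3] using a5⟩, h2,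
      has_cons.2 (Or.inl rfl), by simpa [has_cons] using h4⟩
  refine ⟨z, c1.cast ?_, c2.trans ?_⟩
  · simp only [deg, wt, tl, gen, b10, b11]
    cases t.sm <;> cases t'.sm <;> rcases tl L with _ | ⟨_ | _, _ | _⟩ <;>
      simp [tmul, loop, cl] <;> ring
  · simp only [PP, mat, M6.mul, M6.val, b6, b7, b9]; ring

theorem step_m {s : Bool} {p : Pat} {l l' : Lt} {L : List Lt} (ih : IH s (L.length + 2))
    (h : Cy p (l :: l' :: L)) (hd : l.1 = l'.1) : Gk s 1 (l :: l' :: L) := by
  obtain ⟨c, t⟩ := l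
  obtain ⟨c', t'⟩ := l'
  cases hd
  cases c
  · exact step_m_left ih h
  · exact Gk.flip (step_m_left (p := flipP p) (t := t.flip) (t' := t'.flip) (L := flipL L)
      (by simpa [flipL] using ih) h.flip)

end Pool.Agent.Lib.MP_bb8a0f_gt
end
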