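import Mathlib

namespace Pool.Agent.Lib.MP_bb8a0f_gt

open LaurentPolynomial FreeGroup

/-- Artin automorphisms of the free group on `x₀, x₁, x₂`: `true` is `σ₁`, `false` is `σ₂⁻¹`. -/
def artin : Bool → (FreeGroup (Fin 3) →* FreeGroup (Fin 3))
  | true => FreeGroup.lift ![of 0 * of 1 * (of 0)⁻¹, of 0, of 2]
  | false => FreeGroup.lift ![of 0, of 2, (of 2)⁻¹ * of 1 * of 2]

/-- The Artin action of a braid word in `σ₁` and `σ₂⁻¹`. -/
def braidAct : List Bool → (FreeGroup (Fin 3) →* FreeGroup (Fin 3))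
  | [] => MonoidHom.id _
  | b :: w => (braidAct w).comp (artin b)

/-- Fox derivatives `∂/∂x_j` of a word, with every generator sent to `t`. -/
noncomputable def foxWord : List (Fin 3 × Bool) → Fin 3 → LaurentPolynomial ℤ
  | [] => 0
  | (i, true) :: l => Pi.single i 1 + (T 1 : LaurentPolynomial ℤ) • foxWord l
  | (i, false) :: l => (T (-1) : LaurentPolynomial ℤ) • (foxWord l - Pi.single i 1)

/-- Alexander matrix of the presentation `⟨x₀, x₁, x₂ ∣ β(xᵢ) xᵢ⁻¹⟩` of the group of the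
closed braid. -/
noncomputable def alexMat (w : List Bool) : Matrix (Fin 3) (Fin 3) (LaurentPolynomial ℤ) :=
  Matrix.of fun i j => foxWord (braidAct w (of i) * (of i)⁻¹).toWord j

/-- First elementary ideal: the ideal generated by the `2 × 2` minors. -/
noncomputable def alexIdeal (w : List Bool) : Ideal (LaurentPolynomial ℤ) :=
  Ideal.span {d | ∃ r c : Fin 2 → Fin 3, d = ((alexMat w).submatrix r c).det}

/-- `a 0 < ⋯ < a k = ⋯ = a (n - k) > ⋯ > a n` with `k ≤ n / 2`. -/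
def Trapezoidal (n : ℕ) (a : ℕ → ℤ) (k : ℕ) : Prop :=
  2 * k ≤ n ∧ (∀ i, i < k → a i < a (i + 1)) ∧ (∀ i, k ≤ i → i < n - k → a i = a (i + 1)) ∧
    ∀ i, n - k ≤ i → i < n → a (i + 1) < a i

end Pool.Agent.Lib.MP_bb8a0f_gt
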