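import Pool.Agent.Lib.MP_bb8a0f_gt.Clos
import Pool.Agent.Lib.MP_bb8a0f_gt.Bnd

-- part Pool.Agent.Lib.MP_bb8a0f_gt.Alt
section

/-! Words whose letters alternate between the two columns. -/

namespace Pool.Agent.Lib.MP_bb8a0f_gt

open LaurentPolynomial

/-- Transposition of two neighbouring directions. -/
def sw : Bool → Pat → Pat
  | false, p => (p.2.1, p.1, p.2.2)
  | true, p => (p.1, p.2.2, p.2.1)

/-- Alternating words of parallel letters. -/
def AP : Pat → Bool → List Lt → Pat → Bool → Prop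
  | p, c, [], r, e => p = r ∧ c = e
  | p, c, l :: L, r, e => l.1 = c ∧ l.2.dd = false ∧ l.2.Good ∧ Fits l p ∧ AP (sw c p) (!c) L r e

theorem above_sw {l : Lt} {p : Pat} (h : l.2.dd = false) (h2 : Fits l p) :
    above l p = sw l.1 p := by
  obtain ⟨c, t⟩ := l
  obtain ⟨p0, p1, p2⟩ := p
  cases c <;> cases t <;> obtain ⟨rfl, rfl⟩ := h2 <;>
    simp_all [above, sw, Tg.a, Tg.b, Tg.c, Tg.d, Tg.dd]

theorem AP.path {p r : Pat} {c e : Bool} {L : List Lt} (h : AP p c L r e) : Path p L r := by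
  induction L generalizing p c with
  | nil => exact h.1
  | cons l L ih =>
    obtain ⟨h1, h2, h3, h4, h5⟩ := h
    exact ⟨h3, h4, by rw [above_sw h2 h4, h1]; exact ih h5⟩

theorem AP.snoc {p r : Pat} {c e : Bool} {L : List Lt} (h : AP p c L r e) {l : Lt} (h1 : l.1 = e)
    (h2 : l.2.dd = false) (h3 : l.2.Good) (h4 : Fits l r) :
    AP p c (L ++ [l]) (sw e r) (!e) := by
  induction L generalizing p c with
  | nil => obtain ⟨rfl, rfl⟩ := h; exact ⟨h1, h2, h3, h4, rfl, rfl⟩
  | cons l' L ih => exact ⟨h.1, h.2.1, h.2.2.1, h.2.2.2.1, ih h.2.2.2.2⟩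

theorem AP.last {p r : Pat} {c e : Bool} {L : List Lt} {l : Lt} (h : AP p c (l :: L) r e) :
    ∃ M l', l :: L = M ++ [l'] ∧ l'.1 = !e := by
  induction L generalizing p c l with
  | nil => exact ⟨[], l, rfl, by rw [h.1, ← h.2.2.2.2.2, Bool.not_not]⟩
  | cons l' L ih =>
    obtain ⟨M, l'', e1, e2⟩ := ih h.2.2.2.2
    exact ⟨l :: M, l'', by rw [e1]; rfl, e2⟩

theorem tricho {p r : Pat} {l : Lt} {L : List Lt} (h : Path p (l :: L) r) :
    (∃ u l' v, l :: L = u ++ l' :: v ∧ l'.2.dd = true) ∨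
    (∃ u l' l'' v, l :: L = u ++ l' :: l'' :: v ∧ l'.1 = l''.1) ∨ ∃ e, AP p l.1 (l :: L) r e := by
  induction L generalizing p l with
  | nil =>
    cases hd : l.2.dd
    · exact Or.inr (Or.inr ⟨_, rfl, hd, h.1, h.2.1, by rw [← above_sw hd h.2.1]; exact h.2.2, rfl⟩)
    · exact Or.inl ⟨[], l, [], rfl, hd⟩
  | cons l' L ih =>
    cases hd : l.2.dd
    · by_cases hc : l.1 = l'.1
      · exact Or.inr (Or.inl ⟨[], l, l', L, rfl, hc⟩)
      · rcases ih h.2.2 with ⟨u, a, v, e1, e2⟩ | ⟨u, a, b, v, e1, e2⟩ | ⟨e, e1⟩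
        · exact Or.inl ⟨l :: u, a, v, by rw [e1]; rfl, e2⟩
        · exact Or.inr (Or.inl ⟨l :: u, a, b, v, by rw [e1]; rfl, e2⟩)
        · refine Or.inr (Or.inr ⟨e, rfl, hd, h.1, h.2.1, ?_⟩)
          rw [← above_sw hd h.2.1, show (!l.1) = l'.1 by revert hc; cases l.1 <;> cases l'.1 <;> simp]
          exact e1
    · exact Or.inl ⟨[], l, _, rfl, hd⟩

/-- First half of a period. -/
def hA (e : Bool) (x y w : QA × ℤ) : List Lt :=
  [(true, Tg.ph e x.1 x.2), (false, Tg.pv e y.1 y.2), (true, Tg.ph (!e) w.1 w.2)]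

/-- Second half of a period. -/
def hC (e : Bool) (x y w : QA × ℤ) : List Lt :=
  [(false, Tg.ph (!e) x.1 x.2), (true, Tg.pv e y.1 y.2), (false, Tg.ph e w.1 w.2)]

theorem form_l {l : Lt} {u v z : Bool} (h1 : l.1 = false) (h2 : l.2.dd = false) (h3 : l.2.Good)
    (h4 : Fits l (u, v, z)) : ∃ x : QA × ℤ, KK x.2 x.1 ∧
      l = (false, if u = v then Tg.pv v x.1 x.2 else Tg.ph v x.1 x.2) := by
  obtain ⟨c, t⟩ := l
  cases h1
  rcases t with ⟨a, x, n⟩ | ⟨a, x, n⟩ | _ | _
  · obtain ⟨rfl, rfl⟩ := h4; exact ⟨(x, n), h3, by simp [Tg.c, Tg.d]⟩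
  · obtain ⟨rfl, rfl⟩ := h4; exact ⟨(x, n), h3, by simp [Tg.c, Tg.d]⟩
  · cases h2
  · cases h2

theorem form_r {l : Lt} {u v z : Bool} (h1 : l.1 = true) (h2 : l.2.dd = false) (h3 : l.2.Good)
    (h4 : Fits l (z, u, v)) : ∃ x : QA × ℤ, KK x.2 x.1 ∧
      l = (true, if u = v then Tg.pv v x.1 x.2 else Tg.ph v x.1 x.2) := by
  obtain ⟨c, t⟩ := l
  cases h1
  rcases t with ⟨a, x, n⟩ | ⟨a, x, n⟩ | _ | _
  · obtain ⟨rfl, rfl⟩ := h4; exact ⟨(x, n), h3, by simp [Tg.c, Tg.d]⟩
  · obtain ⟨rfl, rfl⟩ := h4; exact ⟨(x, n), h3, by simp [Tg.c, Tg.d]⟩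
  · cases h2
  · cases h2

theorem ap_block {e : Bool} {L : List Lt} (h : AP (e, !e, e) true L (e, !e, e) true) :
    L = [] ∨ ∃ x y w x' y' w' : QA × ℤ, ∃ M, KK x.2 x.1 ∧ KK y.2 y.1 ∧ KK w.2 w.1 ∧
      KK x'.2 x'.1 ∧ KK y'.2 y'.1 ∧ KK w'.2 w'.1 ∧ L = hA e x y w ++ hC e x' y' w' ++ M ∧
      AP (e, !e, e) true M (e, !e, e) true := by
  rcases L with _ | ⟨l1, _ | ⟨l2, _ | ⟨l3, _ | ⟨l4, _ | ⟨l5, _ | ⟨l6, M⟩⟩⟩⟩⟩⟩
  · exact Or.inl rfl
  · simp [AP] at h
  · cases e <;> simp [AP, sw] at h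
  · simp [AP] at h
  · cases e <;> simp [AP, sw] at h
  · simp [AP] at h
  · right
    simp only [AP, sw, Bool.not_true, Bool.not_false] at h
    obtain ⟨a1, a2, a3, a4, b1, b2, b3, b4, c1, c2, c3, c4, d1, d2, d3, d4, e1, e2, e3, e4,
      f1, f2, f3, f4, h⟩ := h
    obtain ⟨x, k1, rfl⟩ := form_r a1 a2 a3 a4
    obtain ⟨y, k2, rfl⟩ := form_l b1 b2 b3 b4
    obtain ⟨w, k3, rfl⟩ := form_r c1 c2 c3 c4
    obtain ⟨x', k4, rfl⟩ := form_l d1 d2 d3 d4
    obtain ⟨y', k5, rfl⟩ := form_r e1 e2 e3 e4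
    obtain ⟨w', k6, rfl⟩ := form_l f1 f2 f3 f4
    exact ⟨x, y, w, x', y', w', M, k1, k2, k3, k4, k5, k6, by simp [hA, hC], h⟩

theorem PP_hA (s e : Bool) (x y w : QA × ℤ) : PP s (hA e x y w) =
    ⟨x.1.im * (y.1 * w.1).im, x.1.im * y.1.im * w.1.im, (x.1 * y.1 * w.1).im,
      (x.1 * y.1).im * w.1.im, x.1.im * (y.1.re + y.1.im * tq (!(e == s))) * w.1.im,
      x.1.im * (y.1.re + y.1.im * tq (e == s)) * w.1.im⟩ := by
  have hq := qp
  cases s <;> cases e <;> ext1 <;>
    simp [hA, PP, mat, M6.mul, M6.one, Tg.N, Tg.S, Tg.W, Tg.E, tq, tw, QuadraticAlgebra.re_mul,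
      QuadraticAlgebra.im_mul] <;>
    first | ring1 | (left; ring1) | linear_combination (- x.1.im * y.1.im * w.1.im) * hq

theorem PP_hC (s e : Bool) (x y w : QA × ℤ) : PP s (hC e x y w) =
    ⟨(x.1 * y.1).im * w.1.im, (x.1 * y.1 * w.1).im, x.1.im * y.1.im * w.1.im,
      x.1.im * (y.1 * w.1).im, x.1.im * (y.1.re + y.1.im * tq (e == s)) * w.1.im,
      x.1.im * (y.1.re + y.1.im * tq (!(e == s))) * w.1.im⟩ := by
  have hq := qp
  cases s <;> cases e <;> ext1 <;>
    simp [hC, PP, mat, M6.mul, M6.one, Tg.N, Tg.S, Tg.W, Tg.E, tq, tw, QuadraticAlgebra.re_mul,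
      QuadraticAlgebra.im_mul] <;>
    first | ring1 | (left; ring1) | linear_combination (- x.1.im * y.1.im * w.1.im) * hq

theorem wt_block (e : Bool) (x y w x' y' w' : QA × ℤ) (M : List Lt)
    (h : tl M = none ∨ tl M = some (true, false)) :
    wt (hA e x y w ++ hC e x' y' w' ++ M) = x.2 + y.2 + w.2 + x'.2 + y'.2 + w'.2 - 2 + wt M ∧
      tl (hA e x y w ++ hC e x' y' w' ++ M) = some (true, false) := by
  rcases h with h | h <;> simp [hA, hC, wt, tl, gen, Tg.sm, Tg.n, h, tmul, loop] <;> ring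

/-- Graded matrices. -/
def GM (b : ℤ) (X : M6) : Prop :=
  Trap b X.a ∧ Trap (b + 1) X.b ∧ Trap (b + 1) X.c ∧ Trap (b + 2) X.d

theorem GM.mul {b b' : ℤ} {X Y : M6} (h : GM b X) (h' : GM b' Y) : GM (b + b' + 2) (X.mul Y) :=
  ⟨((h.1.mul h'.1).add' (h.2.1.mul h'.2.2.1) (Or.inr (by ring))).cast (by ring),
    ((h.1.mul h'.2.1).add' (h.2.1.mul h'.2.2.2) (Or.inr (by ring))).cast (by ring),
    ((h.2.2.1.mul h'.1).add' (h.2.2.2.mul h'.2.2.1) (Or.inr (by ring))).cast (by ring),
    ((h.2.2.1.mul h'.2.1).add' (h.2.2.2.mul h'.2.2.2) (Or.inr (by ring))).cast (by ring)⟩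

theorem gm_block (s e : Bool) {x y w x' y' w' : QA × ℤ} (k1 : KK x.2 x.1) (k2 : KK y.2 y.1)
    (k3 : KK w.2 w.1) (k4 : KK x'.2 x'.1) (k5 : KK y'.2 y'.1) (k6 : KK w'.2 w'.1) :
    GM (x.2 + y.2 + w.2 + x'.2 + y'.2 + w'.2 - 4) (PP s (hA e x y w ++ hC e x' y' w')) := by
  rw [PP_append, PP_hA, PP_hC]
  have a1 := k1.im.mul (k2.mul k3).im
  have a2 := (k1.im.mul k2.im).mul k3.im
  have a3 := ((k1.mul k2).mul k3).im
  have a4 := (k1.mul k2).im.mul k3.im
  have c1 := (k4.mul k5).im.mul k6.im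
  have c2 := ((k4.mul k5).mul k6).im
  have c3 := (k4.im.mul k5.im).mul k6.im
  have c4 := k4.im.mul (k5.mul k6).im
  exact ⟨((a1.mul c1).add (a2.mul c3) (Or.inr (by ring))).cast (by ring),
    ((a1.mul c2).add (a2.mul c4) (Or.inr (by ring))).cast (by ring),
    ((a3.mul c1).add (a4.mul c3) (Or.inr (by ring))).cast (by ring),
    ((a3.mul c2).add (a4.mul c4) (Or.inr (by ring))).cast (by ring)⟩

theorem gm_rest (s : Bool) {e : Bool} {L : List Lt} (h : AP (e, !e, e) true L (e, !e, e) true) :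
    (tl L = none ∨ tl L = some (true, false)) ∧
      ∀ b X, GM b X → GM (b + wt L) (X.mul (PP s L)) := by
  induction hn : L.length using Nat.strong_induction_on generalizing L with
  | _ n ih =>
  rcases ap_block h with rfl | ⟨x, y, w, x', y', w', M, k1, k2, k3, k4, k5, k6, rfl, h2⟩
  · exact ⟨Or.inl rfl, fun b X hX => by simpa [PP, wt, M6.mul_one'] using hX⟩
  · obtain ⟨i1, i2⟩ := ih M.length (by rw [← hn]; simp [hA, hC]; omega) h2 rfl
    obtain ⟨e1, e2⟩ := wt_block e x y w x' y' w' M i1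
    refine ⟨Or.inr e2, fun b X hX => ?_⟩
    have := i2 _ _ (hX.mul (gm_block s e k1 k2 k3 k4 k5 k6))
    rw [e1, PP_append, ← M6.mul_assoc']
    convert this using 1; ring

theorem im_step (u v a b c : QA) (ha : a = om * u) (hb : b = om * v) (hc : c = om * u * v) :
    a.im * b.im = u.im * v.im + c.im := by
  subst ha hb hc
  simp only [om, QuadraticAlgebra.re_mul, QuadraticAlgebra.im_mul]; ring

theorem block_step (s e : Bool) (x w x' w' : QA × ℤ) (y y' : QA) (n n' m m' : ℤ) (Z : M6) :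
    ((PP s (hA e x (om * y, n) w ++ hC e x' (om * y', n') w')).mul Z).val =
      ((PP s (hA e x (y, m) w ++ hC e x' (y', m') w')).mul Z).val +
      (((⟨x.1.im * w'.1.im * (om * y * y' * (w.1 * x'.1)).im +
          x.1.im * w.1.im * x'.1.im * w'.1.im * (om * y * y').im,
        x.1.im * (om * y * y' * (w.1 * x'.1 * w'.1)).im +
          x.1.im * w.1.im * x'.1.im * (om * y * y' * w'.1).im,
        w'.1.im * (om * y * y' * (x.1 * w.1 * x'.1)).im +
          w.1.im * x'.1.im * w'.1.im * (om * y * y' * x.1).im,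
        (om * y * y' * (x.1 * w.1 * x'.1 * w'.1)).im +
          w.1.im * x'.1.im * (om * y * y' * (x.1 * w'.1)).im, 0, 0⟩ : M6).mul Z).val) := by
  have h1 := tq_mul (e == s)
  have h2 := tq_add (e == s)
  simp only [PP_append, PP_hA, PP_hC]
  generalize tq (e == s) = P at *
  generalize tq (!(e == s)) = Q at *
  obtain ⟨x, -⟩ := x
  obtain ⟨w, -⟩ := w
  obtain ⟨x', -⟩ := x'
  obtain ⟨w', -⟩ := w'
  have a1 := im_step (y * w) (x' * y') (om * y * w) (x' * (om * y'))
    (om * y * y' * (w * x')) (by ring) (by ring) (by ring)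
  have a2 := im_step y y' (om * y) (om * y') (om * y * y') rfl rfl rfl
  have a3 := im_step (y * w) (x' * y' * w') (om * y * w) (x' * (om * y') * w')
    (om * y * y' * (w * x' * w')) (by ring) (by ring) (by ring)
  have a4 := im_step y (y' * w') (om * y) (om * y' * w') (om * y * y' * w') rfl (by ring) (by ring)
  have a5 := im_step (x * y * w) (x' * y') (x * (om * y) * w) (x' * (om * y'))
    (om * y * y' * (x * w * x')) (by ring) (by ring) (by ring)
  have a6 := im_step (x * y) y' (x * (om * y)) (om * y') (om * y * y' * x) (by ring) rfl (by ring)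
  have a7 := im_step (x * y * w) (x' * y' * w') (x * (om * y) * w) (x' * (om * y') * w')
    (om * y * y' * (x * w * x' * w')) (by ring) (by ring) (by ring)
  have a8 := im_step (x * y) (y' * w') (x * (om * y)) (om * y' * w')
    (om * y * y' * (x * w')) (by ring) (by ring) (by ring)
  have b1 : ∀ z : QA, (om * z).re + (om * z).im * P = P * (z.re + z.im * P) := fun z => by
    rw [om_re, om_im]; linear_combination (z.im * P) * (- h2) + z.im * h1
  have b2 : ∀ z : QA, (om * z).re + (om * z).im * Q = Q * (z.re + z.im * Q) := fun z => by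
    rw [om_re, om_im]; linear_combination (z.im * Q) * (- h2) + z.im * h1
  simp only [M6.mul, M6.val, b1, b2]
  linear_combination (Z.a * x.im * w'.im) * a1 + (Z.a * x.im * w.im * x'.im * w'.im) * a2 +
    (Z.c * x.im) * a3 + (Z.c * x.im * w.im * x'.im) * a4 + (Z.b * w'.im) * a5 +
    (Z.b * w.im * x'.im * w'.im) * a6 + Z.d * a7 + (Z.d * w.im * x'.im) * a8 -
    (x.im * w.im * x'.im * w'.im * (y.re + y.im * Q) * (y'.re + y'.im * P) * Z.m0 +
      x.im * w.im * x'.im * w'.im * (y.re + y.im * P) * (y'.re + y'.im * Q) * Z.m2) * h1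

end Pool.Agent.Lib.MP_bb8a0f_gt
end

-- part Pool.Agent.Lib.MP_bb8a0f_gt.Flux
section

/-! Closures of words with one reversed strand, and the closed tangle. -/

namespace Pool.Agent.Lib.MP_bb8a0f_gt

open LaurentPolynomial

theorem Gk.ins {s : Bool} {κ : R} {u v : List Lt} (c a : Bool) (h : Gk s κ (u ++ v)) :
    Gk s κ (u ++ (c, Tg.pv a (om ^ 0) (0 : ℕ)) :: v) := by
  apply Gk.rot
  obtain ⟨z, h1, h2⟩ := h.rot
  refine ⟨z, ?_, ?_⟩
  · rw [List.cons_append, deg_vert rfl]; simpa [Tg.n] using h1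
  · rw [List.cons_append, PP, pow_zero, mat_pv_one, M6.one_mul']; exact h2

theorem sub_pos {s : Bool} {u v : List Lt} {c a : Bool} {x : QA} {n : ℤ} (hx : KK n x)
    (h : ∀ p : ℕ, Gk s 1 (u ++ (c, Tg.pv a (om ^ p) p) :: v)) :
    Gk s 1 (u ++ (c, Tg.pv a x n) :: v) := by
  apply Gk.rot
  refine sub_head one_ne_zero hx (Or.inr ?_) fun p => by simpa using (h (p + 1)).rot
  obtain ⟨z, h1, h2⟩ := (h 0).rot
  rw [List.cons_append, deg_vert rfl] at h1
  rw [List.cons_append, PP, pow_zero, mat_pv_one, M6.one_mul'] at h2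
  exact ⟨z, by simpa [Tg.n] using h1, h2⟩

theorem ap_zero {s e : Bool} {L : List Lt} (ih : IH s L.length)
    (h : AP (e, !e, e) true L (e, !e, e) true) (hL : L ≠ []) : Gk s 1 L := by
  rcases ap_block h with rfl | ⟨x, y, w, x', y', w', M, k1, k2, k3, k4, k5, k6, rfl, h2⟩
  · exact (hL rfl).elim
  obtain ⟨i1, i2⟩ := gm_rest s h2
  have base : ∀ u v : List Lt, Path (e, e, !e) u (e, e, !e) → Path (!e, e, e) v (!e, e, e) →
      u.length + v.length ≤ 1 → Gk s 1 ((true, Tg.ph e x.1 x.2) :: u ++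
        (true, Tg.ph (!e) w.1 w.2) :: (false, Tg.ph (!e) x'.1 x'.2) :: (v ++
        (false, Tg.ph e w'.1 w'.2) :: M)) := by
    intro u v hu hv hl
    refine ih (e, !e, e) _ (by simp [hA, hC]; omega) ⟨⟨k1, ⟨rfl, rfl⟩, path_append.2 ⟨_, hu, k3,
      by simp [Fits, Tg.c, Tg.d], k4, by simp [Fits, above, Tg.a, Tg.b, Tg.c, Tg.d],
      path_append.2 ⟨(!e, e, e), by simpa [above, Tg.a, Tg.b] using hv, k6, ⟨rfl, rfl⟩,
        h2.path⟩⟩⟩, by simp, by simp [has_cons, has_append], by simp [has_cons]⟩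
  have A : ∀ p p' : ℕ, Gk s 1 (hA e x (om ^ p, p) w ++ hC e x' (om ^ p', p') w' ++ M) := by
    intro p
    induction p with
    | zero =>
      intro p'
      refine Gk.ins (u := [_]) false e ?_
      cases p' with
      | zero => exact Gk.ins (u := [_, _, _]) true e (base [] [] rfl rfl (by simp))
      | succ p' =>
        exact base [] [(true, Tg.pv e (om ^ (p' + 1)) (p' + 1 : ℕ))] rfl
          ⟨kk_pow p', ⟨rfl, rfl⟩, rfl⟩ (by simp)
    | succ p ihp =>
      intro p'
      cases p' with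
      | zero =>
        exact Gk.ins (u := [_, _, _, _]) true e
          (base [(false, Tg.pv e (om ^ (p + 1)) (p + 1 : ℕ))] []
            ⟨kk_pow p, ⟨rfl, rfl⟩, rfl⟩ rfl (by simp))
      | succ p' =>
        obtain ⟨z, a1, a2⟩ := ihp p'
        refine ⟨_, ?_, one_mul _⟩
        rw [one_mul, PP_append] at a2
        rw [PP_append, pow_succ' om p, pow_succ' om p', block_step s e x w x' w' _ _ _ _ p p', ← a2]
        have k0 : KK (p + p' + 1) (om * om ^ p * om ^ p') := by
          have := kk_pow (p + p')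
          rw [pow_succ', pow_add, ← mul_assoc] at this
          exact this.cast (by push_cast; ring)
        have g := i2 (x.2 + w.2 + x'.2 + w'.2 + p + p' - 2) _ (show GM _ ⟨_, _, _, _, 0, 0⟩ from
          ⟨(((k1.im.mul k6.im).mul (k0.mul (k3.mul k4)).im).add
              ((((k1.im.mul k3.im).mul k4.im).mul k6.im).mul k0.im) (Or.inr (by ring))).cast
              (by ring),
            ((k1.im.mul (k0.mul ((k3.mul k4).mul k6)).im).add
              (((k1.im.mul k3.im).mul k4.im).mul (k0.mul k6).im) (Or.inr (by ring))).cast (by ring),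
            ((k6.im.mul (k0.mul ((k1.mul k3).mul k4)).im).add
              (((k3.im.mul k4.im).mul k6.im).mul (k0.mul k1).im) (Or.inr (by ring))).cast (by ring),
            ((k0.mul (((k1.mul k3).mul k4).mul k6)).im.add
              ((k3.im.mul k4.im).mul (k0.mul (k1.mul k6)).im) (Or.inr (by ring))).cast (by ring)⟩)
        have g2 := g.1.add' g.2.2.2 (Or.inr (by ring))
        rw [deg, (wt_block _ _ _ _ _ _ _ _ i1).1, (wt_block _ _ _ _ _ _ _ _ i1).2] at a1 ⊢
        have g3 := a1.add' g2 (Or.inr (by simp [cl]; ring))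
        convert g3 using 1
        · simp [cl]; ring
        · simp [M6.val, M6.mul]
  exact sub_pos (u := [_]) k2 fun p => sub_pos (u := [_, _, _, _]) k5 fun p' => A p p'

theorem ap_all {s : Bool} {k : ℕ} (ih : IH s k) (p : Pat) (c : Bool)
    (hp : ¬ (p.1 = p.2.1 ∧ p.2.1 = p.2.2)) :
    ∀ L : List Lt, L.length = k → AP p c L p c → L ≠ [] → Gk s 1 L := by
  have step : ∀ p c, (∀ L : List Lt, L.length = k → AP (sw c p) (!c) L (sw c p) (!c) → L ≠ [] →
      Gk s 1 L) → ∀ L : List Lt, L.length = k → AP p c L p c → L ≠ [] → Gk s 1 L := by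
    intro p c H L h1 h2 h3
    obtain ⟨l, L, rfl⟩ := List.exists_cons_of_ne_nil h3
    exact Gk.rot (u := [l]) (H _ (by simpa using h1)
      (h2.2.2.2.2.snoc h2.1 h2.2.1 h2.2.2.1 h2.2.2.2.1) (by simp))
  have main : ∀ e : Bool,
      (∀ L : List Lt, L.length = k → AP (e, !e, e) true L (e, !e, e) true → L ≠ [] → Gk s 1 L) ∧
      (∀ L : List Lt, L.length = k → AP (!e, e, e) false L (!e, e, e) false → L ≠ [] → Gk s 1 L) ∧
      (∀ L : List Lt, L.length = k → AP (!e, e, e) true L (!e, e, e) true → L ≠ [] → Gk s 1 L) ∧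
      (∀ L : List Lt, L.length = k → AP (e, !e, e) false L (e, !e, e) false → L ≠ [] → Gk s 1 L) ∧
      (∀ L : List Lt, L.length = k → AP (e, e, !e) true L (e, e, !e) true → L ≠ [] → Gk s 1 L) ∧
      (∀ L : List Lt, L.length = k → AP (e, e, !e) false L (e, e, !e) false → L ≠ [] →
        Gk s 1 L) := by
    intro e
    have h0 : ∀ L : List Lt, L.length = k → AP (e, !e, e) true L (e, !e, e) true → L ≠ [] →
        Gk s 1 L := fun L h1 h2 h3 => ap_zero (h1 ▸ ih) h2 h3
    have h1 := step (!e, e, e) false h0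
    have h2 := step (!e, e, e) true h1
    have h3 := step (e, !e, e) false h2
    have h4 := step (e, e, !e) true h3
    exact ⟨h0, h1, h2, h3, h4, step (e, e, !e) false h4⟩
  have m0 := main false
  have m1 := main true
  obtain ⟨p0, p1, p2⟩ := p
  cases p0 <;> cases p1 <;> cases p2 <;> cases c <;>
    first
    | exact (hp ⟨rfl, rfl⟩).elim
    | exact m0.1 | exact m0.2.1 | exact m0.2.2.1 | exact m0.2.2.2.1 | exact m0.2.2.2.2.1
    | exact m0.2.2.2.2.2
    | exact m1.1 | exact m1.2.1 | exact m1.2.2.1 | exact m1.2.2.2.1 | exact m1.2.2.2.2.1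
    | exact m1.2.2.2.2.2

theorem flux1 (s : Bool) {p : Pat} {L : List Lt} (h : Cy p L) : Gk s 1 L := by
  induction hn : L.length using Nat.strong_induction_on generalizing L p with
  | _ n ih0 =>
  have ih : IH s n := fun p L hl hc => ih0 _ hl hc rfl
  have mm : ∀ u l l' v, (u ++ l :: l' :: v).length = n → Cy p (u ++ l :: l' :: v) → l.1 = l'.1 →
      Gk s 1 (u ++ l :: l' :: v) := by
    intro u l l' v h1 h2 h3
    obtain ⟨r, hr⟩ := h2.rot
    refine Gk.rot (step_m ?_ hr h3)
    convert ih using 1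
    simp at h1 ⊢; omega
  obtain ⟨l, L, rfl⟩ : ∃ l M, L = l :: M := by
    cases L with
    | nil => exact (not_has_nil _ h.2.2.1).elim
    | cons l M => exact ⟨l, M, rfl⟩
  rcases tricho h.1 with ⟨u, l', v, e1, e2⟩ | ⟨u, l', l'', v, e1, e2⟩ | ⟨e, e1⟩
  · rw [e1] at h hn ⊢
    obtain ⟨r, hr⟩ := h.rot
    refine Gk.rot (step_d ?_ hr e2)
    convert ih using 1
    simp at hn ⊢; omega
  · rw [e1] at h hn ⊢
    exact mm u l' l'' v hn h e2
  · by_cases he : e = l.1
    · subst he; exact ap_all ih p _ h.2.1 _ hn e1 (by simp)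
    · obtain ⟨M, l', e2, e3⟩ := e1.last
      have e4 : l'.1 = l.1 := by rw [e3]; revert he; cases e <;> cases l.1 <;> simp
      cases M with
      | nil =>
        obtain ⟨rfl, rfl⟩ := List.cons.inj e2
        have a1 := h.2.2.1
        have a2 := h.2.2.2
        simp only [has_cons, not_has_nil, or_false] at a1 a2
        rw [a1] at a2; cases a2
      | cons m M =>
        obtain ⟨rfl, rfl⟩ := List.cons.inj e2
        obtain ⟨r, hr⟩ := Cy.rot (u := l :: M) (v := [l']) h
        refine Gk.rot (u := l :: M) (v := [l']) (step_m ?_ hr e4)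
        convert ih using 1
        simp at hn ⊢; omega

end Pool.Agent.Lib.MP_bb8a0f_gt
end

-- part Pool.Agent.Lib.MP_bb8a0f_gt.Shut
section

/-! Closing the third strand of a word gives a good tangle. -/

namespace Pool.Agent.Lib.MP_bb8a0f_gt

open LaurentPolynomial

theorem path_flux {p r : Pat} {L : List Lt} (h : Path p L r) :
    p.1.toNat + p.2.1.toNat + p.2.2.toNat = r.1.toNat + r.2.1.toNat + r.2.2.toNat := by
  induction L generalizing p with
  | nil => cases h; rfl
  | cons l L ih =>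
    rw [← ih h.2.2]
    obtain ⟨c, t⟩ := l
    obtain ⟨p0, p1, p2⟩ := p
    have := h.2.1
    cases c <;> cases t <;> obtain ⟨rfl, rfl⟩ := this <;>
      simp only [above, Tg.a, Tg.b, Tg.c, Tg.d] <;> omega

theorem shut_v {s a e : Bool} {L : List Lt} (h : Path (a, a, e) L (a, a, e)) (h1 : Has false L)
    (h2 : Has true L) {x : QA} {κ : R} (hκ : κ = if e = a then kk else 1)
    (e1 : κ * x.im = (PP s L).val)
    (e2 : κ * (x.re + tw * x.im) = tq (a == s) * ((PP s L).a - (PP s L).m2) +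
      tq (!(a == s)) * ((PP s L).d - (PP s L).m0) + (PP s L).c) : KK (deg L + 1) x := by
  have k0 : κ ≠ 0 := by
    rw [hκ]; split_ifs
    · exact kk_ne
    · exact one_ne_zero
  have key : ∀ M, Path (a, a, e) M (a, a, e) → Has false M → Has true M → Gk s κ M := by
    intro M b1 b2 b3
    rw [hκ]; split_ifs with he
    · subst he; exact flux3 s e b1 b2 b3
    · exact flux1 s ⟨b1, fun hh => he hh.2.symm, b2, b3⟩
  refine KK.of_all fun p => ?_
  cases p with
  | zero =>
    obtain ⟨z, a1, a2⟩ := key L h h1 h2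
    rw [pow_zero, one_mul, mul_left_cancel₀ k0 (e1.trans a2.symm)]
    exact a1.cast (by simp)
  | succ p =>
    obtain ⟨z, a1, a2⟩ := key ((false, Tg.pv a (om ^ (p + 1)) (p + 1 : ℕ)) :: L)
      ⟨kk_pow p, ⟨rfl, rfl⟩, h⟩ (has_cons.2 (Or.inr h1)) (has_cons.2 (Or.inr h2))
    have : κ * (om ^ (p + 1) * x).im = κ * z := by
      rw [a2]
      simp only [PP, mat, M6.mul, M6.val, Tg.N, Tg.S, Tg.E, QuadraticAlgebra.im_mul] at e1 ⊢
      linear_combination (om ^ (p + 1)).re * e1 + (om ^ (p + 1)).im * e2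
    rw [mul_left_cancel₀ k0 this]
    rw [deg_vert rfl] at a1
    exact a1.cast (by simp only [Tg.n]; ring)

theorem shut_h {s a e : Bool} {L : List Lt} (h : Path (!a, a, e) L (a, !a, e))
    (h2 : Has true L) :
    KK (deg (cap :: L) + 1) ⟨(PP s L).val - tq (a == s) * (PP s L).c, (PP s L).c⟩ := by
  refine KK.of_all fun p => ?_
  cases p with
  | zero =>
    rw [pow_zero, one_mul]
    exact (rk s h (by simp) (by simp) h2).cast (by simp)
  | succ p =>
    obtain ⟨z, a1, a2⟩ := flux1 s (p := (a, !a, e))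
      (L := (false, Tg.ph (!a) (om ^ (p + 1)) (p + 1 : ℕ)) :: L)
      ⟨⟨kk_pow p, by simp [Fits, Tg.c, Tg.d], by simpa [above, Tg.a, Tg.b] using h⟩, by simp,
        has_cons.2 (Or.inl rfl), has_cons.2 (Or.inr h2)⟩
    rw [one_mul] at a2
    rw [deg_hor rfl, a2] at a1
    have e0 : ((!a) == s) = !(a == s) := by cases a <;> cases s <;> rfl
    convert a1 using 1
    · simp only [Tg.n]; ring
    · simp only [PP, mat, M6.mul, M6.val, Tg.N, Tg.S, Tg.E, QuadraticAlgebra.im_mul, e0,
        ← tq_add (a == s)]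
      ring

theorem shut_d {s a e : Bool} {L : List Lt} (h : Path (a, !a, e) L (a, !a, e)) (h1 : Has false L)
    (h2 : Has true L) : ∃ n, (Tg.dv a (PP s L).c (PP s L).val n).Good ∨
      (Tg.dh a (PP s L).c (PP s L).val n).Good := by
  obtain ⟨z, a1, a2⟩ := flux1 s ⟨h, by simp, h1, h2⟩
  rw [one_mul] at a2
  subst a2
  have a3 := rk s h (by simp) (by simp) h2
  rcases deg_cap L with e1 | e1
  · exact ⟨_, Or.inl ⟨a3, a1.cast (by omega)⟩⟩
  · exact ⟨_, Or.inr ⟨a3.cast e1, a1⟩⟩

/-- The chequerboard sign. -/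
noncomputable def sig : Bool → R
  | true => -1
  | false => 1

/-- Normalisation of the four minors of a two-string tangle. -/
def Raw (s : Bool) (t : Tg) (u rN rS rW rE : R) : Prop :=
  rN = u * tq (!t.a) * t.N s ∧ rS = u * tq (!t.c) * t.S s ∧ rW = u * sig s * t.W s ∧
    rE = u * sig s * (tq (!t.a) * tq (!t.b)) * t.E s

/-- Normalisation of the six minors of a word. -/
def Raw3 (s : Bool) (p r : Pat) (X : M6) (u xd xt x12 x21 x11 x22 : R) : Prop :=
  xd = u * tq (!p.1) * (tq (!p.1) * tq (!p.2.1)) * X.m0 ∧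
  xt = u * tq (!r.1) * (tq (!r.1) * tq (!r.2.1)) * X.m2 ∧
  x12 = u * tq (!p.1) * (tq (!r.1) * tq (!r.2.1)) * X.d ∧
  x21 = - u * (tq (!p.1) * tq (!p.2.1)) * tq (!r.1) * X.a ∧
  x11 = - sig s * u * tq (!p.1) * tq (!r.1) * X.c ∧
  x22 = sig s * u * (tq (!p.1) * tq (!p.2.1)) * (tq (!r.1) * tq (!r.2.1)) * X.b

theorem shut {s a b c d e : Bool} {L : List Lt} (h : Path (c, d, e) L (a, b, e))
    (h1 : Has false L) (h2 : Has true L) {u v xd xt x12 x21 x11 x22 rN rS rW rE : R}
    (hu : u * v = 1) (hR : Raw3 s (c, d, e) (a, b, e) (PP s L) u xd xt x12 x21 x11 x22)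
    (R1 : (tq a - tq a ^ 2 * tq b + tq a ^ 2 * tq b ^ 2 * tq e) * rW =
      tq a * (xt + x11 + x21) + (tq a - tq a ^ 2 * tq b) * (- xt + x12 + x22) -
        tq c * (x11 + x12 - xd) - (tq c - tq c ^ 2 * tq d) * (x21 + x22 + xd))
    (R2 : (tq a - tq a ^ 2 * tq b + tq a ^ 2 * tq b ^ 2 * tq e) * rS =
      tq a * x11 + (tq a - tq a ^ 2 * tq b) * x12 - (tq c - tq c ^ 2 * tq d) * xd)
    (R3 : rN - rS = rE - rW)
    (R4 : (tq a - tq a ^ 2 * tq b) * rW - tq a ^ 2 * tq b * rN = - tq c ^ 2 * tq d * rS) :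
    ∃ t : Tg, t.Good ∧ t.a = a ∧ t.b = b ∧ t.c = c ∧ t.d = d ∧
      Raw s t (- sig s * u * (tq (!a) * tq (!b)) * tq (!e)) rN rS rW rE := by
  have hf := path_flux h
  obtain ⟨rfl, rfl, rfl, rfl, rfl, rfl⟩ := hR
  have hq := qp
  by_cases hab : b = a
  · subst hab
    obtain ⟨rfl, rfl⟩ : c = b ∧ d = b := by
      revert hf; cases b <;> cases c <;> cases d <;> cases e <;> decide
    let W := - v * tq d * tq d * tq e * rW
    let S := - sig s * v * tq d * tq d * tq e * tq d * rS
    have kW : (if e = d then kk else 1) * W = (PP s L).val := by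
      simp only [W, M6.val]
      replace R1 := congrArg (fun z => v * z) R1
      clear R2 R3 R4
      generalize PP s L = X at *
      cases s <;> cases d <;> cases e <;>
        simp only [tq, sig, kk, zz, Bool.not_true, Bool.not_false, if_true, Bool.false_eq_true,
          Bool.true_eq_false, if_false] at * <;>
        generalize (T 1 : R) = q at * <;> generalize (T (-1) : R) = p at * <;> grind
    have kS : (if e = d then kk else 1) * S = (PP s L).c +
        (tq (!(d == s)) - tq (d == s)) * ((PP s L).d - (PP s L).m0) := by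
      simp only [S]
      replace R2 := congrArg (fun z => v * z) R2
      clear R1 R3 R4 kW
      generalize PP s L = X at *
      cases s <;> cases d <;> cases e <;>
        simp only [tq, sig, kk, zz, Bool.not_true, Bool.not_false, if_true, Bool.false_eq_true,
          Bool.true_eq_false, if_false, BEq.rfl, Bool.true_beq, Bool.false_beq] at * <;>
        generalize (T 1 : R) = q at * <;> generalize (T (-1) : R) = p at * <;> grind
    refine ⟨Tg.pv d ⟨S - W * tq (!(d == s)), W⟩ (deg L + 1), shut_v (s := s) h h1 h2 rfl kW ?_,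
      rfl, rfl, rfl, rfl, ?_⟩
    · rw [M6.val] at kW
      linear_combination kS + tq (d == s) * kW -
        (if e = d then kk else 1) * W * tq_add (d == s)
    · simp only [W, S, Raw, Tg.a, Tg.b, Tg.c, Tg.N, Tg.S, Tg.W, Tg.E]
      clear R1 R2 kW kS
      cases s <;> cases d <;> cases e <;>
        simp only [tq, sig, Bool.not_true, Bool.not_false, BEq.rfl, Bool.true_beq,
          Bool.false_beq] at * <;>
        generalize (T 1 : R) = q at * <;> generalize (T (-1) : R) = p at * <;> grind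
  · obtain rfl : b = !a := by revert hab; cases a <;> cases b <;> decide
    by_cases hac : c = a
    · subst hac
      obtain rfl : d = !c := by revert hf; cases c <;> cases d <;> cases e <;> decide
      have key : ∀ t : Tg, t.a = c → t.b = !c → t.c = c → t.N s = (PP s L).c →
          t.S s = (PP s L).c → t.W s = (PP s L).val → t.E s = (PP s L).val →
          Raw s t (- sig s * u * (tq (!c) * tq (!!c)) * tq (!e)) rN rS rW rE := by
        intro t a1 a2 a3 a4 a5 a6 a7
        simp only [Raw, a1, a2, a3, a4, a5, a6, a7, M6.val]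
        generalize PP s L = X at *
        cases s <;> cases c <;> cases e <;>
          simp only [tq, sig, Bool.not_true, Bool.not_false] at * <;>
          generalize (T 1 : R) = q at * <;> generalize (T (-1) : R) = p at * <;> grind
      obtain ⟨n, g | g⟩ := shut_d (s := s) h h1 h2
      · exact ⟨_, g, rfl, rfl, rfl, rfl, key _ rfl rfl rfl rfl rfl rfl rfl⟩
      · exact ⟨_, g, rfl, rfl, rfl, rfl, key _ rfl rfl rfl rfl rfl rfl rfl⟩
    · obtain rfl : c = !a := by revert hac; cases a <;> cases c <;> decide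
      obtain rfl : d = a := by revert hf; cases a <;> cases d <;> cases e <;> decide
      refine ⟨Tg.ph d _ _, shut_h (s := s) h h2, rfl, rfl, rfl, rfl, ?_⟩
      simp only [Raw, Tg.a, Tg.b, Tg.c, Tg.N, Tg.S, Tg.W, Tg.E, M6.val]
      generalize PP s L = X at *
      cases s <;> cases d <;> cases e <;>
        simp only [tq, sig, Bool.not_true, Bool.not_false, BEq.rfl, Bool.true_beq,
          Bool.false_beq] at * <;>
        generalize (T 1 : R) = q at * <;> generalize (T (-1) : R) = p at * <;> grind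

end Pool.Agent.Lib.MP_bb8a0f_gt
end

-- part Pool.Agent.Lib.MP_bb8a0f_gt.Ind
section

/-! The main induction over diagrams. -/

namespace Pool.Agent.Lib.MP_bb8a0f_gt

open LaurentPolynomial ExteriorAlgebra

/-- Fox coefficient of a letter. -/
noncomputable def ce : Bool → R
  | true => 1
  | false => - T (-1)

theorem row_cons {V : Type} [AddCommGroup V] [Module R V] (f : Lab → V) (x : Lab × Bool)
    (l : List (Lab × Bool)) : row f (x :: l) = ce x.2 • f x.1 + tq x.2 • row f l := by
  obtain ⟨x, _ | _⟩ := x <;> simp only [row, ce, tq] <;> module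

theorem phi_ce (e : Bool) : T 1 * phi (ce e) = tq e := by
  have := qp
  cases e
  · rw [ce, map_neg, phi_Tm1, tq]; linear_combination T (-1) * this
  · rw [ce, map_one, tq, mul_one]

theorem phi_tq (e : Bool) : phi (tq e) = - tq e ^ 2 := by
  cases e
  · rw [tq, phi_Tm1]; ring
  · rw [tq, phi_T1]; ring

/-- The standard generators. -/
noncomputable def std (y : Lab) : Lab → R := Pi.single y 1

theorem rel2 (D : Dg 2) (h : D.Ok) :
    (tq (lw D true 0).2 - tq (lw D true 0).2 ^ 2 * tq (lw D true 1).2) *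
        (phi (gg D [] (lw D true 0).1) - phi (gg D [] (lw D false 0).1)) -
      tq (lw D true 0).2 ^ 2 * tq (lw D true 1).2 *
        (phi (gg D [] (lw D true 1).1) - phi (gg D [] (lw D true 0).1)) =
      - tq (lw D false 0).2 ^ 2 * tq (lw D false 1).2 *
        (phi (gg D [] (lw D false 1).1) - phi (gg D [] (lw D false 0).1)) := by
  have h1 : Om std D * ι R _ = 0 := wedge_io_span ((bnd D h std).1 rfl).2
  have h2 := ((sys D std).1 rfl).rep
  have m : ∀ t i, i < 2 → (lw D t i).1 ∈ D.arcs := ends_mem D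
  have h3 := congrArg (· * ι R (std (lw D false 0).1)) h1
  simp only [row_cons, row, smul_zero, add_zero, map_sub, map_add, map_smul, mul_sub, mul_add,
    sub_mul, add_mul, mul_smul_comm, smul_mul_assoc, zero_mul] at h3
  rw [h2 _ (m _ _ (by omega)) _ (m _ _ (by omega)), h2 _ (m _ _ (by omega)) _ (m _ _ (by omega)),
    h2 _ (m _ _ (by omega)) _ (m _ _ (by omega)), h2 _ (m _ _ (by omega)) _ (m _ _ (by omega))]
    at h3
  simp only [smul_smul, ← add_smul, ← sub_smul] at h3
  have h4 := congrArg (fun z => T 1 * phi z) (vol_free (arcs_nodup D) h3)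
  simp only [map_sub, map_add, map_mul, phi_tq, map_zero, mul_zero] at h4
  linear_combination - h4 +
    (phi (gg D [] (lw D false 0).1) - phi (gg D [] (lw D true 0).1)) * phi_ce (lw D true 0).2 -
    tq (lw D true 0).2 ^ 2 *
      (phi (gg D [] (lw D false 0).1) - phi (gg D [] (lw D true 1).1)) * phi_ce (lw D true 1).2 +
    tq (lw D false 0).2 ^ 2 *
      (phi (gg D [] (lw D false 0).1) - phi (gg D [] (lw D false 1).1)) * phi_ce (lw D false 1).2

theorem rel3 (D : Dg 3) (h : D.Ok) : ∀ y ∈ D.arcs, ∀ z ∈ D.arcs,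
    tq (lw D true 0).2 * (phi (gg D y z) - phi (gg D (lw D true 0).1 z) +
        phi (gg D (lw D true 0).1 y)) -
      tq (lw D true 0).2 ^ 2 * tq (lw D true 1).2 *
        (phi (gg D y z) - phi (gg D (lw D true 1).1 z) + phi (gg D (lw D true 1).1 y)) +
      tq (lw D true 0).2 ^ 2 * tq (lw D true 1).2 ^ 2 * tq (lw D true 2).2 *
        (phi (gg D y z) - phi (gg D (lw D true 2).1 z) + phi (gg D (lw D true 2).1 y)) =
    tq (lw D false 0).2 * (phi (gg D y z) - phi (gg D (lw D false 0).1 z) +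
        phi (gg D (lw D false 0).1 y)) -
      tq (lw D false 0).2 ^ 2 * tq (lw D false 1).2 *
        (phi (gg D y z) - phi (gg D (lw D false 1).1 z) + phi (gg D (lw D false 1).1 y)) +
      tq (lw D false 0).2 ^ 2 * tq (lw D false 1).2 ^ 2 * tq (lw D false 2).2 *
        (phi (gg D y z) - phi (gg D (lw D false 2).1 z) + phi (gg D (lw D false 2).1 y)) := by
  intro y hy z hz
  have h1 : Om std D * ι R _ = 0 := wedge_io_span ((bnd D h std).2 rfl).2
  have h2 := ((sys D std).2 rfl).rep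
  have m : ∀ t i, i < 3 → (lw D t i).1 ∈ D.arcs := ends_mem D
  have h3 := congrArg (· * ι R (std y) * ι R (std z)) h1
  simp only [row_cons, row, smul_zero, add_zero, map_sub, map_add, map_smul, mul_sub, mul_add,
    sub_mul, add_mul, mul_smul_comm, smul_mul_assoc, zero_mul] at h3
  rw [h2 _ (m _ _ (by omega)) _ hy _ hz, h2 _ (m _ _ (by omega)) _ hy _ hz,
    h2 _ (m _ _ (by omega)) _ hy _ hz, h2 _ (m _ _ (by omega)) _ hy _ hz,
    h2 _ (m _ _ (by omega)) _ hy _ hz, h2 _ (m _ _ (by omega)) _ hy _ hz] at h3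
  simp only [smul_smul, ← add_smul, ← sub_smul] at h3
  have h4 := congrArg (fun z => T 1 * phi z) (vol_free (arcs_nodup D) h3)
  simp only [map_sub, map_add, map_mul, phi_tq, map_zero, mul_zero] at h4
  generalize phi (gg D y z) = g at *
  linear_combination h4 -
    (g - phi (gg D (lw D true 0).1 z) + phi (gg D (lw D true 0).1 y)) * phi_ce (lw D true 0).2 +
    tq (lw D true 0).2 ^ 2 * (g - phi (gg D (lw D true 1).1 z) + phi (gg D (lw D true 1).1 y)) *
      phi_ce (lw D true 1).2 - tq (lw D true 0).2 ^ 2 * tq (lw D true 1).2 ^ 2 *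
      (g - phi (gg D (lw D true 2).1 z) + phi (gg D (lw D true 2).1 y)) * phi_ce (lw D true 2).2 +
    (g - phi (gg D (lw D false 0).1 z) + phi (gg D (lw D false 0).1 y)) * phi_ce (lw D false 0).2 -
    tq (lw D false 0).2 ^ 2 * (g - phi (gg D (lw D false 1).1 z) + phi (gg D (lw D false 1).1 y)) *
      phi_ce (lw D false 1).2 + tq (lw D false 0).2 ^ 2 * tq (lw D false 1).2 ^ 2 *
      (g - phi (gg D (lw D false 2).1 z) + phi (gg D (lw D false 2).1 y)) * phi_ce (lw D false 2).2

theorem eq_zero_of_neg {x : R} (h : x = - x) : x = 0 := by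
  ext k
  have := congrArg (fun f : R => f.coeff k) h
  simp only [AddMonoidAlgebra.coeff_neg, Finsupp.coe_neg, Pi.neg_apply] at this
  simp only [AddMonoidAlgebra.coeff_zero, Finsupp.coe_zero, Pi.zero_apply]
  omega

/-- The form on differences. -/
noncomputable def chi (G : Lab → Lab → R) (x x' y y' : Lab) : R := G x y - G x' y - G x y' + G x' y'

theorem close_alg {G : Lab → Lab → R} (an : ∀ x y, G x y = - G y x) {t0 t1 t2 b0 b1 b2 : Lab}
    {A C K c : R} {S : List Lab} (m0 : t0 ∈ S) (m2 : t2 ∈ S) (n0 : b0 ∈ S) (n1 : b1 ∈ S)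
    (n2 : b2 ∈ S) (h : ∀ y ∈ S, ∀ z ∈ S, A * (G y z - G t0 z + G t0 y) +
      (K - A) * (G y z - G t1 z + G t1 y) + c * (G y z - G t2 z + G t2 y) =
      C * (G y z - G b0 z + G b0 y) + (K - C) * (G y z - G b1 z + G b1 y) +
        c * (G y z - G b2 z + G b2 y)) :
    (K + c) * ((G b2 t0 - G t2 t0) - (G b2 b0 - G t2 b0)) =
      A * (chi G t1 t0 t2 t1 + chi G b1 b0 t1 t0 + chi G b2 b1 t1 t0) +
        K * (- chi G t1 t0 t2 t1 + chi G b1 b0 t2 t1 + chi G b2 b1 t2 t1) -
        C * (chi G b1 b0 t1 t0 + chi G b1 b0 t2 t1 - chi G b1 b0 b2 b1) -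
        K * (chi G b2 b1 t1 t0 + chi G b2 b1 t2 t1 + chi G b1 b0 b2 b1) ∧
    (K + c) * ((G b2 b1 - G t2 b1) - (G b2 b0 - G t2 b0)) =
      A * chi G b1 b0 t1 t0 + K * chi G b1 b0 t2 t1 - K * chi G b1 b0 b2 b1 := by
  have z : ∀ x, G x x = 0 := fun x => eq_zero_of_neg (an x x)
  have h1 := h t2 m2 t0 m0
  have h2 := h b2 n2 b0 n0
  have h3 := h b1 n1 b0 n0
  simp only [chi, z, an t1 t0, an t2 t0, an b0 t0, an b0 t1, an b0 t2, an b1 t0, an b1 t1,
    an b1 t2, an b2 t0, an b2 t1, an b2 t2, an b1 b0, an b2 b0, an b2 b1] at h1 h2 h3 ⊢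
  constructor
  · linear_combination h1 - h2
  · linear_combination - h3

/-- Trivial units. -/
def Un (u : R) : Prop := ∃ k : ℤ, u = T k ∨ u = - T k

theorem Un.mul {u v : R} (h : Un u) (h' : Un v) : Un (u * v) := by
  obtain ⟨k, rfl | rfl⟩ := h <;> obtain ⟨l, rfl | rfl⟩ := h' <;> refine ⟨k + l, ?_⟩ <;>
    simp only [T_add, mul_neg, neg_mul, neg_neg, true_or, or_true]

theorem un_tq (e : Bool) : Un (tq e) := by cases e <;> exact ⟨_, Or.inl rfl⟩

theorem un_sig (e : Bool) : Un (- sig e) := by cases e <;> exact ⟨0, by simp [sig]⟩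

theorem Un.inv {u : R} (h : Un u) : ∃ v, u * v = 1 := by
  obtain ⟨k, rfl | rfl⟩ := h
  · exact ⟨T (-k), by rw [← T_add, add_neg_cancel, T_zero]⟩
  · exact ⟨- T (-k), by rw [neg_mul_neg, ← T_add, add_neg_cancel, T_zero]⟩

theorem sig_sq (s : Bool) : sig s * sig s = 1 := by cases s <;> simp [sig]

theorem sig_not (s : Bool) : sig (!s) = - sig s := by cases s <;> simp [sig]

/-- The invariant for two strands. -/
def P2 {n : ℕ} (D : Dg n) : Prop := ∃ (s : Bool) (t : Tg) (u : R), Un u ∧ t.Good ∧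
  (∀ τ, (D.ends τ 0).ov = !(τ == s) ∧ (D.ends τ 1).ov = (τ == s)) ∧
  t.a = (lw D true 0).2 ∧ t.b = (lw D true 1).2 ∧ t.c = (lw D false 0).2 ∧
  t.d = (lw D false 1).2 ∧
  Raw s t u (phi (gg D [] (lw D true 1).1) - phi (gg D [] (lw D true 0).1))
    (phi (gg D [] (lw D false 1).1) - phi (gg D [] (lw D false 0).1))
    (phi (gg D [] (lw D true 0).1) - phi (gg D [] (lw D false 0).1))
    (phi (gg D [] (lw D true 1).1) - phi (gg D [] (lw D false 1).1))

/-- The invariant for three strands. -/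
def P3 {n : ℕ} (D : Dg n) : Prop := ∃ (s : Bool) (L : List Lt) (u : R), Un u ∧
  (∀ τ, (D.ends τ 0).ov = !(τ == s) ∧ (D.ends τ 1).ov = (τ == s) ∧ (D.ends τ 2).ov = !(τ == s)) ∧
  Path ((lw D false 0).2, (lw D false 1).2, (lw D false 2).2) L
    ((lw D true 0).2, (lw D true 1).2, (lw D true 2).2) ∧ (∀ c, D.Uses c → Has c L) ∧
  Raw3 s ((lw D false 0).2, (lw D false 1).2, (lw D false 2).2)
    ((lw D true 0).2, (lw D true 1).2, (lw D true 2).2) (PP s L) u
    (chi (fun x y => phi (gg D x y)) (lw D false 1).1 (lw D false 0).1 (lw D false 2).1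
      (lw D false 1).1)
    (chi (fun x y => phi (gg D x y)) (lw D true 1).1 (lw D true 0).1 (lw D true 2).1
      (lw D true 1).1)
    (chi (fun x y => phi (gg D x y)) (lw D false 1).1 (lw D false 0).1 (lw D true 2).1
      (lw D true 1).1)
    (chi (fun x y => phi (gg D x y)) (lw D false 2).1 (lw D false 1).1 (lw D true 1).1
      (lw D true 0).1)
    (chi (fun x y => phi (gg D x y)) (lw D false 1).1 (lw D false 0).1 (lw D true 1).1
      (lw D true 0).1)
    (chi (fun x y => phi (gg D x y)) (lw D false 2).1 (lw D false 1).1 (lw D true 2).1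
      (lw D true 1).1)

theorem p2_cross (s o u : Bool) : P2 (Dg.cross s o u) := by
  have hq := qp
  refine ⟨s, if o = u then Tg.pv o om 1 else Tg.ph (if s then u else o) om 1,
    - sig s * tq true * if o = u then tq o else 1, ((un_sig s).mul (un_tq _)).mul ?_, ?_, ?_, ?_⟩
  · split_ifs
    · exact un_tq _
    · exact ⟨0, by simp⟩
  · split_ifs <;> exact kk_om
  · simp [Dg.ends]
  · cases s <;> cases o <;> cases u <;> refine ⟨rfl, rfl, rfl, rfl, ?_⟩ <;>
      simp [Raw, lw, Dg.ends, gg, xg, Tg.a, Tg.b, Tg.c, Tg.N, Tg.S, Tg.W, Tg.E, om, tq, sig,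
        phi_T1, -T_mul] <;> grind

theorem P2.rot {A : Dg 2} (h : P2 A) : P2 A.rot := by
  obtain ⟨s, t, u, h1, h2, h3, h4, h5, h6, h7, h8, h9, h10, h11⟩ := h
  obtain ⟨e1, e2, e3, e4, e5, e6, e7, e8, -⟩ := Tg.rot_spec s t
  have l1 : lw A.rot true 0 = lw A true 1 := rfl
  have l2 : lw A.rot true 1 = ((lw A false 1).1, !(lw A false 1).2) := by simp [lw, Dg.ends]
  have l3 : lw A.rot false 0 = ((lw A true 0).1, !(lw A true 0).2) := by simp [lw, Dg.ends]
  have l4 : lw A.rot false 1 = lw A false 0 := rfl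
  refine ⟨!s, t.rot, - sig s * u * tq (!t.a), ((un_sig s).mul h1).mul (un_tq _), h2.rot, ?_,
    by rw [e1, l1, h5], by rw [e2, l2, h7], by rw [e3, l3, h4], by rw [e4, l4, h6], ?_⟩
  · intro τ
    have a1 := h3 true
    have a2 := h3 false
    cases τ <;> cases s <;> simp_all [Dg.ends]
  · have f := t.flux
    have g1 := tq_mul t.a
    have g2 := tq_mul t.d
    have g3 := sig_sq s
    simp only [Raw, l1, l2, l3, l4, gg, e1, e2, e3, e5, e6, e7, e8, sig_not, Bool.not_not]
    refine ⟨?_, ?_, ?_, ?_⟩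
    · linear_combination - h11
    · linear_combination - h10 + (sig s * u * t.W s) * g1
    · linear_combination h8 - (u * tq (!t.a) * t.N s) * g3
    · linear_combination h9 - (u * tq (!t.c) * t.S s) * g2 -
        (u * tq t.d * t.S s) * f - (u * tq (!t.a) * tq (!t.b) * tq t.d * t.S s) * g3

theorem P2.comp {A B : Dg 2} (h : P2 A) (h' : P2 B) (m0 : (A.ends false 0).Match (B.ends true 0))
    (m1 : (A.ends false 1).Match (B.ends true 1)) : P2 (A.comp B) := by
  obtain ⟨s, t, u, h1, h2, h3, h4, h5, h6, h7, h8, h9, h10, h11⟩ := h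
  obtain ⟨s', t', u', k1, k2, k3, k4, k5, k6, k7, k8, k9, k10, k11⟩ := h'
  obtain rfl : s' = s := by
    have := m0.1
    rw [(h3 false).1, (k3 true).1] at this
    revert this; cases s <;> cases s' <;> simp
  have e1 : t.c = t'.a := h6.trans (m0.up.trans k4.symm)
  have e2 : t.d = t'.b := h7.trans (m1.up.trans k5.symm)
  obtain ⟨v, b1, b2, b3, b4, b5, b6, b7, b8, b9, -⟩ := Tg.vsum s' h2 k2 e1 e2
  refine ⟨s', v, u * u' * tq (!t'.a), (h1.mul k1).mul (un_tq _), b1, ?_, b2.trans h4, b3.trans h5,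
    b4.trans k6, b5.trans k7, ?_⟩
  · intro τ
    cases τ
    · exact k3 false
    · exact h3 true
  · have f := t.flux
    simp only [lw] at h8 h9 h10 h11 k8 k9 k10 k11
    simp only [Raw, lw, Dg.ends, End.pre, if_true, Bool.false_eq_true, if_false, gg, cg, map_add,
      map_mul, map_sub, b2, b3, b4, b6, b7, b8, b9]
    rw [e1, e2] at f
    rw [e1] at h9
    generalize phi (gg A [] (A.ends true 0).arc) = x0 at *
    generalize phi (gg A [] (A.ends true 1).arc) = x1 at *
    generalize phi (gg A [] (A.ends false 0).arc) = x2 at *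
    generalize phi (gg A [] (A.ends false 1).arc) = x3 at *
    generalize phi (gg B [] (B.ends true 0).arc) = y0 at *
    generalize phi (gg B [] (B.ends true 1).arc) = y1 at *
    generalize phi (gg B [] (B.ends false 0).arc) = y2 at *
    generalize phi (gg B [] (B.ends false 1).arc) = y3 at *
    refine ⟨?_, ?_, ?_, ?_⟩
    · linear_combination (y1 - y0) * h8 + (u * tq (!t.a) * t.N s') * k8
    · linear_combination (y3 - y2) * h9 + (u * tq (!t'.a) * t.S s') * k9
    · linear_combination (y1 - y0) * h10 + (u * sig s' * t.W s') * k8 + (y0 - y2) * h9 +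
        (u * tq (!t'.a) * t.S s') * k10
    · linear_combination (y1 - y0) * h11 + (u * sig s' * (tq (!t.a) * tq (!t.b)) * t.E s') * k8 +
        (y1 - y3) * h9 + (u * tq (!t'.a) * t.S s') * k11 -
        (u * u' * sig s' * tq (!t'.a) * t.S s' * t'.E s') * f

theorem p3_nil (s : Bool) (d : ℕ → Bool) : P3 (Dg.nil s d) := by
  have g0 := tq_mul (d 0)
  have g1 := tq_mul (d 1)
  refine ⟨s, [], tq (d 0) * tq (d 0) * tq (d 1), ((un_tq _).mul (un_tq _)).mul (un_tq _),
    by simp [Dg.ends], by simp [Path, lw, Dg.ends], fun c h => h.elim, ?_⟩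
  simp [Raw3, lw, Dg.ends, chi, gg, PP, M6.one]
  grind

theorem Raw3.left {s e : Bool} {t : Tg} {r : Pat} {X : M6}
    {u u' rN rS rW rE xd xt x12 x21 x11 x22 : R} (h : Raw s t u rN rS rW rE)
    (k : Raw3 s (t.a, t.b, e) r X u' xd xt x12 x21 x11 x22) :
    Raw3 s (t.c, t.d, e) r ((mat s (false, t)).mul X) (u' * u * tq (!t.a)) (rS * xd) (rN * xt)
      (rS * x12) (rN * x21 + rE * x11) (rS * x11) (rN * x22 + rE * x12) := by
  obtain ⟨rfl, rfl, rfl, rfl⟩ := h
  obtain ⟨rfl, rfl, rfl, rfl, rfl, rfl⟩ := k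
  simp only [Raw3, mat, M6.mul, ← t.flux]
  refine ⟨by ring, by ring, by ring, ?_, by ring, by ring⟩
  linear_combination (- u' * u * tq (!t.a) * (tq (!t.a) * tq (!t.b)) * tq (!r.1) * t.E s * X.c) *
    sig_sq s

theorem Raw3.right {s e : Bool} {t : Tg} {r : Pat} {X : M6}
    {u u' rN rS rW rE xd xt x12 x21 x11 x22 : R} (h : Raw (!s) t u rN rS rW rE)
    (k : Raw3 s (e, t.a, t.b) r X u' xd xt x12 x21 x11 x22) :
    Raw3 s (e, t.c, t.d) r ((mat s (true, t)).mul X) (u' * u * tq (!t.a)) (rS * xd) (rN * xt)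
      (rN * x12 - rW * x22) (rS * x21) (rN * x11 - rW * x21) (rS * x22) := by
  obtain ⟨rfl, rfl, rfl, rfl⟩ := h
  obtain ⟨rfl, rfl, rfl, rfl, rfl, rfl⟩ := k
  simp only [Raw3, mat, M6.mul, sig_not]
  refine ⟨by ring, by ring, ?_, by ring, by ring, by ring⟩
  linear_combination (u' * u * tq (!t.a) * tq (!e) * (tq (!r.1) * tq (!r.2.1)) * t.W (!s) * X.b) *
    sig_sq s

theorem P3.left {A : Dg 2} {W : Dg 3} (h : P2 A) (h' : P3 W)
    (an : ∀ x y, gg W x y = - gg W y x) (m0 : (W.ends false 0).Match (A.ends true 0))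
    (m1 : (W.ends false 1).Match (A.ends true 1)) : P3 (A.left W) := by
  obtain ⟨s, t, u, h1, h2, h3, h4, h5, h6, h7, h8⟩ := h
  obtain ⟨s', L, u', k1, k2, k3, k4, k5⟩ := h'
  obtain rfl : s' = s := by
    have := m0.1
    rw [(k2 false).1, (h3 true).1] at this
    revert this; cases s <;> cases s' <;> simp
  have e1 : (lw W false 0).2 = t.a := m0.up.trans h4.symm
  have e2 : (lw W false 1).2 = t.b := m1.up.trans h5.symm
  rw [e1, e2] at k3 k5
  refine ⟨s', (false, t) :: L, u' * u * tq (!t.a), (k1.mul h1).mul (un_tq _), ?_,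
    ⟨h2, ⟨h6, h7⟩, k3⟩, fun c hc => has_cons.2 (hc.imp Eq.symm (k4 c)), ?_⟩
  · intro τ
    cases τ
    · exact ⟨(h3 false).1, (h3 false).2, (k2 false).2.2⟩
    · exact k2 true
  · have z1 := eq_zero_of_neg (an (W.ends false 1).arc (W.ends false 1).arc)
    have := Raw3.left h8 k5
    rw [h6, h7] at this
    convert this using 1 <;> (try rfl) <;>
      simp only [lw, Dg.ends, End.pre, gg, lg, chi, map_sub, map_mul, true_or, or_true, z1,
        map_zero, if_true, Bool.false_eq_true, false_or, OfNat.zero_ne_ofNat, OfNat.one_ne_ofNat,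
        if_false] <;> ring

theorem P3.right {A : Dg 2} {W : Dg 3} (h : P2 A) (h' : P3 W)
    (an : ∀ x y, gg W x y = - gg W y x) (m0 : (W.ends false 1).Match (A.ends true 0))
    (m1 : (W.ends false 2).Match (A.ends true 1)) : P3 (A.right W) := by
  obtain ⟨s, t, u, h1, h2, h3, h4, h5, h6, h7, h8⟩ := h
  obtain ⟨s', L, u', k1, k2, k3, k4, k5⟩ := h'
  obtain rfl : s = !s' := by
    have := m0.1
    rw [(k2 false).2.1, (h3 true).1] at this
    revert this; cases s <;> cases s' <;> simp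
  have e1 : (lw W false 1).2 = t.a := m0.up.trans h4.symm
  have e2 : (lw W false 2).2 = t.b := m1.up.trans h5.symm
  rw [e1, e2] at k3 k5
  refine ⟨s', (true, t) :: L, u' * u * tq (!t.a), (k1.mul h1).mul (un_tq _), ?_,
    ⟨h2, ⟨h6, h7⟩, k3⟩, fun c hc => has_cons.2 (hc.imp Eq.symm (k4 c)), ?_⟩
  · intro τ
    cases τ
    · exact ⟨(k2 false).1, (h3 false).1.trans (by cases s' <;> rfl),
        (h3 false).2.trans (by cases s' <;> rfl)⟩
    · exact k2 true
  · have z1 := eq_zero_of_neg (an (W.ends false 1).arc (W.ends false 1).arc)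
    have := Raw3.right h8 k5
    rw [h6, h7] at this
    convert this using 1 <;> (try rfl) <;>
      simp only [lw, Dg.ends, End.pre, gg, lg, chi, map_sub, map_mul, true_or, or_true, z1,
        map_zero, if_true, Bool.false_eq_true, false_or, OfNat.ofNat_ne_zero, one_ne_zero,
        if_false, Nat.add_one_sub_one, Nat.sub_self] <;> ring

theorem P2.close {W : Dg 3} (h : P3 W) (ok : W.Ok) (u1 : W.Uses false) (u2 : W.Uses true)
    (m : (W.ends true 2).Match (W.ends false 2)) : P2 W.close := by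
  obtain ⟨s, L, u, k1, k2, k3, k4, k5⟩ := h
  have e : (lw W false 2).2 = (lw W true 2).2 := by
    have := m.2
    revert this
    simp only [lw]
    cases (W.ends true 2).out <;> cases (W.ends false 2).out <;> simp
  have r3 := rel3 W ok
  have r2 := rel2 W.close ⟨ok, u1, u2, m⟩
  rw [e] at k3 k5 r3
  obtain ⟨v, hv⟩ := k1.inv
  have hf := path_flux k3
  have f1 : tq (lw W false 0).2 ^ 2 * tq (lw W false 1).2 ^ 2 =
      tq (lw W true 0).2 ^ 2 * tq (lw W true 1).2 ^ 2 ∧
      tq (lw W false 0).2 - tq (lw W false 0).2 ^ 2 * tq (lw W false 1).2 =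
      tq (lw W true 0).2 - tq (lw W true 0).2 ^ 2 * tq (lw W true 1).2 := by
    have hq := qp
    revert hf
    cases (lw W false 0).2 <;> cases (lw W false 1).2 <;> cases (lw W true 0).2 <;>
      cases (lw W true 1).2 <;> simp only [tq, Bool.toNat_true, Bool.toNat_false] <;> intro hf <;>
      first | omega | grind
  have mm : ∀ t i, i < 3 → (lw W t i).1 ∈ W.arcs := ends_mem W
  obtain ⟨R1, R2⟩ := close_alg (G := fun x y => phi (gg W x y))
    (fun x y => by rw [((sys (V := Lab → R) W std).2 rfl).anti x y, map_neg])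
    (t1 := (lw W true 1).1) (A := tq (lw W true 0).2) (C := tq (lw W false 0).2)
    (K := tq (lw W true 0).2 - tq (lw W true 0).2 ^ 2 * tq (lw W true 1).2)
    (c := tq (lw W true 0).2 ^ 2 * tq (lw W true 1).2 ^ 2 * tq (lw W true 2).2)
    (mm true 0 (by omega)) (mm true 2 (by omega)) (mm false 0 (by omega)) (mm false 1 (by omega))
    (mm false 2 (by omega)) (fun y hy z hz => by
      have := r3 y hy z hz
      rw [f1.1] at this
      linear_combination this + (phi (gg W y z) - phi (gg W (lw W false 1).1 z) +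
        phi (gg W (lw W false 1).1 y)) * f1.2)
  obtain ⟨t, b1, b2, b3, b4, b5, b6⟩ := shut (s := s) k3 (k4 _ u1) (k4 _ u2) hv k5
    (rN := phi (gg W.close [] (lw W.close true 1).1) - phi (gg W.close [] (lw W.close true 0).1))
    (rS := phi (gg W.close [] (lw W.close false 1).1) - phi (gg W.close [] (lw W.close false 0).1))
    (rW := phi (gg W.close [] (lw W.close true 0).1) - phi (gg W.close [] (lw W.close false 0).1))
    (rE := phi (gg W.close [] (lw W.close true 1).1) - phi (gg W.close [] (lw W.close false 1).1))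
    (by rw [f1.2, ← R1]; simp only [lw, Dg.ends, End.pre, gg, og, map_sub])
    (by rw [f1.2, ← R2]; simp only [lw, Dg.ends, End.pre, gg, og, map_sub])
    (by ring) r2
  exact ⟨s, t, _, (((un_sig s).mul k1).mul ((un_tq _).mul (un_tq _))).mul (un_tq _), b1,
    fun τ => ⟨(k2 τ).1, (k2 τ).2.1⟩, b2, b3, b4, b5, b6⟩

theorem inv_all {n : ℕ} (D : Dg n) (h : D.Ok) : (n = 2 → P2 D) ∧ (n = 3 → P3 D) := by
  induction D with
  | cross s o u => exact ⟨fun _ => p2_cross s o u, by omega⟩
  | rot A ih => exact ⟨fun _ => ((ih h).1 rfl).rot, by omega⟩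
  | comp A B ihA ihB =>
    exact ⟨fun _ => ((ihA h.1).1 rfl).comp ((ihB h.2.1).1 rfl) h.2.2.1 h.2.2.2, by omega⟩
  | nil s d => exact ⟨by omega, fun _ => p3_nil s d⟩
  | left A W ihA ihW =>
    exact ⟨by omega, fun _ => P3.left ((ihA h.1).1 rfl) ((ihW h.2.1).2 rfl)
      ((sys (V := Lab → R) W std).2 rfl).anti h.2.2.1 h.2.2.2⟩
  | right A W ihA ihW =>
    exact ⟨by omega, fun _ => P3.right ((ihA h.1).1 rfl) ((ihW h.2.1).2 rfl)
      ((sys (V := Lab → R) W std).2 rfl).anti h.2.2.1 h.2.2.2⟩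
  | close W ih =>
    exact ⟨fun _ => P2.close ((ih h.1).2 rfl) h.1 h.2.1 h.2.2.1 h.2.2.2, by omega⟩

end Pool.Agent.Lib.MP_bb8a0f_gt
end

-- part Pool.Agent.Lib.MP_bb8a0f_gt.Fin
section

/-! The elementary ideal and the final statement. -/

namespace Pool.Agent.Lib.MP_bb8a0f_gt

open LaurentPolynomial ExteriorAlgebra

theorem foxAt_eq (x : Lab) (r : List (Lab × Bool)) : foxAt x r = row std r x := by
  induction r with
  | nil => rfl
  | cons p r ih =>
    obtain ⟨y, _ | _⟩ := p <;>
      simp only [foxAt, row, ih, std, Pi.smul_apply, Pi.add_apply, Pi.sub_apply, smul_eq_mul,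
        Pi.single_apply, eq_comm]

theorem minor_eq {m : ℕ} (v : Fin m → Lab → R) (c : Fin m → Lab) (x : Lab) (hx : ∀ j, c j ≠ x) :
    (Matrix.of fun i j => v i (c j)).det =
      detF (Fin.cons x c : Fin (m + 1) → Lab) (ι R (std x) * wedge (List.ofFn v)) := by
  rw [← wedge_cons, ← List.ofFn_cons, detF_wedge, Matrix.det_succ_row_zero, Fin.sum_univ_succ,
    Finset.sum_eq_zero fun j _ => by simp [std, hx j]]
  simp only [Fin.val_zero, pow_zero, Matrix.of_apply, Fin.cons_zero, std, Pi.single_eq_same,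
    mul_one, one_mul, add_zero]
  congr 1

theorem detF_ofFn {m : ℕ} (c : Fin m → Lab) (h : Function.Injective c) :
    detF c (wedge ((List.ofFn c).map std)) = 1 := by
  rw [List.map_ofFn, detF_wedge]
  refine (congrArg Matrix.det ?_).trans Matrix.det_one
  ext1 i j
  rw [Matrix.of_apply, Matrix.one_apply, Function.comp_apply, std, Pi.single_apply]
  simp only [h.eq_iff, eq_comm]

theorem alexI_eq (D : Dg 2) (h : D.Ok) (m0 : (D.ends true 0).Match (D.ends false 0))
    (m1 : (D.ends true 1).Match (D.ends false 1)) :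
    D.alexIdeal = Ideal.span {gg D [] (lw D true 0).1 - gg D [] (lw D false 0).1} := by
  have len := (rels_length D).1
  let l0 := D.rels ++ [glue (D.ends true 0).arc (D.ends false 0).arc]
  have hl : l0.length = D.arcs.length - 1 := by simp only [l0, List.length_append]; simp; omega
  let ρ : Fin (D.arcs.length - 1) → List (Lab × Bool) := fun i => l0[i.1]'(by omega)
  have e1 : List.ofFn (fun i => row std (ρ i)) = l0.map (row std) := by
    apply List.ext_getElem <;> simp [hl, ρ]
  have key : ∀ (c : Fin (D.arcs.length - 1) → Lab) (x : Lab), x ∈ D.arcs → (∀ j, c j ≠ x) →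
      (Matrix.of fun i j => row std (ρ i) (c j)).det =
        (gg D [] (lw D true 0).1 - gg D [] (lw D false 0).1) * (- (-1) ^ l0.length *
          detF (Fin.cons x c : Fin (D.arcs.length - 1 + 1) → Lab) (Vol std D)) := by
    intro c x hx hc
    have h2 := ((sys D std).1 rfl).rep
    rw [minor_eq _ c x hc, e1, io_wedge, List.map_append, wedge_append, List.map_cons,
      List.map_nil, wedge_cons, wedge_nil, mul_one, row_glue, map_sub, mul_sub, sub_mul]
    change detF _ (_ • (Om std D * _ * _ - Om std D * _ * _)) = _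
    rw [h2 _ (ends_mem D _ _ (by omega)) _ hx, h2 _ (ends_mem D _ _ (by omega)) _ hx, ← sub_smul,
      smul_smul, map_smul, smul_eq_mul]
    simp only [List.length_append, List.length_map, List.length_cons, List.length_nil, lw, l0]
    ring
  apply le_antisymm
  · rw [Dg.alexIdeal, Ideal.span_le]
    rintro _ ⟨r, c, hr, hc, rfl⟩
    have sp : ∀ i, row std (r i) ∈ Submodule.span R (Set.range fun k => row std (ρ k)) := by
      have a0 : ∀ w ∈ l0, row std w ∈ Submodule.span R (Set.range fun k => row std (ρ k)) := by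
        intro w hw
        obtain ⟨k, hk, rfl⟩ := List.getElem_of_mem hw
        exact Submodule.subset_span ⟨⟨k, by omega⟩, rfl⟩
      intro i
      have := hr i
      simp only [Dg.linkRels, List.mem_append, List.mem_cons, List.not_mem_nil, or_false] at this
      rcases this with h1 | h1 | h1
      · exact a0 _ (List.mem_append_left _ h1)
      · exact a0 _ (List.mem_append_right _ (by simp [h1]))
      · have a1 : SP std D ≤ Submodule.span R (Set.range fun k => row std (ρ k)) := by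
          rw [SP, Submodule.span_le]
          intro y hy
          obtain ⟨w, hw, rfl⟩ := List.mem_map.1 hy
          exact a0 _ (List.mem_append_left _ hw)
        have a2 := a1 ((bnd D h std).1 rfl).2
        have a3 := a0 _ (List.mem_append_right _ (List.mem_singleton_self _))
        have b0 : (lw D false 0).2 = (lw D true 0).2 := by
          have := m0.2; revert this; simp only [lw]
          cases (D.ends true 0).out <;> cases (D.ends false 0).out <;> simp
        have b1 : (lw D false 1).2 = (lw D true 1).2 := by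
          have := m1.2; revert this; simp only [lw]
          cases (D.ends true 1).out <;> cases (D.ends false 1).out <;> simp
        rw [row_glue] at a3
        simp only [row_cons, row, b0, b1] at a2
        rw [h1, row_glue]
        have a4 := Submodule.smul_mem _
          (tq (!(lw D true 0).2) * if (lw D true 1).2 then 1 else - T 1)
          (Submodule.sub_mem _ a2 (Submodule.smul_mem _ (ce (lw D true 0).2) a3))
        convert a4 using 1
        have g1 := tq_mul (lw D true 0).2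
        have g2 : ce (lw D true 1).2 * (if (lw D true 1).2 then 1 else - T 1) = 1 := by
          have := qp
          cases (lw D true 1).2
          · simp only [ce, Bool.false_eq_true, if_false]; linear_combination this
          · simp [ce]
        generalize (if (lw D true 1).2 then 1 else - T 1 : R) = k at *
        simp only [lw] at *
        match_scalars <;> grind
    choose C hC using fun i => (Submodule.mem_span_range_iff_exists_fun R).1 (sp i)
    have e2 : (Matrix.of fun i j => foxAt (c j) (r i)) =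
        Matrix.of C * Matrix.of fun i j => row std (ρ i) (c j) := by
      ext1 i j
      rw [Matrix.of_apply, foxAt_eq, ← hC, Matrix.mul_apply, Finset.sum_apply]
      rfl
    rw [e2, Matrix.det_mul, SetLike.mem_coe, Ideal.mem_span_singleton]
    refine Dvd.dvd.mul_left ?_ _
    by_cases hi : Function.Injective c
    · obtain ⟨x, hx, hx2⟩ : ∃ x ∈ D.arcs, ∀ j, c j ≠ x := by
        by_contra hh
        push Not at hh
        have := (List.subperm_of_subset (arcs_nodup D) (l₂ := List.ofFn c) fun x hx => by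
          obtain ⟨j, rfl⟩ := hh x hx
          exact List.mem_ofFn.2 ⟨j, rfl⟩).length_le
        rw [List.length_ofFn] at this
        omega
      rw [key c x hx hx2]
      exact Dvd.intro _ rfl
    · obtain ⟨i, j, h1, h2⟩ := Function.not_injective_iff.1 hi
      rw [Matrix.det_zero_of_column_eq h2 fun k => by simp [h1]]
      exact dvd_zero _
  · let c : Fin (D.arcs.length - 1) → Lab := fun j => D.arcs[j.1 + 1]'(by omega)
    have e2 : D.arcs = List.ofFn (Fin.cons (D.arcs[0]'(by omega)) c :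
        Fin (D.arcs.length - 1 + 1) → Lab) := by
      apply List.ext_getElem
      · simp; omega
      · intro i h1 h2
        rw [List.getElem_ofFn]
        cases i <;> rfl
    have inj : Function.Injective (Fin.cons (D.arcs[0]'(by omega)) c :
        Fin (D.arcs.length - 1 + 1) → Lab) := List.nodup_ofFn.1 (e2 ▸ arcs_nodup D)
    have e3 := key c (D.arcs[0]'(by omega)) (List.getElem_mem _)
      (fun j hj => by simpa using (arcs_nodup D).getElem_inj_iff.1 hj)
    have e4 : Vol std D = wedge ((List.ofFn (Fin.cons (D.arcs[0]'(by omega)) c :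
        Fin (D.arcs.length - 1 + 1) → Lab)).map std) := by rw [← e2]; rfl
    rw [e4, detF_ofFn _ inj, mul_one] at e3
    rw [Ideal.span_le, Set.singleton_subset_iff]
    have e5 : (Matrix.of fun i j => row std (ρ i) (c j)).det ∈ D.alexIdeal := by
      refine Ideal.subset_span ⟨ρ, c, fun i => ?_, fun j => List.getElem_mem _, ?_⟩
      · have : ρ i ∈ l0 := List.getElem_mem _
        simp only [l0, Dg.linkRels, List.mem_append, List.mem_cons] at this ⊢
        tauto
      · simp only [foxAt_eq]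
    have := Ideal.mul_mem_right (- (-1) ^ l0.length) _ e5
    rwa [e3, mul_assoc, neg_mul_neg, ← mul_pow, neg_mul_neg, one_mul, one_pow, mul_one] at this

theorem phi_odd (f : R) (k : ℤ) : (phi f).coeff (2 * k + 1) = 0 := by
  induction f using LaurentPolynomial.induction_on' with
  | add p q hp hq =>
    rw [phi.map_add, AddMonoidAlgebra.coeff_add, Finsupp.add_apply, hp, hq, add_zero]
  | C_mul_T n a =>
    rw [phi.map_mul, phi_C, phi_T, ← mul_assoc, ← eq_intCast (C : ℤ →+* R), ← map_mul,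
      ← single_eq_C_mul_T]
    simp only [AddMonoidAlgebra.coeff_single, Finsupp.single_apply]
    rw [if_neg (by omega)]

theorem fox_wheel (D : Dg 2) (h : D.Ok) (m0 : (D.ends true 0).Match (D.ends false 0))
    (m1 : (D.ends true 1).Match (D.ends false 1)) :
    ∃ (n : ℕ) (a : ℕ → ℤ) (k : ℕ),
      D.alexIdeal = Ideal.span {∑ i ∈ Finset.range (n + 1), C (a i) * (- T 1) ^ i} ∧
      0 < a 0 ∧ 0 < a n ∧ Trapezoidal n a k := by
  obtain ⟨s, t, u, h1, h2, -, h4, -, h6, -, -, -, h10, -⟩ := (inv_all D h).1 rfl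
  have b0 : t.a = t.c := by
    rw [h4, h6]
    have := m0.2; revert this; simp only [lw]
    cases (D.ends true 0).out <;> cases (D.ends false 0).out <;> simp
  obtain ⟨n, hn⟩ := h2.trapW s b0
  obtain ⟨n, rfl⟩ := Int.eq_ofNat_of_zero_le hn.nonneg
  have e4 : Tr (n + 1 : ℕ) (asym (T 1 * t.W s)) := by
    rw [← dz_eq_asym hn.1]; exact_mod_cast hn.2
  obtain ⟨k, hk, -⟩ := trap e4 e4.pos e4.top
  have pn : 0 < ps (asym (T 1 * t.W s)) (n + 1 : ℕ) 0 := by simpa [ps] using e4.top
  refine ⟨n, _, k, ?_, pn, ?_, hk⟩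
  · rw [alexI_eq D h m0 m1]
    set g := T 1 * t.W s with hg
    set P : R := ∑ i ∈ Finset.range (n + 1), C (ps (asym g) (n + 1 : ℕ) i) * (- T 1) ^ i with hP
    have a2 : T (-n) * phi P = ∑ i ∈ Finset.range (n + 1),
        C (ps (asym g) (n + 1 : ℕ) i) * T (2 * i + 1 - (n + 1 : ℕ)) := by
      rw [hP, map_sum, Finset.mul_sum]
      refine Finset.sum_congr rfl fun i _ => ?_
      rw [map_mul, phi_C, map_pow, map_neg, phi_T1, neg_neg, ← T_add, T_pow, mul_left_comm, ← T_add]
      congr 2; push_cast; ring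
    have a3 : t.W s = T (-n) * phi P := by
      apply mul_left_cancel₀ zz_ne
      rw [a2, expand e4, hg, map_mul, bar_T, hn.1, zz]; ring
    obtain ⟨j, hj⟩ : Un (u * sig s * T (-n)) := by
      have := (h1.mul (un_sig (!s))).mul ⟨-n, Or.inl rfl⟩
      rwa [sig_not, neg_neg] at this
    rw [← map_sub, a3, ← mul_assoc] at h10
    generalize gg D [] (lw D true 0).1 - gg D [] (lw D false 0).1 = Δ at *
    obtain ⟨ε, h11⟩ : ∃ ε : ℤˣ, phi Δ = ((ε : ℤ) : R) * T j * phi P := by
      rcases hj with hj | hj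
      · exact ⟨1, by rw [h10, hj]; simp⟩
      · exact ⟨-1, by rw [h10, hj]; simp⟩
    rcases Int.even_or_odd' j with ⟨m, rfl | rfl⟩
    · have a4 : phi Δ = phi ((((ε * m.negOnePow : ℤˣ) : ℤ) : R) * T m * P) := by
        rw [h11, map_mul, map_mul, phi_T, map_intCast, ← mul_assoc, ← Int.cast_mul,
          ← Units.val_mul, mul_assoc ε, Int.units_mul_self, mul_one]
      rw [phi_injective a4]
      apply Ideal.span_singleton_mul_left_unit
      exact ((Units.isUnit _).map (Int.castRingHom R)).mul (isUnit_T m)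
    · exfalso
      have a4 : P = 0 := by
        ext i
        have b1 := phi_odd Δ (m + i)
        rw [h11, mul_assoc, ← zsmul_eq_mul, AddMonoidAlgebra.coeff_smul, Finsupp.smul_apply,
          T_mul_coeff, show 2 * (m + i) + 1 - (2 * m + 1) = 2 * i by ring, phi_coeff] at b1
        simpa using b1
      have b2 := e4.top
      rw [← dz_eq_asym hn.1, a3, a4, map_zero, mul_zero, dz_zero] at b2
      exact lt_irrefl _ b2
  · have h3 := ps_full e4.odd (n + 1)
    rw [ps_succ] at h3
    have h4 := e4.odd (n + 1 : ℕ)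
    rw [show -((n + 1 : ℕ) : ℤ) = (n + 1 : ℕ) - 2 * ((n : ℤ) + 1) by push_cast; ring] at h4
    have := e4.top
    omega

end Pool.Agent.Lib.MP_bb8a0f_gt
end
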