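import Mathlib
import Pool.Agent.Lib.MP_bb8a0f_gt.Defs

-- part Pool.Agent.Lib.MP_bb8a0f_gt.Cone
section

/-! Odd integer sequences with an interval of positive values. -/

namespace Pool.Agent.Lib.MP_bb8a0f_gt

open LaurentPolynomial

/-- `D` is odd, vanishes above `N` and off the parity of `N`, and on positive arguments it is
nonnegative with support an interval ending at `N`. -/
structure Tr (N : ℤ) (D : ℤ → ℤ) : Prop where
  pos : 0 < N
  odd : ∀ k, D (-k) = - D k
  nonneg : ∀ k, 0 < k → 0 ≤ D k
  top : 0 < D N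
  above : ∀ k, N < k → D k = 0
  par : ∀ k, ¬ 2 ∣ k - N → D k = 0
  itv : ∀ k, 0 < k → 0 < D k → k + 2 ≤ N → 0 < D (k + 2)

theorem Tr.add {N N' : ℤ} {D D' : ℤ → ℤ} (h : Tr N D) (h' : Tr N' D') (e : N = N' + 2) :
    Tr N (fun k => D k + D' k) where
  pos := h.pos
  odd k := by rw [h.odd, h'.odd]; ring
  nonneg k hk := add_nonneg (h.nonneg k hk) (h'.nonneg k hk)
  top := by rw [h'.above N (by omega)]; simpa using h.top
  above k hk := by rw [h.above k hk, h'.above k (by omega)]; rfl
  par k hk := by rw [h.par k hk, h'.par k (by omega)]; rfl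
  itv k hk h1 h2 := by
    have a1 := h.nonneg (k + 2) (by omega)
    have a2 := h'.nonneg (k + 2) (by omega)
    by_cases c : 0 < D k
    · have := h.itv k hk c h2; omega
    · have c' : 0 < D' k := by have := h.nonneg k hk; omega
      by_cases c2 : k + 2 ≤ N'
      · have := h'.itv k hk c' c2; omega
      · have : 2 ∣ k - N' := by
          by_contra hc; have := h'.par k hc; omega
        have e2 : k + 2 = N := by omega
        have := h.top
        rw [e2] at a2 ⊢; omega

/-- Window sums. -/
def win (D : ℤ → ℤ) (l : ℕ) (i : ℤ) : ℤ := ∑ j ∈ Finset.range l, D (i - l + 1 + 2 * j)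

theorem win_succ (D : ℤ → ℤ) (l : ℕ) (i : ℤ) : win D (l + 1) i = win D l (i - 1) + D (i + l) := by
  rw [win, Finset.sum_range_succ, win]
  congr 1
  · refine Finset.sum_congr rfl fun j _ => ?_
    congr 1; push_cast; ring
  · congr 1; push_cast; ring

theorem win_neg {D : ℤ → ℤ} (h : ∀ k, D (-k) = - D k) (l : ℕ) (i : ℤ) :
    win D l (-i) = - win D l i := by
  rw [win, win, ← Finset.sum_range_reflect, ← Finset.sum_neg_distrib]
  refine Finset.sum_congr rfl fun j hj => ?_
  rw [Finset.mem_range] at hj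
  rw [← h]
  congr 1
  rw [Nat.cast_sub (by omega), Nat.cast_sub (by omega)]; push_cast; ring

theorem win_eq {D : ℤ → ℤ} (h : ∀ k, D (-k) = - D k) (l i : ℕ) :
    win D l i = ∑ j ∈ Finset.range (min i l), D (i + l - 1 - 2 * j) := by
  induction l generalizing i with
  | zero => simp [win]
  | succ l ih =>
    cases i with
    | zero =>
      have := win_neg h (l + 1) 0
      simp only [neg_zero] at this
      simp only [Nat.cast_zero, Nat.zero_min, Finset.range_zero, Finset.sum_empty]
      omega
    | succ i =>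
      rw [win_succ, Nat.succ_min_succ, Finset.sum_range_succ']
      have e : ((i + 1 : ℕ) : ℤ) - 1 = i := by push_cast; ring
      rw [e, ih]
      congr 1
      · refine Finset.sum_congr rfl fun j _ => ?_
        congr 1; push_cast; ring
      · congr 1; push_cast; ring

theorem Tr.win {N : ℤ} {D : ℤ → ℤ} (h : Tr N D) {l : ℕ} (hl : 0 < l) :
    Tr (N + l - 1) (win D l) := by
  have hN := h.pos
  have nn : ∀ i : ℕ, ∀ j ∈ Finset.range (min i l), 0 ≤ D (i + l - 1 - 2 * j) := by
    intro i j hj
    rw [Finset.mem_range] at hj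
    exact h.nonneg _ (by omega)
  have ps : ∀ i j : ℕ, j < min i l → 0 < D (i + l - 1 - 2 * j) →
      0 < Pool.Agent.Lib.MP_bb8a0f_gt.win D l i := by
    intro i j hj hp
    rw [win_eq h.odd]
    exact lt_of_lt_of_le hp (Finset.single_le_sum (nn i) (Finset.mem_range.2 hj))
  refine ⟨by omega, win_neg h.odd l, fun k hk => ?_, ?_, fun k hk => ?_, fun k hk => ?_,
    fun k hk h1 h2 => ?_⟩
  · obtain ⟨i, rfl⟩ := Int.eq_ofNat_of_zero_le hk.le
    rw [win_eq h.odd]; exact Finset.sum_nonneg (nn i)
  · obtain ⟨i, hi⟩ := Int.eq_ofNat_of_zero_le (a := N + l - 1) (by omega)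
    rw [hi]
    refine ps i (l - 1) (by omega) ?_
    have : (i : ℤ) + l - 1 - 2 * ((l - 1 : ℕ) : ℤ) = N := by omega
    rw [this]; exact h.top
  · exact Finset.sum_eq_zero fun j _ => h.above _ (by omega)
  · exact Finset.sum_eq_zero fun j _ => h.par _ (by omega)
  · obtain ⟨i, rfl⟩ := Int.eq_ofNat_of_zero_le hk.le
    rw [win_eq h.odd] at h1
    obtain ⟨j, hj, hj2⟩ : ∃ j ∈ Finset.range (min i l), 0 < D (i + l - 1 - 2 * j) := by
      by_contra hc
      push Not at hc
      exact absurd (Finset.sum_nonpos hc) (not_le.2 h1)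
    rw [Finset.mem_range] at hj
    have e : (i : ℤ) + 2 = ((i + 2 : ℕ) : ℤ) := by push_cast; ring
    rw [e]
    by_cases c : j + 1 < min (i + 2) l
    · refine ps (i + 2) (j + 1) c ?_
      have : ((i + 2 : ℕ) : ℤ) + l - 1 - 2 * ((j + 1 : ℕ) : ℤ) = i + l - 1 - 2 * j := by
        push_cast; ring
      rwa [this]
    · refine ps (i + 2) j (by omega) ?_
      have : ((i + 2 : ℕ) : ℤ) + l - 1 - 2 * (j : ℤ) = i + l - 1 - 2 * j + 2 := by
        push_cast; ring
      rw [this]
      exact h.itv _ (by omega) hj2 (by omega)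

/-- Laurent polynomials over the integers. -/
abbrev R := LaurentPolynomial ℤ

/-- The bar involution as a ring homomorphism. -/
noncomputable def bar : R →+* R := (invert (R := ℤ)).toRingEquiv.toRingHom

@[simp] theorem bar_T (n : ℤ) : bar (T n) = T (-n) := invert_T n

theorem bar_coeff (f : R) (n : ℤ) : (bar f).coeff n = f.coeff (-n) := invert_apply f n

theorem bar_bar (f : R) : bar (bar f) = f := involutive_invert f

theorem T_mul_coeff (m : ℤ) (f : R) (n : ℤ) : (T m * f).coeff n = f.coeff (n - m) := by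
  induction f using LaurentPolynomial.induction_on' with
  | add p q hp hq =>
    rw [mul_add, AddMonoidAlgebra.coeff_add, AddMonoidAlgebra.coeff_add, Finsupp.add_apply,
      Finsupp.add_apply, hp, hq]
  | C_mul_T k a =>
    rw [← mul_assoc, T_mul, mul_T_assoc, ← single_eq_C_mul_T, ← single_eq_C_mul_T]
    simp only [AddMonoidAlgebra.coeff_single, Finsupp.single_apply]
    congr 1
    apply propext
    omega

/-- Antisymmetrisation, as a coefficient function. -/
noncomputable def asym (f : R) (k : ℤ) : ℤ := (f - bar f).coeff k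

theorem asym_add (f g : R) : asym (f + g) = fun k => asym f k + asym g k := by
  ext k
  simp only [asym, map_add, AddMonoidAlgebra.coeff_sub, AddMonoidAlgebra.coeff_add,
    Finsupp.coe_sub, Finsupp.coe_add, Pi.sub_apply, Pi.add_apply]
  ring

theorem asym_eq (f : R) (k : ℤ) : asym f k = f.coeff k - f.coeff (-k) := by
  simp [asym, bar_coeff]

theorem tr_T {p : ℤ} (hp : 0 < p) : Tr p (asym (T p)) := by
  refine ⟨hp, fun k => ?_, fun k hk => ?_, ?_, fun k hk => ?_, fun k hk => ?_,
    fun k hk h1 h2 => ?_⟩ <;> simp only [asym_eq, T_apply] at * <;> split_ifs at * <;> omega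

/-- Quantum integers. -/
noncomputable def qn (l : ℕ) : R := ∑ j ∈ Finset.range l, T ((l : ℤ) - 1 - 2 * j)

theorem qn_succ (l : ℕ) : qn (l + 1) = T l + T (-1) * qn l := by
  rw [qn, Finset.sum_range_succ', qn, Finset.mul_sum, add_comm]
  congr 1
  · congr 1; push_cast; ring
  · refine Finset.sum_congr rfl fun j _ => ?_
    rw [← T_add]; congr 1; push_cast; ring

theorem bar_qn (l : ℕ) : bar (qn l) = qn l := by
  rw [qn, map_sum, ← Finset.sum_range_reflect]
  refine Finset.sum_congr rfl fun j hj => ?_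
  rw [Finset.mem_range] at hj
  rw [bar_T]
  congr 1
  rw [Nat.cast_sub (by omega), Nat.cast_sub (by omega)]; push_cast; ring

theorem asym_qn (l : ℕ) (f : R) : asym (qn l * f) = win (asym f) l := by
  ext k
  rw [asym, map_mul, bar_qn, ← mul_sub, qn, Finset.sum_mul, AddMonoidAlgebra.coeff_sum,
    Finsupp.finsetSum_apply, win]
  refine Finset.sum_congr rfl fun j _ => ?_
  rw [T_mul_coeff, asym]
  congr 1; ring

end Pool.Agent.Lib.MP_bb8a0f_gt
end

-- part Pool.Agent.Lib.MP_bb8a0f_gt.Words
section

/-! Products of the two q-deformed unipotent matrices. -/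

namespace Pool.Agent.Lib.MP_bb8a0f_gt

open LaurentPolynomial Matrix

theorem qp : (T 1 : R) * T (-1) = 1 := by rw [← T_add]; simp

/-- The generators. -/
noncomputable def gm : Bool → Matrix (Fin 2) (Fin 2) R
  | true => !![T 1, 0; 1, T (-1)]
  | false => !![T 1, 1; 0, T (-1)]

/-- Product along a word. -/
noncomputable def MM (w : List Bool) : Matrix (Fin 2) (Fin 2) R := (w.map gm).prod

theorem MM_nil : MM [] = 1 := rfl

theorem MM_cons (b : Bool) (w : List Bool) : MM (b :: w) = gm b * MM w := by simp [MM]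

theorem MM_append (u v : List Bool) : MM (u ++ v) = MM u * MM v := by simp [MM]

theorem t0 (w : List Bool) (j : Fin 2) : MM (true :: w) 0 j = T 1 * MM w 0 j := by
  simp [MM_cons, gm, Matrix.mul_apply, Fin.sum_univ_two]

theorem t1 (w : List Bool) (j : Fin 2) : MM (true :: w) 1 j = MM w 0 j + T (-1) * MM w 1 j := by
  simp [MM_cons, gm, Matrix.mul_apply, Fin.sum_univ_two]

theorem f0 (w : List Bool) (j : Fin 2) : MM (false :: w) 0 j = T 1 * MM w 0 j + MM w 1 j := by
  simp [MM_cons, gm, Matrix.mul_apply, Fin.sum_univ_two]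

theorem f1 (w : List Bool) (j : Fin 2) : MM (false :: w) 1 j = T (-1) * MM w 1 j := by
  simp [MM_cons, gm, Matrix.mul_apply, Fin.sum_univ_two]

/-- `q - q⁻¹`. -/
noncomputable def zz : R := T 1 - T (-1)

theorem bar_zz : bar zz = - zz := by simp [zz]

theorem bar_rel (w : List Bool) :
    MM w 0 0 - zz * MM w 1 0 = bar (MM w 0 0) + zz * bar (MM w 0 1) ∧
    MM w 0 1 - zz * MM w 1 1 = - zz * bar (MM w 0 0) + bar (MM w 0 1) ∧
    zz * MM w 0 0 + MM w 1 0 = bar (MM w 1 0) + zz * bar (MM w 1 1) ∧
    zz * MM w 0 1 + MM w 1 1 = - zz * bar (MM w 1 0) + bar (MM w 1 1) := by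
  have h := qp
  induction w with
  | nil => simp [MM_nil]
  | cons b w ih =>
    obtain ⟨h1, h2, h3, h4⟩ := ih
    cases b <;> simp only [t0, t1, f0, f1, map_add, map_mul, bar_T, neg_neg, zz] at * <;>
      refine ⟨?_, ?_, ?_, ?_⟩
    · linear_combination T (-1) * h1 + h3
    · linear_combination T (-1) * h2 + h4
    · linear_combination T 1 * h3
    · linear_combination T 1 * h4
    · linear_combination T (-1) * h1
    · linear_combination T (-1) * h2
    · linear_combination h1 + T 1 * h3
    · linear_combination h2 + T 1 * h4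

theorem tr_symm (w : List Bool) :
    MM w 0 0 - bar (MM w 0 0) = bar (MM w 1 1) - MM w 1 1 := by
  obtain ⟨h1, -, -, h4⟩ := bar_rel w
  have h5 := congrArg bar h1
  simp only [map_sub, map_mul, map_add, bar_bar, bar_zz] at h5
  linear_combination h4 - h5

theorem swap_rel (w : List Bool) :
    MM (w.map not) 0 0 = bar (MM w 1 1) ∧ MM (w.map not) 1 0 = bar (MM w 0 1) ∧
    MM (w.map not) 0 1 = bar (MM w 1 0) ∧ MM (w.map not) 1 1 = bar (MM w 0 0) := by
  induction w with
  | nil => simp [MM_nil]
  | cons b w ih =>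
    obtain ⟨h1, h2, h3, h4⟩ := ih
    cases b <;> simp only [List.map_cons, Bool.not_true, Bool.not_false, t0, t1, f0, f1, map_add,
      map_mul, bar_T, neg_neg, h1, h2, h3, h4, true_and, and_true] <;> constructor <;> ring

theorem asym_swap (w : List Bool) : asym (MM (w.map not) 0 0) = asym (MM w 0 0) := by
  ext k
  rw [asym, asym, tr_symm w, (swap_rel w).1, bar_bar]

theorem rep_false (l : ℕ) (u : List Bool) :
    MM (List.replicate l false ++ u) 0 0 = T l * MM u 0 0 + qn l * MM u 1 0 ∧
      MM (List.replicate l false ++ u) 1 0 = T (-l) * MM u 1 0 := by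
  induction l with
  | zero => simp [qn]
  | succ l ih =>
    rw [List.replicate_succ, List.cons_append, f0, f1, ih.1, ih.2]
    have e := bar_qn (l + 1)
    rw [qn_succ, map_add, map_mul, bar_qn, bar_T, bar_T, neg_neg, ← qn_succ] at e
    rw [← e]
    push_cast
    rw [T_add, neg_add, T_add]
    constructor <;> ring

theorem split_false (w : List Bool) :
    (∃ l, w = List.replicate l false) ∨ ∃ l v, w = List.replicate l false ++ true :: v := by
  induction w with
  | nil => exact Or.inl ⟨0, rfl⟩
  | cons b w ih =>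
    cases b
    · rcases ih with ⟨l, rfl⟩ | ⟨l, v, rfl⟩
      · exact Or.inl ⟨l + 1, rfl⟩
      · exact Or.inr ⟨l + 1, v, rfl⟩
    · exact Or.inr ⟨0, w, rfl⟩

theorem tr_al (w : List Bool) (p : ℕ) (h : 0 < w.length + p) :
    Tr (w.length + p) (asym (T p * MM w 0 0)) := by
  induction hn : 2 * w.length + p using Nat.strong_induction_on generalizing w p with
  | _ n ih =>
  have step : ∀ v : List Bool, ∀ p' : ℕ, 2 * v.length + (p' + 1) < n →
      Tr ((true :: v).length + p') (asym (T p' * MM (true :: v) 0 0)) := by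
    intro v p' hlt
    have := ih _ hlt v (p' + 1) (by omega) rfl
    rw [t0, ← mul_assoc, ← T_add]
    push_cast at this
    rw [List.length_cons]; push_cast
    rwa [show (v.length : ℤ) + 1 + p' = v.length + (p' + 1) by ring]
  cases w with
  | nil =>
    rw [MM_nil, Matrix.one_apply_eq, mul_one]
    simpa using tr_T (p := p) (by simpa using h)
  | cons b w =>
  cases b with
  | true => exact step w p (by simp at hn; omega)
  | false =>
  cases p with
  | zero =>
    have := step (w.map not) 0 (by simp at hn ⊢; omega)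
    simp only [Nat.cast_zero, T_zero, one_mul] at this ⊢
    rw [← asym_swap]
    simpa using this
  | succ p =>
    rcases split_false w with ⟨l, rfl⟩ | ⟨l, v, rfl⟩
    · have := (rep_false (l + 1) []).1
      rw [List.append_nil, List.replicate_succ] at this
      rw [this, MM_nil]
      simp only [Matrix.one_apply_eq, mul_one, ne_eq, one_ne_zero, not_false_eq_true,
        Matrix.one_apply_ne, mul_zero, add_zero, ← T_add, List.length_cons, List.length_replicate]
      rw [add_comm]
      exact tr_T (by positivity)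
    · have := (rep_false (l + 1) (true :: v)).1
      rw [List.replicate_succ, List.cons_append] at this
      simp only [List.length_cons, List.length_append, List.length_replicate] at hn ⊢
      have e : T ((p + 1 : ℕ) : ℤ) * MM (false :: (List.replicate l false ++ true :: v)) 0 0 =
          T ((p + l + 3 : ℕ) : ℤ) * MM v 0 0 + qn (l + 1) * (T p * MM (false :: v) 0 0) := by
        rw [this, t0, t1, f0]
        push_cast
        rw [show (p : ℤ) + l + 3 = p + 1 + (l + 1) + 1 by ring]
        simp only [T_add]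
        linear_combination (qn (l + 1) * T p * MM v 1 0) * qp
      rw [e, asym_add, asym_qn]
      have h1 := ih _ (by omega) v (p + l + 3) (by omega) rfl
      have h2 := (ih _ (by simp; omega) (false :: v) p (by simp) rfl).win (l := l + 1) (by omega)
      have h3 := h1.add h2 (by simp; omega)
      convert h3 using 1
      push_cast; ring

/-- Exponent sum, `false` counting `+1`. -/
def ex : List Bool → ℤ
  | [] => 0
  | true :: w => ex w - 1
  | false :: w => ex w + 1

theorem ex_append (u v : List Bool) : ex (u ++ v) = ex u + ex v := by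
  induction u with
  | nil => simp [ex]
  | cons b u ih => cases b <;> simp [ex, ih] <;> ring

theorem ex_eq (w : List Bool) : ex w = (w.count false : ℤ) - w.count true := by
  induction w with
  | nil => simp [ex]
  | cons b u ih => cases b <;> simp [ex, ih] <;> ring

theorem ex_swap (w : List Bool) : ex (w.map not) = - ex w := by
  induction w with
  | nil => simp [ex]
  | cons b u ih => cases b <;> simp [ex, ih] <;> ring

/-- The positive state sum. -/
noncomputable def GG : ℤ → List Bool → R
  | _, [] => 0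
  | e, false :: w => GG (e + 1) w
  | e, true :: w => T e * MM w 0 0 + GG (e - 1) w

/-- `q² - 1 + q⁻²`. -/
noncomputable def kk : R := 1 + zz ^ 2

theorem kk_GG (e : ℤ) (w : List Bool) :
    kk * GG e w = T e * (zz * MM w 0 0 + MM w 1 0) - zz * T (e + ex w) := by
  induction w generalizing e with
  | nil => simp [GG, MM_nil, ex]
  | cons b w ih =>
    cases b
    · rw [GG, ih, f0, f1, ex, show e + 1 + ex w = e + (ex w + 1) by ring, T_add e 1, zz]
      ring
    · rw [GG, mul_add, ih, t0, t1, ex, show e - 1 + ex w = e + (ex w - 1) by ring, T_sub e 1,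
        kk, zz]
      ring

theorem kk_asym (w : List Bool) :
    kk * (GG 0 w - bar (GG 0 w)) = zz * (MM w 0 0 + MM w 1 1 - T (ex w) - T (- ex w)) := by
  have h1 := kk_GG 0 w
  have h2 := congrArg bar h1
  have hk : bar kk = kk := by simp [kk, bar_zz]
  simp only [map_sub, map_mul, map_add, bar_zz, hk, bar_T, zero_add, T_zero, one_mul] at h1 h2
  have h3 := (bar_rel w).2.2.1
  have h4 := tr_symm w
  linear_combination h1 - h2 + h3 - zz * h4

/-- Ballot condition. -/
def Ballot : ℤ → List Bool → Prop
  | _, [] => True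
  | e, false :: w => Ballot (e + 1) w
  | e, true :: w => 1 ≤ e ∧ Ballot (e - 1) w

theorem Ballot.mono {e e' : ℤ} {w : List Bool} (h : Ballot e w) (he : e ≤ e') : Ballot e' w := by
  induction w generalizing e e' with
  | nil => trivial
  | cons b w ih =>
    cases b
    · exact ih h (by omega)
    · exact ⟨by have := h.1; omega, ih h.2 (by omega)⟩

theorem Ballot.append {e : ℤ} {u v : List Bool} (h : Ballot e u) (h' : Ballot (e + ex u) v) :
    Ballot e (u ++ v) := by
  induction u generalizing e with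
  | nil => simpa [ex] using h'
  | cons b w ih =>
    cases b
    · exact ih h (h'.mono (by simp only [ex]; omega))
    · exact ⟨h.1, ih h.2 (h'.mono (by simp only [ex]; omega))⟩

theorem exists_rot (w : List Bool) :
    ∃ u v, w = u ++ v ∧ ex u ≤ 0 ∧ Ballot (- ex u) u ∧ Ballot 0 v := by
  induction w with
  | nil => exact ⟨[], [], rfl, le_rfl, trivial, trivial⟩
  | cons b w ih =>
    obtain ⟨u, v, rfl, h1, h2, h3⟩ := ih
    cases b
    · by_cases h : ex u = 0
      · refine ⟨[], false :: (u ++ v), rfl, le_rfl, trivial, ?_⟩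
        exact (h2.mono (by omega)).append (h3.mono (by omega))
      · exact ⟨false :: u, v, rfl, by simp only [ex]; omega,
          h2.mono (by simp only [ex]; omega), h3⟩
    · exact ⟨true :: u, v, rfl, by simp only [ex]; omega,
        ⟨by simp only [ex]; omega, h2.mono (by simp only [ex]; omega)⟩, h3⟩

theorem tr_GG (w : List Bool) (e : ℤ) (h : Ballot e w) :
    (true ∉ w ∧ GG e w = 0) ∨
      (Tr (e + w.length - 1) (asym (GG e w)) ∧ 0 < asym (GG e w) (e + ex w + 1) ∧
        0 ≤ e + ex w) := by
  induction w generalizing e with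
  | nil => exact Or.inl ⟨by simp, rfl⟩
  | cons b w ih =>
    cases b
    · rcases ih (e + 1) h with h1 | h1
      · exact Or.inl ⟨by simpa using h1.1, h1.2⟩
      · right
        rw [GG, ex, List.length_cons]; push_cast
        rw [show e + (w.length + 1) - 1 = e + 1 + w.length - 1 by ring,
          show e + (ex w + 1) = e + 1 + ex w by ring]
        exact h1
    · right
      obtain ⟨p, rfl⟩ := Int.eq_ofNat_of_zero_le (a := e) (by have := h.1; omega)
      have hp := h.1
      have h0 := tr_al w p (by omega)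
      rw [GG, ex, List.length_cons]; push_cast
      rw [show (p : ℤ) + (w.length + 1) - 1 = w.length + p by ring]
      rcases ih _ h.2 with h1 | h1
      · have e1 : ex w = w.length := by
          rw [ex_eq, List.count_eq_zero_of_not_mem h1.1, List.count_eq_length.2]
          · simp
          · intro b hb; cases b
            · rfl
            · exact absurd hb h1.1
        rw [h1.2, add_zero]
        refine ⟨h0, ?_, by omega⟩
        rw [show (p : ℤ) + (ex w - 1) + 1 = w.length + p by omega]
        exact h0.top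
      · rw [asym_add]
        refine ⟨h0.add h1.1 (by ring), ?_, by omega⟩
        have := h0.nonneg (p + (ex w - 1) + 1) (by omega)
        have h2 := h1.2.1
        rw [show (p : ℤ) - 1 + ex w + 1 = p + (ex w - 1) + 1 by ring] at h2
        simp only
        omega

theorem exists_D_aux (w : List Bool) (h1 : true ∈ w) (h2 : 0 ≤ ex w) :
    ∃ g : R, kk * (g - bar g) = zz * (MM w 0 0 + MM w 1 1 - T (ex w) - T (- ex w)) ∧
      Tr (w.length - 1) (asym g) ∧ 0 < asym g (ex w + 1) := by
  obtain ⟨u, v, rfl, a1, a2, a3⟩ := exists_rot w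
  rw [ex_append] at h2
  have hb : Ballot 0 (v ++ u) := a3.append (a2.mono (by omega))
  have e1 : ex (v ++ u) = ex (u ++ v) := by rw [ex_append, ex_append, add_comm]
  have e2 : MM (v ++ u) 0 0 + MM (v ++ u) 1 1 = MM (u ++ v) 0 0 + MM (u ++ v) 1 1 := by
    rw [← Matrix.trace_fin_two, ← Matrix.trace_fin_two, MM_append, MM_append, Matrix.trace_mul_comm]
  refine ⟨GG 0 (v ++ u), by rw [kk_asym, e1, e2], ?_⟩
  rcases tr_GG _ _ hb with h | h
  · exact absurd (by simp at h1 ⊢; tauto) h.1
  · simp only [zero_add, e1, List.length_append, add_comm v.length] at h ⊢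
    exact ⟨h.1, h.2.1⟩

theorem exists_D (w : List Bool) (h1 : true ∈ w) (h2 : false ∈ w) :
    ∃ g : R, kk * (g - bar g) = zz * (MM w 0 0 + MM w 1 1 - T (ex w) - T (- ex w)) ∧
      Tr (w.length - 1) (asym g) ∧ 0 < asym g (|ex w| + 1) := by
  rcases le_total 0 (ex w) with h | h
  · rw [abs_of_nonneg h]; exact exists_D_aux w h1 h
  · obtain ⟨g, a1, a2, a3⟩ := exists_D_aux (w.map not) (by simpa using h2) (by rw [ex_swap]; omega)
    rw [ex_swap] at a1 a3
    rw [abs_of_nonpos h]
    refine ⟨g, ?_, by simpa using a2, a3⟩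
    rw [a1, (swap_rel w).1, (swap_rel w).2.2.2, neg_neg]
    linear_combination (-zz) * tr_symm w

end Pool.Agent.Lib.MP_bb8a0f_gt
end

-- part Pool.Agent.Lib.MP_bb8a0f_gt.Main
section

/-! From Fox calculus to the two by two matrices. -/

namespace Pool.Agent.Lib.MP_bb8a0f_gt

open LaurentPolynomial Matrix
open FreeGroup (of mk Red reduce mk_toWord mul_mk toWord_of lift_apply_of)

/-- Total exponent of a word. -/
def degW : List (Fin 3 × Bool) → ℤ
  | [] => 0
  | (_, true) :: l => 1 + degW l
  | (_, false) :: l => -1 + degW l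

theorem degW_append (u v : List (Fin 3 × Bool)) : degW (u ++ v) = degW u + degW v := by
  induction u with
  | nil => simp [degW]
  | cons x u ih => obtain ⟨i, b⟩ := x; cases b <;> simp [degW, ih, add_assoc]

theorem foxWord_append (u v : List (Fin 3 × Bool)) :
    foxWord (u ++ v) = foxWord u + (T (degW u) : R) • foxWord v := by
  induction u with
  | nil => simp [foxWord, degW]
  | cons x u ih =>
    obtain ⟨i, b⟩ := x
    cases b <;> simp only [List.cons_append, foxWord, degW, ih, T_add, mul_smul] <;> module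

theorem red_inv {u v : List (Fin 3 × Bool)} (h : Red u v) :
    foxWord u = foxWord v ∧ degW u = degW v := by
  induction h with
  | refl => exact ⟨rfl, rfl⟩
  | tail _ h2 ih =>
    obtain @⟨L₁, L₂, x, b⟩ := h2
    rw [ih.1, ih.2, foxWord_append, foxWord_append, degW_append, degW_append]
    have h := qp
    cases b
    · refine ⟨?_, by simp [degW]⟩
      simp only [Bool.not_false, foxWord, add_sub_cancel_left, smul_smul]
      rw [mul_comm (T (-1)), h, mul_one]
    · refine ⟨?_, by simp [degW]⟩
      simp only [Bool.not_true, foxWord, smul_smul, h, one_smul, add_sub_cancel]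

/-- Fox derivative of a group element. -/
noncomputable def fox (g : FreeGroup (Fin 3)) : Fin 3 → R := foxWord g.toWord

/-- Degree of a group element. -/
def dg (g : FreeGroup (Fin 3)) : ℤ := degW g.toWord

theorem fox_mk (l : List (Fin 3 × Bool)) : fox (mk l) = foxWord l ∧ dg (mk l) = degW l := by
  have := red_inv (FreeGroup.reduce.red (L := l))
  exact ⟨this.1.symm, this.2.symm⟩

theorem fox_mul (a b : FreeGroup (Fin 3)) : fox (a * b) = fox a + (T (dg a) : R) • fox b := by
  conv_lhs => rw [← mk_toWord (x := a), ← mk_toWord (x := b), mul_mk, (fox_mk _).1, foxWord_append]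
  rfl

theorem dg_mul (a b : FreeGroup (Fin 3)) : dg (a * b) = dg a + dg b := by
  conv_lhs => rw [← mk_toWord (x := a), ← mk_toWord (x := b), mul_mk, (fox_mk _).2, degW_append]
  rfl

theorem fox_one : fox 1 = 0 := rfl

theorem dg_one : dg 1 = 0 := rfl

theorem fox_of (i : Fin 3) : fox (of i) = Pi.single i 1 := by
  simp [fox, toWord_of, foxWord]

theorem dg_of (i : Fin 3) : dg (of i) = 1 := by simp [dg, toWord_of, degW]

theorem dg_inv (a : FreeGroup (Fin 3)) : dg a⁻¹ = - dg a := by
  have := dg_mul a⁻¹ a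
  rw [inv_mul_cancel, dg_one] at this; omega

theorem fox_inv (a : FreeGroup (Fin 3)) : fox a⁻¹ = - (T (- dg a) : R) • fox a := by
  have := fox_mul a⁻¹ a
  rw [inv_mul_cancel, fox_one, dg_inv] at this
  rw [neg_smul]; exact eq_neg_of_add_eq_zero_left this.symm

theorem dg_act (w : List Bool) (i : Fin 3) : dg (braidAct w (of i)) = 1 := by
  induction w generalizing i with
  | nil => exact dg_of i
  | cons b w ih =>
    cases b <;> fin_cases i <;> simp [braidAct, artin, dg_mul, dg_inv, ih]

/-- The unreduced Burau matrix. -/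
noncomputable def JJ (w : List Bool) (i : Fin 3) : Fin 3 → R := fox (braidAct w (of i))

theorem JJ_true (w : List Bool) : JJ (true :: w) 0 = (1 - T 1 : R) • JJ w 0 + (T 1 : R) • JJ w 1 ∧
    JJ (true :: w) 1 = JJ w 0 ∧ JJ (true :: w) 2 = JJ w 2 := by
  refine ⟨?_, by simp [JJ, braidAct, artin], by simp [JJ, braidAct, artin]⟩
  simp only [JJ, braidAct, artin, MonoidHom.comp_apply, lift_apply_of, cons_val_zero, map_mul,
    map_inv, fox_mul, fox_inv, dg_mul, dg_act, smul_smul, mul_neg, ← T_add]
  norm_num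
  module

theorem JJ_false (w : List Bool) : JJ (false :: w) 0 = JJ w 0 ∧ JJ (false :: w) 1 = JJ w 2 ∧
    JJ (false :: w) 2 = (T (-1) : R) • JJ w 1 + (1 - T (-1) : R) • JJ w 2 := by
  refine ⟨by simp [JJ, braidAct, artin], by simp [JJ, braidAct, artin], ?_⟩
  have e : braidAct (false :: w) (of 2) =
      (braidAct w (of 2))⁻¹ * braidAct w (of 1) * braidAct w (of 2) := by
    simp [braidAct, artin]
  simp only [JJ, e, fox_mul, fox_inv, dg_mul, dg_inv, dg_act]
  norm_num
  module

theorem JJ_nil (i : Fin 3) : JJ [] i = Pi.single i 1 := fox_of i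

theorem JJ_left (w : List Bool) : JJ w 0 + (T 1 : R) • JJ w 1 + (T 1 * T 1 : R) • JJ w 2 =
    ![1, T 1, T 1 * T 1] := by
  induction w with
  | nil => ext1 j; fin_cases j <;> simp [JJ_nil]
  | cons b w ih =>
    rw [← ih]
    cases b
    · obtain ⟨h0, h1, h2⟩ := JJ_false w
      rw [h0, h1, h2]
      ext1 j
      simp only [Pi.add_apply, Pi.smul_apply, smul_eq_mul]
      linear_combination (T 1 * (JJ w 1 j - JJ w 2 j)) * qp
    · obtain ⟨h0, h1, h2⟩ := JJ_true w
      rw [h0, h1, h2]; module

theorem JJ_right (w : List Bool) (i : Fin 3) : JJ w i 0 + JJ w i 1 + JJ w i 2 = 1 := by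
  induction w generalizing i with
  | nil => fin_cases i <;> simp [JJ_nil]
  | cons b w ih =>
    cases b
    · obtain ⟨h0, h1, h2⟩ := JJ_false w
      fin_cases i
      · simpa [h0] using ih 0
      · simpa [h1] using ih 2
      · simp only [Fin.reduceFinMk, h2, Pi.add_apply, Pi.smul_apply, smul_eq_mul]
        linear_combination T (-1) * ih 1 + (1 - T (-1)) * ih 2
    · obtain ⟨h0, h1, h2⟩ := JJ_true w
      fin_cases i
      · simp only [Fin.zero_eta, h0, Pi.add_apply, Pi.smul_apply, smul_eq_mul]
        linear_combination (1 - T 1) * ih 0 + T 1 * ih 1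
      · simpa [h1] using ih 0
      · simpa [h2] using ih 2

theorem alexMat_eq (w : List Bool) (i j : Fin 3) :
    alexMat w i j = JJ w i j - (Pi.single i 1 : Fin 3 → R) j := by
  change fox _ j = _
  rw [fox_mul, fox_inv, dg_act, dg_of, fox_of, smul_smul, mul_neg, qp]
  simp [JJ, sub_eq_add_neg]

/-- The leading minor. -/
noncomputable def dmin (w : List Bool) : R := (JJ w 0 0 - 1) * (JJ w 1 1 - 1) - JJ w 0 1 * JJ w 1 0

theorem alexIdeal_eq (w : List Bool) : alexIdeal w = Ideal.span {dmin w} := by
  apply le_antisymm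
  · rw [alexIdeal, Ideal.span_le]
    rintro _ ⟨r, c, rfl⟩
    let L : Matrix (Fin 3) (Fin 2) R := !![1, 0; 0, 1; - (T (-1) * T (-1)), - T (-1)]
    let N : Matrix (Fin 2) (Fin 2) R := !![JJ w 0 0 - 1, JJ w 0 1; JJ w 1 0, JJ w 1 1 - 1]
    let Q : Matrix (Fin 2) (Fin 3) R := !![1, 0, -1; 0, 1, -1]
    have h := qp
    have l0 := congrFun (JJ_left w) 0
    have l1 := congrFun (JJ_left w) 1
    have r0 := JJ_right w 0
    have r1 := JJ_right w 1
    have r2 := JJ_right w 2
    simp only [Pi.add_apply, Pi.smul_apply, smul_eq_mul, cons_val_zero, cons_val_one] at l0 l1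
    have a0 : JJ w 2 0 = - (T (-1) * T (-1)) * (JJ w 0 0 - 1) - T (-1) * JJ w 1 0 := by
      linear_combination (T (-1) * T (-1)) * l0 -
        (T (-1) * JJ w 1 0 + (T 1 * T (-1) + 1) * JJ w 2 0) * h
    have a1 : JJ w 2 1 = - (T (-1) * T (-1)) * JJ w 0 1 - T (-1) * (JJ w 1 1 - 1) := by
      linear_combination (T (-1) * T (-1)) * l1 -
        (T (-1) * (JJ w 1 1 - 1) + (T 1 * T (-1) + 1) * JJ w 2 1) * h
    have e : alexMat w = L * N * Q := by
      ext1 i j
      rw [alexMat_eq]
      fin_cases i <;> fin_cases j <;>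
        simp [L, N, Q, Matrix.mul_apply, Fin.sum_univ_two]
      · linear_combination r0
      · linear_combination r1
      · linear_combination a0
      · linear_combination a1
      · linear_combination r2 - a0 - a1
    have e2 : (L * N * Q).submatrix r c = L.submatrix r id * N * Q.submatrix id c := by
      rw [submatrix_mul _ _ r id c Function.bijective_id,
        submatrix_mul _ _ r id id Function.bijective_id, submatrix_id_id]
    rw [e, e2, det_mul, det_mul, SetLike.mem_coe, Ideal.mem_span_singleton]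
    have : N.det = dmin w := by simp [N, dmin, det_fin_two]
    rw [this]
    exact Dvd.dvd.mul_right (Dvd.intro_left _ rfl) _
  · rw [Ideal.span_le, Set.singleton_subset_iff]
    refine Ideal.subset_span ⟨![0, 1], ![0, 1], ?_⟩
    rw [det_fin_two]
    simp [alexMat_eq, dmin]

/-- The unit `-q²`. -/
noncomputable def uq : Rˣ := - (unitOfInvertible (T 2 : R))

/-- The substitution `t ↦ -q²`. -/
noncomputable def phi : R →+* R := eval₂ (Int.castRingHom R) uq

theorem uq_val : (uq : R) = - T 2 := rfl

theorem uq_inv : ((uq⁻¹ : Rˣ) : R) = - T (-2) := by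
  apply Units.inv_eq_of_mul_eq_one_right
  rw [uq_val, neg_mul_neg, ← T_add]; simp

theorem phi_T (n : ℤ) : phi (T n) = ((n.negOnePow : ℤ) : R) * T (2 * n) := by
  rw [phi, eval₂_T]
  induction n using Int.induction_on with
  | zero => simp
  | succ i ih =>
    rw [_root_.zpow_add_one, Units.val_mul, ih, Int.negOnePow_succ, mul_add, T_add, uq_val, mul_one,
      Units.val_neg, Int.cast_neg]
    ring
  | pred i ih =>
    rw [_root_.zpow_sub_one, Units.val_mul, ih, Int.negOnePow_sub, mul_sub, T_sub, uq_inv, mul_one,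
      Int.negOnePow_one, mul_neg_one, Units.val_neg, Int.cast_neg]
    ring

theorem phi_T1 : phi (T 1) = - (T 1 * T 1) := by rw [phi_T, ← T_add]; simp

theorem phi_Tm1 : phi (T (-1)) = - (T (-1) * T (-1)) := by rw [phi_T, ← T_add]; simp

theorem phi_C (a : ℤ) : phi (C a) = C a := by rw [phi, eval₂_C]; simp

theorem phi_coeff (f : R) (k : ℤ) : (phi f).coeff (2 * k) = (k.negOnePow : ℤ) * f.coeff k := by
  induction f using LaurentPolynomial.induction_on' with
  | add p q hp hq =>
    rw [map_add, AddMonoidAlgebra.coeff_add, AddMonoidAlgebra.coeff_add, Finsupp.add_apply,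
      Finsupp.add_apply, hp, hq, mul_add]
  | C_mul_T n a =>
    rw [phi.map_mul, phi_C, phi_T, ← mul_assoc, ← eq_intCast (C : ℤ →+* R), ← map_mul,
      ← single_eq_C_mul_T, ← single_eq_C_mul_T]
    simp only [AddMonoidAlgebra.coeff_single, Finsupp.single_apply]
    by_cases h : n = k
    · simp [h, mul_comm]
    · rw [if_neg h, if_neg (by omega), mul_zero]

theorem phi_injective : Function.Injective phi := by
  intro f g h
  ext k
  have h1 := phi_coeff f k
  rw [h, phi_coeff] at h1
  exact (mul_left_cancel₀ (Units.ne_zero _) h1).symm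

theorem phi_JJ (w : List Bool) :
    phi (JJ w 0 0) - phi (JJ w 1 0) = T (- ex w) * MM w 0 0 ∧
    phi (JJ w 0 1) - phi (JJ w 1 1) = T (- ex w) * (T 1 * MM w 0 1 - MM w 0 0) ∧
    phi (JJ w 1 0) - phi (JJ w 2 0) = T (- ex w) * (T (-1) * MM w 1 0) ∧
    phi (JJ w 1 1) - phi (JJ w 2 1) = T (- ex w) * (MM w 1 1 - T (-1) * MM w 1 0) := by
  have h := qp
  induction w with
  | nil => simp [JJ_nil, MM_nil, ex]
  | cons b w ih =>
    obtain ⟨i1, i2, i3, i4⟩ := ih
    cases b
    · obtain ⟨h0, h1, h2⟩ := JJ_false w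
      simp only [h0, h1, h2, f0, f1, ex, neg_add, T_add, Pi.add_apply, Pi.smul_apply, smul_eq_mul,
        map_add, map_mul, map_sub, map_one, phi_Tm1]
      refine ⟨?_, ?_, ?_, ?_⟩
      · linear_combination i1 + i3 - (T (- ex w) * MM w 0 0) * h
      · linear_combination i2 + i4 -
          (T (- ex w) * (T 1 * MM w 0 1 + MM w 1 1 - MM w 0 0)) * h
      · linear_combination (T (-1) * T (-1)) * i3
      · linear_combination (T (-1) * T (-1)) * i4
    · obtain ⟨h0, h1, h2⟩ := JJ_true w
      simp only [h0, h1, h2, t0, t1, ex, neg_sub, sub_eq_add_neg 1 (ex w), T_add, Pi.add_apply,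
        Pi.smul_apply, smul_eq_mul, map_add, map_mul, map_sub, map_one, phi_T1]
      refine ⟨?_, ?_, ?_, ?_⟩
      · linear_combination (T 1 * T 1) * i1
      · linear_combination (T 1 * T 1) * i2
      · linear_combination i1 + i3 - (T (- ex w) * (MM w 0 0 + T (-1) * MM w 1 0)) * h
      · linear_combination i2 + i4 -
          (T (- ex w) * (MM w 1 1 - MM w 0 0 - T (-1) * MM w 1 0)) * h

theorem det_MM (w : List Bool) : MM w 0 0 * MM w 1 1 - MM w 0 1 * MM w 1 0 = 1 := by
  induction w with
  | nil => simp [MM_nil]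
  | cons b w ih =>
    cases b <;> simp only [t0, t1, f0, f1] <;>
      linear_combination ih + (MM w 0 0 * MM w 1 1 - MM w 0 1 * MM w 1 0) * qp

theorem phi_dmin (w : List Bool) :
    kk * phi (dmin w) = - (T 1 * T 1 * T (- ex w)) *
      (MM w 0 0 + MM w 1 1 - T (ex w) - T (- ex w)) := by
  have h := qp
  have he : (T (ex w) : R) * T (- ex w) = 1 := by rw [← T_add]; simp
  obtain ⟨i1, i2, i3, i4⟩ := phi_JJ w
  have l0 := congrArg phi (congrFun (JJ_left w) 0)
  have l1 := congrArg phi (congrFun (JJ_left w) 1)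
  have hd := det_MM w
  simp only [Pi.add_apply, Pi.smul_apply, smul_eq_mul, cons_val_zero, cons_val_one, map_add,
    map_mul, map_one, phi_T1] at l0 l1
  rw [dmin, map_sub, map_mul, map_mul, map_sub, map_sub, map_one, kk, zz]
  generalize phi (JJ w 0 0) = a at *
  generalize phi (JJ w 0 1) = b at *
  generalize phi (JJ w 1 0) = c at *
  generalize phi (JJ w 1 1) = d at *
  generalize phi (JJ w 2 0) = e at *
  generalize phi (JJ w 2 1) = f at *
  generalize (T (- ex w) : R) = s at *
  generalize (T (ex w) : R) = s' at *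
  generalize (T 1 : R) = q at *
  generalize (T (-1) : R) = p at *
  generalize MM w 0 0 = A at *
  generalize MM w 0 1 = B at *
  generalize MM w 1 0 = G at *
  generalize MM w 1 1 = D at *
  have e1 : c = a - s * A := by linear_combination -i1
  have e2 : d = b - s * (q * B - A) := by linear_combination -i2
  have e3 : e = c - s * (p * G) := by linear_combination -i3
  have e4 : f = d - s * (D - p * G) := by linear_combination -i4
  subst e3 e4
  subst e1 e2
  have m : (1 - q ^ 2 + q ^ 4) * ((a - 1) * (b - s * (q * B - A) - 1) - b * (a - s * A)) =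
      q ^ 4 * ((s * A - 1) * (s * (D - p * G) - 1) - (s * (q * B - A) + 1) * (s * (p * G))) := by
    linear_combination (- (s * (q * B - A) + 1)) * l0 + (s * A - 1) * l1
  have hk : 1 + (q - p) ^ 2 = p * p * (1 - q ^ 2 + q ^ 4) := by
    linear_combination (- ((1 - q * p) + q ^ 2 * (1 + q * p))) * h
  have hr : (s * A - 1) * (s * (D - p * G) - 1) - (s * (q * B - A) + 1) * (s * (p * G)) =
      - s * (A + D - s' - s) := by
    linear_combination s ^ 2 * hd - he - s ^ 2 * B * G * h
  linear_combination ((a - 1) * (b - s * (q * B - A) - 1) - b * (a - s * A)) * hk + p * p * m +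
    p * p * q ^ 4 * hr + (q ^ 2 * (- s * (A + D - s' - s)) * (q * p + 1)) * h

theorem kk_ne : kk ≠ 0 := by
  intro h
  have := congrArg (eval₂ (RingHom.id ℤ) 1) h
  simp [kk, zz] at this

theorem zz_ne : zz ≠ 0 := by
  intro h
  have := congrArg (fun f : R => f.coeff 1) h
  simp [zz] at this

theorem ex_par (w : List Bool) : 2 ∣ ex w + w.length := by
  induction w with
  | nil => simp [ex]
  | cons b u ih => cases b <;> simp only [ex, List.length_cons] <;> omega

/-- Partial sums from the top. -/
def ps (D : ℤ → ℤ) (N : ℤ) (i : ℕ) : ℤ := ∑ j ∈ Finset.range (i + 1), D (N - 2 * j)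

theorem ps_succ (D : ℤ → ℤ) (N : ℤ) (i : ℕ) :
    ps D N (i + 1) = ps D N i + D (N - 2 * (i + 1)) := by
  rw [ps, Finset.sum_range_succ, ← ps]; push_cast; rfl

theorem tele (D : ℤ → ℤ) (N : ℤ) (m : ℕ) :
    zz * ∑ i ∈ Finset.range (m + 1), C (ps D N i) * T (2 * i + 1 - N) =
      C (ps D N m) * T (2 * m + 2 - N) -
        ∑ j ∈ Finset.range (m + 1), C (D (N - 2 * j)) * T (2 * j - N) := by
  have e : ∀ k : ℤ, zz * T k = T (k + 1) - T (k - 1) := fun k => by
    rw [zz, T_add, T_sub]; ring
  induction m with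
  | zero =>
    simp only [zero_add, Finset.range_one, Finset.sum_singleton, ps, Nat.cast_zero, mul_zero,
      sub_zero]
    rw [mul_left_comm, e, mul_sub]
    congr 3 <;> ring
  | succ m ih =>
    rw [Finset.sum_range_succ, mul_add, ih, Finset.sum_range_succ _ (m + 1), mul_left_comm, e,
      ps_succ, map_add]
    push_cast
    rw [show 2 * ((m : ℤ) + 1) + 1 - N + 1 = 2 * (m + 1) + 2 - N by ring,
      show 2 * ((m : ℤ) + 1) + 1 - N - 1 = 2 * (m + 1) - N by ring,
      show 2 * (m : ℤ) + 2 - N = 2 * (m + 1) - N by ring]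
    ring

theorem ps_full {D : ℤ → ℤ} (h : ∀ k, D (-k) = - D k) (n : ℕ) : ps D n n = 0 := by
  have : ps D n n = - ps D n n := by
    conv_lhs => rw [ps, ← Finset.sum_range_reflect]
    rw [ps, ← Finset.sum_neg_distrib]
    refine Finset.sum_congr rfl fun j hj => ?_
    rw [Finset.mem_range] at hj
    rw [← h]
    congr 1
    rw [Nat.cast_sub (by omega)]; push_cast; ring
  omega

theorem expand {g : R} {n : ℕ} (h : Tr (n + 1 : ℕ) (asym g)) :
    zz * ∑ i ∈ Finset.range (n + 1), C (ps (asym g) (n + 1 : ℕ) i) * T (2 * i + 1 - (n + 1 : ℕ)) =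
      g - bar g := by
  rw [tele]
  have h1 := ps_full h.odd (n + 1)
  rw [ps_succ] at h1
  have h2 : ps (asym g) (n + 1 : ℕ) n = - asym g ((n + 1 : ℕ) - 2 * ((n + 1 : ℕ) : ℤ)) := by
    push_cast at h1 ⊢; omega
  have h3 : (2 * (n : ℤ) + 2 - (n + 1 : ℕ)) = 2 * ((n + 1 : ℕ) : ℤ) - (n + 1 : ℕ) := by
    push_cast; ring
  rw [h2, h3, map_neg, neg_mul, ← neg_add', add_comm,
    ← Finset.sum_range_succ (fun j : ℕ => C (asym g ((n + 1 : ℕ) - 2 * (j : ℤ))) *
      (T (2 * (j : ℤ) - (n + 1 : ℕ)) : R))]
  ext k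
  change _ = asym g k
  simp only [← single_eq_C_mul_T, AddMonoidAlgebra.coeff_neg, AddMonoidAlgebra.coeff_sum,
    Finsupp.coe_neg, Pi.neg_apply, Finsupp.finsetSum_apply, AddMonoidAlgebra.coeff_single,
    Finsupp.single_apply]
  by_cases hk : ∃ j ∈ Finset.range (n + 1 + 1), 2 * (j : ℤ) - (n + 1 : ℕ) = k
  · obtain ⟨j, hj, rfl⟩ := hk
    rw [Finset.sum_eq_single j (fun i _ hi => if_neg (by omega)) (fun hc => absurd hj hc), if_pos rfl,
      ← h.odd, neg_sub]
  · rw [Finset.sum_eq_zero fun j hj => if_neg fun hc => hk ⟨j, hj, hc⟩, neg_zero]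
    by_cases hp : 2 ∣ k - (n + 1 : ℕ)
    · by_cases h4 : ((n + 1 : ℕ) : ℤ) < k
      · exact (h.above k h4).symm
      · by_cases h5 : ((n + 1 : ℕ) : ℤ) < -k
        · have := h.above _ h5
          rw [h.odd] at this; omega
        · exact (hk ⟨((k + (n + 1 : ℕ)) / 2).toNat, by rw [Finset.mem_range]; omega, by omega⟩).elim
    · exact (h.par k hp).symm

theorem trap {D : ℤ → ℤ} {n : ℕ} (h : Tr (n + 1 : ℕ) D) {c : ℤ} (hc0 : 0 < c) (hc : 0 < D c) :
    ∃ k, Trapezoidal n (ps D (n + 1 : ℕ)) k ∧ (n : ℤ) - 2 * k + 1 ≤ c := by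
  classical
  let P : ℕ → Prop := fun i => 0 < ((n + 1 : ℕ) : ℤ) - 2 * i ∧ 0 < D ((n + 1 : ℕ) - 2 * i)
  have P0 : P 0 := ⟨by simp, by simpa using h.top⟩
  set k := Nat.findGreatest P n with hk
  have Pk : P k := Nat.findGreatest_spec (Nat.zero_le n) P0
  have up : ∀ j i : ℕ, i + j = k → P i := by
    intro j
    induction j with
    | zero => intro i hi; rw [add_zero] at hi; rw [hi]; exact Pk
    | succ j ih =>
      intro i hi
      have := ih (i + 1) (by omega)
      refine ⟨by have := this.1; omega, ?_⟩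
      have h2 := h.itv _ this.1 this.2 (by omega)
      convert h2 using 2
      push_cast; ring
  have nP : ∀ i : ℕ, k < i → 0 < ((n + 1 : ℕ) : ℤ) - 2 * i → D ((n + 1 : ℕ) - 2 * i) = 0 := by
    intro i hi h1
    have := Nat.findGreatest_is_greatest hi (by omega : i ≤ n)
    have h2 := h.nonneg _ h1
    simp only [P, not_and, not_lt] at this
    exact le_antisymm (this h1) h2
  have k1 := Pk.1
  refine ⟨k, ⟨by omega, fun i hi => ?_, fun i h1 h2 => ?_, fun i h1 h2 => ?_⟩, ?_⟩
  · rw [ps_succ]
    have := (up (k - (i + 1)) (i + 1) (by omega)).2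
    push_cast at this ⊢; omega
  · rw [ps_succ]
    rcases lt_trichotomy 0 (((n + 1 : ℕ) : ℤ) - 2 * (i + 1)) with h3 | h3 | h3
    · have := nP (i + 1) (by omega) (by push_cast at h3 ⊢; omega)
      push_cast at this ⊢; omega
    · have := h.odd 0
      rw [← h3]; simp only [neg_zero] at this; omega
    · have := nP (n - i) (by omega) (by omega)
      have h4 := h.odd (((n + 1 : ℕ) : ℤ) - 2 * (i + 1))
      rw [show -(((n + 1 : ℕ) : ℤ) - 2 * (i + 1)) = (n + 1 : ℕ) - 2 * ((n - i : ℕ) : ℤ) by omega,
        this] at h4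
      omega
  · rw [ps_succ]
    have := (up (k - (n - i)) (n - i) (by omega)).2
    have h4 := h.odd (((n + 1 : ℕ) : ℤ) - 2 * (i + 1))
    rw [show -(((n + 1 : ℕ) : ℤ) - 2 * (i + 1)) = (n + 1 : ℕ) - 2 * ((n - i : ℕ) : ℤ) by omega] at h4
    omega
  · have h1 : c ≤ (n + 1 : ℕ) := by
      by_contra hh; have := h.above c (by omega); omega
    have h2 : 2 ∣ c - (n + 1 : ℕ) := by
      by_contra hh; have := h.par c hh; omega
    by_contra hh
    have := nP (((n + 1 : ℕ) - c) / 2).toNat (by omega) (by omega)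
    rw [show ((n + 1 : ℕ) : ℤ) - 2 * (((((n + 1 : ℕ) : ℤ) - c) / 2).toNat : ℤ) = c by omega] at this
    omega

theorem fox_three (w : List Bool) (h1 : true ∈ w) (h2 : false ∈ w) :
    ∃ (n : ℕ) (a : ℕ → ℤ) (k : ℕ),
      alexIdeal w = Ideal.span {∑ i ∈ Finset.range (n + 1), C (a i) * (- T 1) ^ i} ∧
      0 < a 0 ∧ 0 < a n ∧ Trapezoidal n a k ∧
      (n : ℤ) - 2 * k ≤ |(w.count true : ℤ) - w.count false| := by
  obtain ⟨g, e1, e2, e3⟩ := exists_D w h1 h2
  obtain ⟨n, hn⟩ : ∃ n : ℕ, w.length = n + 2 := by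
    have := List.count_pos_iff.2 h1
    have := List.count_pos_iff.2 h2
    have := List.count_true_add_count_false w
    exact ⟨w.length - 2, by omega⟩
  have e4 : Tr (n + 1 : ℕ) (asym g) := by
    convert e2 using 1; rw [hn]; push_cast; ring
  obtain ⟨k, hk, hk2⟩ := trap e4 (by positivity) e3
  refine ⟨n, _, k, ?_, by simpa [ps] using e4.top, ?_, hk, ?_⟩
  · rw [alexIdeal_eq]
    obtain ⟨m, hm⟩ : ∃ m : ℤ, 2 - ex w - n = 2 * m := by
      have := ex_par w
      exact ⟨(2 - ex w - n) / 2, by omega⟩
    set P : R := ∑ i ∈ Finset.range (n + 1), C (ps (asym g) (n + 1 : ℕ) i) * (- T 1) ^ i with hP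
    have a1 : zz * phi (dmin w) = - (T 1 * T 1 * T (- ex w)) * (g - bar g) := by
      apply mul_left_cancel₀ kk_ne
      linear_combination zz * phi_dmin w + (T 1 * T 1 * T (- ex w)) * e1
    have a2 : T (-n) * phi P = ∑ i ∈ Finset.range (n + 1),
        C (ps (asym g) (n + 1 : ℕ) i) * T (2 * i + 1 - (n + 1 : ℕ)) := by
      rw [hP, map_sum, Finset.mul_sum]
      refine Finset.sum_congr rfl fun i _ => ?_
      rw [map_mul, phi_C, map_pow, map_neg, phi_T1, neg_neg, ← T_add, T_pow, mul_left_comm, ← T_add]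
      congr 2; push_cast; ring
    have a3 : phi (dmin w) = phi (- (((m.negOnePow : ℤ) : R) * T m) * P) := by
      apply mul_left_cancel₀ zz_ne
      rw [a1, ← expand e4, ← a2, map_mul, map_neg, map_mul, phi_T, map_intCast, ← hm,
        ← mul_assoc ((m.negOnePow : ℤ) : R), ← Int.cast_mul, ← Units.val_mul, Int.units_mul_self,
        show 2 - ex w - n = 1 + 1 + - ex w + - n by ring, T_add, T_add, T_add]
      simp only [Units.val_one, Int.cast_one]
      ring
    rw [phi_injective a3]
    apply Ideal.span_singleton_mul_left_unit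
    exact (((m.negOnePow.isUnit).map (Int.castRingHom R)).mul (isUnit_T m)).neg
  · have h3 := ps_full e4.odd (n + 1)
    rw [ps_succ] at h3
    have h4 := e4.odd (n + 1 : ℕ)
    rw [show -((n + 1 : ℕ) : ℤ) = (n + 1 : ℕ) - 2 * ((n : ℤ) + 1) by push_cast; ring] at h4
    have := e4.top
    omega
  · rw [ex_eq, abs_sub_comm] at hk2; omega

end Pool.Agent.Lib.MP_bb8a0f_gt
end
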